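import Pool.Agent.Lib.MP_5dd24d_lc.Normal

/-!
# The algorithm
-/

namespace Pool.Agent.Lib.MP_5dd24d_lc

open List

/-- Numbers that are represented in binary. -/
structure BN where
  /-- the number -/
  n : ℕ
  deriving DecidableEq

instance : Inhabited BN := ⟨⟨0⟩⟩

/-- Addition. -/
def BN.add (x y : BN) : BN := ⟨x.n + y.n⟩

/-- A job: its length and its number. -/
abbrev Item : Type := BN × ℕ

/-- A state of the search: the current time, the remaining main jobs, the remaining exceptional
jobs of each length, and the idle time that is left. -/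
abbrev St : Type := BN × (List Item × (List (List Item) × ℕ))

instance : DecidableEq St := @instDecidableEqProd _ _ inferInstance inferInstance

/-- May the job start at the given time? -/
def can (F : List BN) (x : BN) (j : Item) : Bool := !F.contains x && !F.contains (x.add j.1)

/-- The next steps: the started job (or none, for a unit of idle time) and the new state. -/
def nextL (F : List BN) (s : St) : List (Option ℕ × St) :=
  (if s.2.2.2 = 0 then [] else [(none, (s.1.add ⟨1⟩, (s.2.1, (s.2.2.1, s.2.2.2 - 1))))]) ++
  (((s.2.1.take 1).flatMap fun j => if can F s.1 j then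
    [(some j.2, (s.1.add j.1, (s.2.1.tail, (s.2.2.1, s.2.2.2))))] else []) ++
  ((List.range s.2.2.1.length).flatMap fun t => ((s.2.2.1.getD t []).take 1).flatMap fun j =>
    if can F s.1 j then [(some j.2, (s.1.add j.1, (s.2.1,
      (s.2.2.1.set t (s.2.2.1.getD t []).tail, s.2.2.2))))] else []))

theorem mem_nextL {F : List BN} {x : BN} {M : List Item} {E : List (List Item)} {w : ℕ}
    {q : Option ℕ × St} : q ∈ nextL F (x, (M, (E, w))) ↔
      (w ≠ 0 ∧ q = (none, (x.add ⟨1⟩, (M, (E, w - 1))))) ∨
      (∃ j M', M = j :: M' ∧ can F x j = true ∧ q = (some j.2, (x.add j.1, (M', (E, w))))) ∨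
      (∃ t j R, ∃ h : t < E.length, E[t] = j :: R ∧ can F x j = true ∧
        q = (some j.2, (x.add j.1, (M, (E.set t R, w))))) := by
  unfold nextL
  simp only [mem_append, mem_flatMap, mem_range]
  refine or_congr ?_ (or_congr ?_ ?_)
  · by_cases h : w = 0 <;> simp [h]
  · constructor
    · rintro ⟨j, hj, hq⟩
      cases M with
      | nil => simp at hj
      | cons a M' =>
        simp only [take_succ_cons, take_zero, mem_singleton] at hj
        subst hj
        split_ifs at hq with hc
        · exact ⟨j, M', rfl, hc, by simpa using hq⟩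
        · simp at hq
    · rintro ⟨j, M', rfl, hc, rfl⟩
      exact ⟨j, by simp, by simp [hc]⟩
  · constructor
    · rintro ⟨t, ht, j, hj, hq⟩
      have hE : E.getD t [] = E[t] := by
        rw [List.getD_eq_getElem?_getD, List.getElem?_eq_getElem ht, Option.getD_some]
      rw [hE] at hj hq
      cases he : E[t] with
      | nil => rw [he] at hj; simp at hj
      | cons a R =>
        rw [he] at hj hq
        simp only [take_succ_cons, take_zero, mem_singleton] at hj
        subst hj
        split_ifs at hq with hc
        · exact ⟨t, j, R, ht, he, hc, by simpa using hq⟩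
        · simp at hq
    · rintro ⟨t, j, R, ht, he, hc, rfl⟩
      have hE : E.getD t [] = E[t] := by
        rw [List.getD_eq_getElem?_getD, List.getElem?_eq_getElem ht, Option.getD_some]
      refine ⟨t, ht, j, ?_, ?_⟩
      · rw [hE, he]; simp
      · rw [hE, he]; simp [hc]

/-- The number of remaining steps. -/
def rem (s : St) : ℕ := s.2.1.length + ((s.2.2.1.map length).sum + s.2.2.2)

/-- The total length of a list of jobs. -/
def tot (l : List Item) : ℕ := (l.map fun j => j.1.n).sum

@[simp] theorem tot_nil : tot [] = 0 := rfl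
@[simp] theorem tot_cons (j : Item) (l : List Item) : tot (j :: l) = j.1.n + tot l := by
  simp [tot]
@[simp] theorem tot_append (l l' : List Item) : tot (l ++ l') = tot l + tot l' := by
  simp [tot]

/-- The time at which everything will be finished. -/
def fin (s : St) : ℕ := s.1.n + (tot s.2.1 + ((s.2.2.1.map tot).sum + s.2.2.2))

theorem sum_map_set {α : Type*} (f : α → ℕ) (E : List α) (t : ℕ) (h : t < E.length) (R : α) :
    ((E.set t R).map f).sum + f E[t] = (E.map f).sum + f R := by
  induction E generalizing t with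
  | nil => simp at h
  | cons a E ih =>
    cases t with
    | zero => simp; omega
    | succ t =>
      have := ih t (by simpa using h)
      simp only [set_cons_succ, map_cons, sum_cons, getElem_cons_succ]
      omega

/-- `t` arises from `s` by removing jobs and idle time. -/
structure Sub (s t : St) : Prop where
  main : t.2.1 <:+ s.2.1
  len : t.2.2.1.length = s.2.2.1.length
  exc : ∀ (i : ℕ) (h : i < t.2.2.1.length) (h' : i < s.2.2.1.length),
    t.2.2.1[i] <:+ s.2.2.1[i]
  idle : t.2.2.2 ≤ s.2.2.2

theorem Sub.refl (s : St) : Sub s s :=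
  ⟨suffix_refl _, rfl, fun _ _ _ => suffix_refl _, le_rfl⟩

theorem Sub.trans {s t u : St} (h1 : Sub s t) (h2 : Sub t u) : Sub s u :=
  ⟨h2.main.trans h1.main, h2.len.trans h1.len, fun i h h' =>
    (h2.exc i h (by rw [h1.len]; exact h')).trans (h1.exc i _ h'), h2.idle.trans h1.idle⟩

theorem next_props {F : List BN} {s : St} {q : Option ℕ × St} (h : q ∈ nextL F s) :
    Sub s q.2 ∧ rem q.2 + 1 = rem s ∧ fin q.2 = fin s := by
  obtain ⟨x, M, E, w⟩ := s
  rcases mem_nextL.1 h with ⟨hw, rfl⟩ | ⟨j, M', rfl, hc, rfl⟩ | ⟨t, j, R, ht, he, hc, rfl⟩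
  · refine ⟨⟨suffix_refl _, rfl, fun _ _ _ => suffix_refl _, by simp⟩, ?_, ?_⟩
    · simp only [rem]; omega
    · simp only [fin, BN.add]; omega
  · refine ⟨⟨suffix_cons _ _, rfl, fun _ _ _ => suffix_refl _, le_rfl⟩, ?_, ?_⟩
    · simp only [rem, length_cons]; omega
    · simp only [fin, BN.add, tot_cons]; omega
  · refine ⟨⟨suffix_refl _, by simp, fun i h1 h2 => ?_, le_rfl⟩, ?_, ?_⟩
    · simp only
      rw [getElem_set]
      split_ifs with h3
      · subst h3
        simp only [he]
        exact suffix_cons _ _
      · exact suffix_refl _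
    · have := sum_map_set length E t ht R
      rw [he] at this
      simp only [rem]
      simp only [length_cons] at this
      omega
    · have := sum_map_set tot E t ht R
      rw [he] at this
      simp only [fin, BN.add]
      simp only [tot_cons] at this
      omega

/-- `t` can be reached from `s` in `k` steps. -/
def Reach (F : List BN) : ℕ → St → St → Prop
  | 0, s, t => s = t
  | k + 1, s, t => ∃ q ∈ nextL F s, Reach F k q.2 t

theorem Reach.snoc {F : List BN} : ∀ {k : ℕ} {s t : St}, Reach F (k + 1) s t ↔
    ∃ u, Reach F k s u ∧ ∃ q ∈ nextL F u, q.2 = t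
  | 0, s, t => by
    simp only [Reach]
    constructor
    · rintro ⟨q, hq, h⟩; exact ⟨s, rfl, q, hq, h⟩
    · rintro ⟨u, rfl, q, hq, h⟩; exact ⟨q, hq, h⟩
  | k + 1, s, t => by
    constructor
    · rintro ⟨q, hq, h⟩
      obtain ⟨u, hu, q', hq', h'⟩ := Reach.snoc.1 h
      exact ⟨u, ⟨q, hq, hu⟩, q', hq', h'⟩
    · rintro ⟨u, ⟨q, hq, hu⟩, q', hq', h'⟩
      exact ⟨q, hq, Reach.snoc.2 ⟨u, hu, q', hq', h'⟩⟩

theorem Reach.props {F : List BN} : ∀ {k : ℕ} {s t : St}, Reach F k s t →
    Sub s t ∧ rem t + k = rem s ∧ fin t = fin s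
  | 0, s, t, h => by cases h; exact ⟨Sub.refl _, rfl, rfl⟩
  | k + 1, s, t, ⟨q, hq, h⟩ => by
    obtain ⟨h1, h2, h3⟩ := h.props
    obtain ⟨g1, g2, g3⟩ := next_props hq
    exact ⟨g1.trans h1, by omega, h3.trans g3⟩

/-- The states of one layer are determined by few numbers. -/
theorem Sub.ext {s t t' : St} (h : Sub s t) (h' : Sub s t') (hr : rem t = rem t')
    (hf : fin t = fin t') (hE : ∀ (i : ℕ) (h1 : i < t.2.2.1.length) (h2 : i < t'.2.2.1.length),
      t.2.2.1[i].length = t'.2.2.1[i].length) (hw : t.2.2.2 = t'.2.2.2) : t = t' := by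
  have suf : ∀ {l a b : List Item}, a <:+ l → b <:+ l → a.length = b.length → a = b := by
    intro l a b ha hb hlen
    rw [suffix_iff_eq_drop] at ha hb
    rw [ha, hb, hlen]
  obtain ⟨x, M, E, w⟩ := t
  obtain ⟨x', M', E', w'⟩ := t'
  have e1 : E = E' := by
    refine ext_getElem (h.len.trans h'.len.symm) fun i h1 h2 => ?_
    exact suf (h.exc i h1 (by rw [← h.len]; exact h1)) (h'.exc i h2 (by rw [← h'.len]; exact h2))
      (hE i h1 h2)
  have hw : w = w' := hw
  subst e1 hw
  have e2 : M = M' := by
    refine suf h.main h'.main ?_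
    simp only [rem] at hr
    omega
  subst e2
  have e3 : x.n = x'.n := by simp only [fin] at hf; omega
  obtain ⟨x⟩ := x
  obtain ⟨x'⟩ := x'
  simp only at e3
  subst e3
  rfl

/-- The size of the parts of a state that can be changed. -/
def Small (n h W : ℕ) (s : St) : Prop :=
  s.2.2.1.length ≤ n ∧ (∀ R ∈ s.2.2.1, R.length ≤ h) ∧ s.2.2.2 ≤ W

theorem Sub.small {n h W : ℕ} {s t : St} (hs : Small n h W s) (hst : Sub s t) :
    Small n h W t := by
  refine ⟨by rw [hst.len]; exact hs.1, fun R hR => ?_, hst.idle.trans hs.2.2⟩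
  obtain ⟨i, hi, rfl⟩ := mem_iff_getElem.1 hR
  have h1 : i < s.2.2.1.length := by rw [← hst.len]; exact hi
  exact (hst.exc i hi h1).length_le.trans (hs.2.1 _ (getElem_mem h1))

/-- A layer has few elements. -/
theorem layer_card {n h W D k : ℕ} {F : List BN} {s : St} (hs : Small n h W s)
    (hD : (h + 1) ^ n * (W + 1) ≤ D) (l : List St) (hl : l.Nodup)
    (hr : ∀ t ∈ l, Reach F k s t) : l.length ≤ D := by
  classical
  have h1 : l.toFinset.card ≤
      (Finset.univ : Finset ((Fin s.2.2.1.length → Fin (h + 1)) × Fin (W + 1))).card := by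
    refine Finset.card_le_card_of_injOn (fun t => (fun i =>
      ⟨min (t.2.2.1.getD i []).length h, by omega⟩, ⟨min t.2.2.2 W, by omega⟩)) (by simp) ?_
    intro t ht t' ht' he
    have ht : t ∈ l := by simpa using ht
    have ht' : t' ∈ l := by simpa using ht'
    obtain ⟨g1, g2, g3⟩ := (hr t ht).props
    obtain ⟨g1', g2', g3'⟩ := (hr t' ht').props
    have m1 := g1.small hs
    have m2 := g1'.small hs
    simp only [Prod.mk.injEq, Fin.mk.injEq] at he
    refine g1.ext g1' (by omega) (by rw [g3, g3']) ?_ ?_
    · intro i h1 h2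
      have h3 : i < s.2.2.1.length := by rw [← g1.len]; exact h1
      have h4 := congrFun he.1 ⟨i, h3⟩
      simp only [Fin.mk.injEq] at h4
      have e1 : t.2.2.1.getD i [] = t.2.2.1[i] := by
        rw [List.getD_eq_getElem?_getD, List.getElem?_eq_getElem h1, Option.getD_some]
      have e2 : t'.2.2.1.getD i [] = t'.2.2.1[i] := by
        rw [List.getD_eq_getElem?_getD, List.getElem?_eq_getElem h2, Option.getD_some]
      rw [e1, e2] at h4
      have h5 := m1.2.1 _ (getElem_mem h1)
      have h6 := m2.2.1 _ (getElem_mem h2)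
      omega
    · have := m1.2.2
      have := m2.2.2
      omega
  rw [toFinset_card_of_nodup hl] at h1
  refine h1.trans (le_trans ?_ hD)
  rw [Finset.card_univ, Fintype.card_prod, Fintype.card_fun, Fintype.card_fin, Fintype.card_fin,
    Fintype.card_fin]
  exact Nat.mul_le_mul_right _ (Nat.pow_le_pow_right (by omega) hs.1)

/-- The next layer of the breadth-first search. -/
def layer (D : ℕ) (F : List BN) (L : List St) : List St :=
  (L.flatMap fun s => (nextL F s).map Prod.snd).dedup.take D

/-- Can everything be finished from here? -/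
def good (D : ℕ) (F : List BN) (s : St) : Bool := !((layer D F)^[rem s] [s]).isEmpty

theorem layer_iter {n h W D : ℕ} {F : List BN} {s : St} (hs : Small n h W s)
    (hD : (h + 1) ^ n * (W + 1) ≤ D) (k : ℕ) :
    ((layer D F)^[k] [s]).Nodup ∧ ∀ t, t ∈ (layer D F)^[k] [s] ↔ Reach F k s t := by
  induction k with
  | zero => exact ⟨by simp, fun t => by simp [Reach, eq_comm]⟩
  | succ k ih =>
    rw [Function.iterate_succ_apply']
    set L := (layer D F)^[k] [s]
    have h1 : ∀ t, t ∈ (L.flatMap fun s => (nextL F s).map Prod.snd).dedup ↔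
        Reach F (k + 1) s t := by
      intro t
      rw [mem_dedup, Reach.snoc]
      simp only [mem_flatMap, mem_map, ih.2]
    have h2 : (layer D F L) = (L.flatMap fun s => (nextL F s).map Prod.snd).dedup := by
      unfold layer
      refine take_of_length_le ?_
      exact layer_card hs hD _ (nodup_dedup _) fun t ht => (h1 t).1 ht
    rw [h2]
    exact ⟨nodup_dedup _, h1⟩

theorem good_iff {n h W D : ℕ} {F : List BN} {s : St} (hs : Small n h W s)
    (hD : (h + 1) ^ n * (W + 1) ≤ D) : good D F s = true ↔ ∃ t, Reach F (rem s) s t := by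
  unfold good
  rw [Bool.not_eq_true', isEmpty_eq_false_iff_exists_mem]
  simp only [(layer_iter hs hD (rem s)).2]

/-- One step of the reconstruction of a schedule. -/
def ext (D : ℕ) (F : List BN) (c : St × List (ℕ × BN)) : St × List (ℕ × BN) :=
  match (nextL F c.1).find? (fun q => good D F q.2) with
  | none => c
  | some q => (q.2, match q.1 with
    | none => c.2
    | some i => (i, c.1.1) :: c.2)

/-- The jobs of length `t`. -/
def group (P : List BN) (t : BN) : List Item := P.zipIdx.filter fun j => j.1 = t

/-- The initial state: for the first `m` lengths, `h` jobs of each length are exceptional. -/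
def start (P : List BN) (m h w : ℕ) : St :=
  (⟨0⟩, (((P.dedup.take m).flatMap fun t => (group P t).drop h) ++
    ((P.dedup.drop m).flatMap fun t => group P t),
    ((P.dedup.take m).map fun t => (group P t).take h, w)))

/-- The least amount of idle time with which everything can be finished. -/
def best (P F : List BN) (W h D : ℕ) : ℕ :=
  ((List.range (W + 1)).find? fun w => good D F (start P (2 * F.length + 1) h w)).getD 0

/-- The started jobs with their start times. -/
def plan (P F : List BN) (W h D : ℕ) : List (ℕ × BN) :=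
  ((ext D F)^[rem (start P (2 * F.length + 1) h (best P F W h D))]
    (start P (2 * F.length + 1) h (best P F W h D), [])).2

/-- The algorithm. -/
def solve (P F : List BN) (W h D : ℕ) : List BN :=
  (List.range P.length).map fun j =>
    (((plan P F W h D).find? fun q => q.1 = j).map Prod.snd).getD ⟨0⟩

end Pool.Agent.Lib.MP_5dd24d_lc
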