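import Pool.Agent.Lib.MP_5dd24d_lc.StepPT

/-!
# The algorithm runs in polynomial time in the size of the input and of its parameters
-/

namespace Pool.Agent.Lib.MP_5dd24d_lc

open Pool.Agent.PolyTime Function Pool.Agent.Lib.MP_7fc3ed_lc

variable {α β γ δ σ : Type*} [Rep α] [Rep β] [Rep γ] [Rep δ] [Rep σ]

attribute [local irreducible] nextL good layer rem fin group start best plan ext

omit [Rep β] in
theorem dedup_eq_foldr [DecidableEq β] (l : List β) :
    l.dedup = l.foldr (fun b s => if b ∈ s then s else b :: s) [] := by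
  induction l with
  | nil => rfl
  | cons b l ih =>
    rw [List.foldr_cons, ← ih]
    by_cases h : b ∈ l
    · rw [List.dedup_cons_of_mem h, if_pos (List.mem_dedup.2 h)]
    · rw [List.dedup_cons_of_notMem h, if_neg (fun h' => h (List.mem_dedup.1 h'))]

theorem pt_dedup [InjRep β] [DecidableEq β] {l : α → List β} (hl : PT l) :
    PT (fun a => (l a).dedup) := by
  simp only [dedup_eq_foldr]
  refine PT.foldr (g := fun _ b s => if b ∈ s then s else b :: s) hl (PT.const [])
    ?_ hl.bdd ?_
  · exact PT.iteProp (PT.contains PT.id.snd.fst PT.id.snd.snd) PT.id.snd.snd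
      (PT.cons PT.id.snd.fst PT.id.snd.snd)
  · intro a l' hl'
    have := dedup_eq_foldr l'
    rw [← this]
    exact (sz_sublist (List.dedup_sublist l')).trans (sz_sublist hl'.sublist)

theorem pt_layer {D : α → ℕ} {F : α → List BN} {L : α → List St} (hD : PT D) (hF : PT F)
    (hL : PT L) : PT (fun a => layer (D a) (F a) (L a)) := by
  unfold layer
  refine PT.take (pt_dedup ?_) hD
  refine PT.flatMap (g := fun a s => (nextL (F a) s).map Prod.snd) hL ?_
  exact PT.map (α := α × St) (g := fun _ (q : Option ℕ × St) => q.2)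
    (pt_nextL (hF.comp PT.id.fst) PT.id.snd) PT.id.snd.snd

theorem pt_rem {s : α → St} (hs : PT s) : PT (fun a => rem (s a)) := by
  unfold rem
  exact PT.add (PT.length hs.snd.fst) (PT.add (PT.sum (PT.map
    (g := fun _ (l : List Item) => l.length) hs.snd.snd.fst (PT.length PT.id.snd)))
    hs.snd.snd.snd)

/-! ### Sizes -/

theorem lt_two_pow_length_bits (n : ℕ) : n < 2 ^ n.bits.length := by
  have h1 := lowVal_lt n.bits n.bits.length
  rw [lowVal_eq_val _ _ le_rfl, val_bits] at h1
  exact h1

theorem length_bits_le_of_lt {n k : ℕ} (h : n < 2 ^ k) : n.bits.length ≤ k := by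
  rw [Nat.size_eq_bits_len]
  exact Nat.size_le.2 h

theorem sz_BN_le {n k : ℕ} (h : n < 2 ^ k) : sz (⟨n⟩ : BN) ≤ 4 * k + 1 := by
  have h1 := sz_le_of_forall n.bits 3 fun b _ => sz_bool b
  have h2 := length_bits_le_of_lt h
  rw [sz_BN]
  simp only
  omega

theorem BN_lt (x : BN) : x.n < 2 ^ sz x := by
  refine (lt_two_pow_length_bits x.n).trans_le (Nat.pow_le_pow_right (by norm_num) ?_)
  rw [sz_BN]
  exact length_le_sz _

theorem two_pow_add_lt {a b m n : ℕ} (ha : a < 2 ^ m) (hb : b < 2 ^ n) (hm : 1 ≤ m)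
    (hn : 1 ≤ n) : a + b < 2 ^ (m + n) := by
  have h1 : 2 ≤ 2 ^ m := by
    calc 2 = 2 ^ 1 := rfl
      _ ≤ 2 ^ m := Nat.pow_le_pow_right (by norm_num) hm
  have h2 : 2 ≤ 2 ^ n := by
    calc 2 = 2 ^ 1 := rfl
      _ ≤ 2 ^ n := Nat.pow_le_pow_right (by norm_num) hn
  rw [pow_add]
  nlinarith

theorem tot_lt (l : List Item) : tot l < 2 ^ sz l := by
  induction l with
  | nil => simp
  | cons j l ih =>
    rw [tot_cons, sz_cons]
    have h1 := BN_lt j.1
    have h2 : sz j = sz j.1 + sz j.2 + 1 := sz_prod j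
    have h3 := two_pow_add_lt h1 ih (sz_pos _) (sz_pos _)
    refine h3.trans_le (Nat.pow_le_pow_right (by norm_num) (by omega))

theorem sum_tot_lt (E : List (List Item)) : (E.map tot).sum < 2 ^ sz E := by
  induction E with
  | nil => simp
  | cons R E ih =>
    rw [List.map_cons, List.sum_cons, sz_cons]
    have h3 := two_pow_add_lt (tot_lt R) ih (sz_pos _) (sz_pos _)
    exact h3.trans_le (Nat.pow_le_pow_right (by norm_num) (by omega))

theorem fin_lt (s : St) : fin s < 2 ^ sz s := by
  obtain ⟨x, M, E, w⟩ := s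
  unfold fin
  have h1 := BN_lt x
  have h2 := tot_lt M
  have h3 := sum_tot_lt E
  have h4 : w < 2 ^ sz w := by
    rw [sz_nat]
    exact (Nat.lt_two_pow_self (n := w)).trans_le (Nat.pow_le_pow_right (by norm_num) (by omega))
  have h5 := two_pow_add_lt h3 h4 (sz_pos _) (sz_pos _)
  have h6 := two_pow_add_lt h2 h5 (sz_pos _) (by have := sz_pos E; omega)
  have h7 := two_pow_add_lt h1 h6 (sz_pos _) (by have := sz_pos M; omega)
  refine h7.trans_le (Nat.pow_le_pow_right (by norm_num) ?_)
  simp only [sz_pair]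
  omega

theorem sz_pointwise : ∀ (E E' : List (List Item)), E'.length = E.length →
    (∀ (i : ℕ) (h : i < E'.length) (h' : i < E.length), E'[i] <:+ E[i]) → sz E' ≤ sz E
  | [], [], _, _ => le_rfl
  | [], _ :: _, h, _ => by simp at h
  | _ :: _, [], h, _ => by simp at h
  | R :: E, R' :: E', h, hs => by
    have h1 := hs 0 (by simp) (by simp)
    simp only [List.getElem_cons_zero] at h1
    have h2 := sz_pointwise E E' (by simpa using h) (fun i hi hi' => by
      have := hs (i + 1) (by simpa using hi) (by simpa using hi')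
      simpa using this)
    have h3 := sz_sublist h1.sublist
    simp only [sz_cons]
    omega

/-- States occurring in the search are small. -/
theorem sz_le_of_sub {s t : St} (h : Sub s t) (hf : fin t = fin s) :
    sz t ≤ 6 * sz s + 1 := by
  have h1 : t.1.n < 2 ^ sz s := by
    have h2 : t.1.n ≤ fin t := by unfold fin; omega
    exact (h2.trans_eq hf).trans_lt (fin_lt s)
  have h2 := sz_BN_le h1
  have h3 := sz_sublist h.main.sublist
  have h4 := sz_pointwise s.2.2.1 t.2.2.1 h.len h.exc
  have h5 := h.idle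
  have h6 : sz t = sz t.1 + (sz t.2.1 + (sz t.2.2.1 + sz t.2.2.2 + 1) + 1) + 1 := by
    rw [sz_prod, sz_prod, sz_prod]
  have h7 : sz s = sz s.1 + (sz s.2.1 + (sz s.2.2.1 + sz s.2.2.2 + 1) + 1) + 1 := by
    rw [sz_prod, sz_prod, sz_prod]
  have h8 : sz t.1 = sz (⟨t.1.n⟩ : BN) := rfl
  have h9 : sz t.2.2.2 ≤ sz s.2.2.2 := by rw [sz_nat, sz_nat]; omega
  omega

theorem mem_layer_iter {D : ℕ} {F : List BN} {s : St} (k : ℕ) :
    ∀ t ∈ (layer D F)^[k] [s], Reach F k s t := by
  induction k with
  | zero => intro t ht; simpa [Reach, eq_comm] using ht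
  | succ k ih =>
    intro t ht
    rw [Function.iterate_succ_apply', layer] at ht
    have h1 := List.mem_dedup.1 (List.mem_of_mem_take ht)
    obtain ⟨u, hu, h2⟩ := List.mem_flatMap.1 h1
    obtain ⟨q, hq, rfl⟩ := List.mem_map.1 h2
    exact Reach.snoc.2 ⟨u, ih u hu, q, hq, rfl⟩

theorem sz_layer_iter {D : ℕ} {F : List BN} {s : St} (k : ℕ) :
    sz ((layer D F)^[k] [s]) ≤ (D + 1) * (6 * sz s + 2) + 1 := by
  have h1 := sz_le_of_forall ((layer D F)^[k] [s]) (6 * sz s + 1) fun t ht => by
    have h := (mem_layer_iter k t ht).props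
    exact sz_le_of_sub h.1 h.2.2
  have h2 : ((layer D F)^[k] [s]).length ≤ D + 1 := by
    cases k with
    | zero => simp
    | succ k =>
      rw [Function.iterate_succ_apply']
      unfold layer
      rw [List.length_take]
      omega
  refine h1.trans ?_
  exact Nat.add_le_add_right (Nat.mul_le_mul_right (6 * sz s + 2) h2) 1

theorem pt_good {D : α → ℕ} {F : α → List BN} {s : α → St} (hD : PT D) (hF : PT F)
    (hs : PT s) : PT (fun a => good (D a) (F a) (s a)) := by
  unfold good
  refine PT.not (PT.isNil ?_)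
  refine pt_iter (g := fun a L => layer (D a) (F a) L) (f := fun a => [s a]) (pt_rem hs)
    (PT.cons hs (PT.const [])) (pt_layer (hD.comp PT.id.fst) (hF.comp PT.id.fst) PT.id.snd)
    (B := fun a => (D a + 1) * (6 * sz (s a) + 2) + 1) ?_ ?_
  · exact (((bdd_nat hD).add (Bdd.const 1)).mul (((Bdd.const 6).mul hs.bdd).add
      (Bdd.const 2))).add (Bdd.const 1)
  · intro a m _
    exact sz_layer_iter m

/-- `ext` in a form suitable for `PT`. -/
theorem ext_eq (D : ℕ) (F : List BN) (c : St × List (ℕ × BN)) : ext D F c =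
    Option.casesOn (motive := fun _ => St × List (ℕ × BN))
      ((nextL F c.1).find? fun q => good D F q.2) c
      (fun q => (q.2, Option.casesOn (motive := fun _ => List (ℕ × BN)) q.1 c.2
        (fun i => (i, c.1.1) :: c.2))) := by
  unfold ext
  cases (nextL F c.1).find? (fun q => good D F q.2) with
  | none => rfl
  | some q => obtain ⟨o, s⟩ := q; cases o <;> rfl

/-- The next step that is chosen. -/
def pick (D : ℕ) (F : List BN) (s : St) : Option (Option ℕ × St) :=
  (nextL F s).find? fun q => good D F q.2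

theorem pt_pick {D : α → ℕ} {F : α → List BN} {s : α → St} (hD : PT D) (hF : PT F)
    (hs : PT s) : PT (fun a => pick (D a) (F a) (s a)) :=
  PT.find? (l := fun a => nextL (F a) (s a)) (g := fun a q => good (D a) (F a) q.2)
    (pt_nextL hF hs)
    (pt_good (D := fun p : α × (Option ℕ × St) => D p.1) (F := fun p => F p.1)
      (s := fun p => p.2.2) (hD.comp PT.id.fst) (hF.comp PT.id.fst) PT.id.snd.snd)

/-- Record the started job. -/
def record (c : St × List (ℕ × BN)) (o : Option ℕ) : List (ℕ × BN) :=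
  Option.casesOn (motive := fun _ => List (ℕ × BN)) o c.2 (fun i => (i, c.1.1) :: c.2)

theorem pt_record {c : α → St × List (ℕ × BN)} {o : α → Option ℕ} (hc : PT c) (ho : PT o) :
    PT (fun a => record (c a) (o a)) :=
  PT.optionCases (l := o) (f := fun a => (c a).2)
    (g := fun a i => (i, (c a).1.1) :: (c a).2) ho hc.snd
    (PT.cons (PT.pair PT.id.snd (hc.comp PT.id.fst).fst.fst) (hc.comp PT.id.fst).snd)

theorem ext_eq' (D : ℕ) (F : List BN) (c : St × List (ℕ × BN)) :
    Option.casesOn (motive := fun _ => St × List (ℕ × BN)) (pick D F c.1) c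
      (fun q => (q.2, record c q.1)) = ext D F c := (ext_eq D F c).symm

theorem pt_ext {D : α → ℕ} {F : α → List BN} {c : α → St × List (ℕ × BN)} (hD : PT D)
    (hF : PT F) (hc : PT c) : PT (fun a => ext (D a) (F a) (c a)) := by
  have h1 : PT (fun a => pick (D a) (F a) (c a).1) := pt_pick hD hF hc.fst
  have h2 : PT (fun p : α × (Option ℕ × St) => (p.2.2, record (c p.1) p.2.1)) :=
    PT.pair PT.id.snd.snd (pt_record (c := fun p : α × (Option ℕ × St) => c p.1)
      (hc.comp PT.id.fst) PT.id.snd.fst)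
  exact (PT.optionCases (l := fun a => pick (D a) (F a) (c a).1) (f := c)
    (g := fun a q => (q.2, record (c a) q.1)) h1 hc h2).congr fun a => ext_eq' _ _ _

theorem ext_cases (D : ℕ) (F : List BN) (c : St × List (ℕ × BN)) :
    ext D F c = c ∨ ∃ q ∈ nextL F c.1, ext D F c = (q.2, match q.1 with
      | none => c.2
      | some i => (i, c.1.1) :: c.2) := by
  unfold ext
  cases h : (nextL F c.1).find? (fun q => good D F q.2) with
  | none => exact Or.inl rfl
  | some q => exact Or.inr ⟨q, List.mem_of_find?_eq_some h, rfl⟩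

theorem item_sz {F : List BN} {s : St} {q : Option ℕ × St} (h : q ∈ nextL F s) {i : ℕ}
    (hi : q.1 = some i) : sz i ≤ sz s := by
  obtain ⟨x, M, E, w⟩ := s
  rcases mem_nextL.1 h with ⟨hw, rfl⟩ | ⟨j, M', rfl, hc, rfl⟩ | ⟨t, j, R, ht, he, hc, rfl⟩
  · simp at hi
  · simp only [Option.some.injEq] at hi
    subst hi
    have h2 : sz j = sz j.1 + sz j.2 + 1 := sz_prod j
    simp only [sz_pair, sz_cons]
    omega
  · simp only [Option.some.injEq] at hi
    subst hi
    have h2 : sz j = sz j.1 + sz j.2 + 1 := sz_prod j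
    have h3 : sz E[t] ≤ sz E := sz_mem_le (List.getElem_mem ht)
    have h4 : sz j ≤ sz E[t] := sz_mem_le (by rw [he]; simp)
    simp only [sz_pair]
    omega

theorem ext_iter_sz (D : ℕ) (F : List BN) (s : St) (k : ℕ) :
    Sub s ((ext D F)^[k] (s, [])).1 ∧ fin ((ext D F)^[k] (s, [])).1 = fin s ∧
      sz ((ext D F)^[k] (s, [])).2 ≤ k * (10 * sz s + 5) + 1 := by
  induction k with
  | zero => exact ⟨Sub.refl s, rfl, by simp⟩
  | succ k ih =>
    rw [Function.iterate_succ_apply']
    set c := (ext D F)^[k] (s, [])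
    obtain ⟨h1, h2, h3⟩ := ih
    have e : (k + 1) * (10 * sz s + 5) = k * (10 * sz s + 5) + (10 * sz s + 5) := by ring
    rcases ext_cases D F c with h | ⟨q, hq, h⟩
    · rw [h]; exact ⟨h1, h2, by omega⟩
    · rw [h]
      obtain ⟨g1, g2, g3⟩ := next_props hq
      refine ⟨h1.trans g1, g3.trans h2, ?_⟩
      cases hq1 : q.1 with
      | none => simp only; omega
      | some i =>
        simp only [sz_cons, sz_pair]
        have h4 := item_sz hq hq1
        have h5 := sz_le_of_sub h1 h2
        have h6 : sz c.1.1 ≤ 4 * sz s + 1 := by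
          have h7 : c.1.1.n ≤ fin c.1 := by unfold fin; omega
          have h8 : c.1.1.n < 2 ^ sz s := (h7.trans_eq h2).trans_lt (fin_lt s)
          exact sz_BN_le h8
        omega

/-! ### The whole algorithm -/

theorem pt_group {P : α → List BN} {t : α → BN} (hP : PT P) (ht : PT t) :
    PT (fun a => group (P a) (t a)) := by
  unfold group
  refine PT.filter (g := fun a j => decide (j.1 = t a)) (PT.zipIdx hP) ?_
  exact PT.eq PT.id.snd.fst (ht.comp PT.id.fst)

theorem pt_start {P : α → List BN} {m h w : α → ℕ} (hP : PT P) (hm : PT m) (hh : PT h)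
    (hw : PT w) : PT (fun a => start (P a) (m a) (h a) (w a)) := by
  have hd := pt_dedup hP
  have hg : PT (fun p : α × BN => group (P p.1) p.2) :=
    pt_group (hP.comp PT.id.fst) PT.id.snd
  unfold start
  refine PT.pair (PT.const _) (PT.pair (PT.append ?_ ?_) (PT.pair ?_ hw))
  · exact PT.flatMap (g := fun a t => (group (P a) t).drop (h a)) (PT.take hd hm)
      (PT.drop hg (hh.comp PT.id.fst))
  · exact PT.flatMap (g := fun a t => group (P a) t) (PT.drop hd hm) hg
  · exact PT.map (g := fun a t => (group (P a) t).take (h a)) (PT.take hd hm)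
      (PT.take hg (hh.comp PT.id.fst))

theorem pt_m {F : α → List BN} (hF : PT F) : PT (fun a => 2 * (F a).length + 1) :=
  PT.add (PT.mul (PT.const 2) (PT.length hF)) (PT.const 1)

theorem pt_best {P F : α → List BN} {W h D : α → ℕ} (hP : PT P) (hF : PT F) (hW : PT W)
    (hh : PT h) (hD : PT D) : PT (fun a => best (P a) (F a) (W a) (h a) (D a)) := by
  unfold best
  refine PT.getD (PT.find? (g := fun a w => good (D a) (F a)
    (start (P a) (2 * (F a).length + 1) (h a) w))
    (PT.range (PT.add hW (PT.const 1))) ?_) (PT.const 0)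
  exact pt_good (hD.comp PT.id.fst) (hF.comp PT.id.fst) (pt_start (hP.comp PT.id.fst)
    ((pt_m hF).comp PT.id.fst) (hh.comp PT.id.fst) PT.id.snd)

/-- The initial state for the best amount of idle time. -/
def start₀ (P F : List BN) (W h D : ℕ) : St :=
  start P (2 * F.length + 1) h (best P F W h D)

theorem pt_plan {P F : α → List BN} {W h D : α → ℕ} (hP : PT P) (hF : PT F) (hW : PT W)
    (hh : PT h) (hD : PT D) : PT (fun a => plan (P a) (F a) (W a) (h a) (D a)) := by
  have hs : PT (fun a => start₀ (P a) (F a) (W a) (h a) (D a)) :=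
    pt_start hP (pt_m hF) hh (pt_best hP hF hW hh hD)
  have hr := pt_rem hs
  have h0 : PT (fun a => (ext (D a) (F a))^[rem (start₀ (P a) (F a) (W a) (h a) (D a))]
      (start₀ (P a) (F a) (W a) (h a) (D a), ([] : List (ℕ × BN)))) := by
    refine pt_iter (g := fun a c => ext (D a) (F a) c) (f := fun a =>
      (start₀ (P a) (F a) (W a) (h a) (D a), ([] : List (ℕ × BN)))) hr
      (PT.pair hs (PT.const []))
      (pt_ext (hD.comp PT.id.fst) (hF.comp PT.id.fst) PT.id.snd)
      (B := fun a => (6 * sz (start₀ (P a) (F a) (W a) (h a) (D a)) + 1) +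
        (rem (start₀ (P a) (F a) (W a) (h a) (D a)) *
          (10 * sz (start₀ (P a) (F a) (W a) (h a) (D a)) + 5) + 1) + 1) ?_ ?_
    · exact ((((Bdd.const 6).mul hs.bdd).add (Bdd.const 1)).add
        (((bdd_nat hr).mul (((Bdd.const 10).mul hs.bdd).add (Bdd.const 5))).add
          (Bdd.const 1))).add (Bdd.const 1)
    · intro a m hm
      obtain ⟨h1, h2, h3⟩ := ext_iter_sz (D a) (F a) (start₀ (P a) (F a) (W a) (h a) (D a)) m
      have h4 := sz_le_of_sub h1 h2
      have h5 := Nat.mul_le_mul_right (10 * sz (start₀ (P a) (F a) (W a) (h a) (D a)) + 5) hm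
      change sz ((ext (D a) (F a))^[m] (start₀ (P a) (F a) (W a) (h a) (D a), [])) ≤ _
      rw [sz_prod]
      omega
  refine h0.snd.congr fun a => ?_
  rw [plan]
  rfl

/-- The start time of a job in a plan. -/
def lookup (l : List (ℕ × BN)) (j : ℕ) : BN := ((l.find? fun q => q.1 = j).map Prod.snd).getD ⟨0⟩

theorem pt_lookup {l : α → List (ℕ × BN)} {j : α → ℕ} (hl : PT l) (hj : PT j) :
    PT (fun a => lookup (l a) (j a)) := by
  have h1 : PT (fun a => (l a).find? fun q => decide (q.1 = j a)) :=
    PT.find? (g := fun a (q : ℕ × BN) => decide (q.1 = j a)) hl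
      (PT.natEq PT.id.snd.fst (hj.comp PT.id.fst))
  exact PT.getD (PT.optionMap (g := fun _ (q : ℕ × BN) => q.2) h1 PT.id.snd.snd) (PT.const _)

theorem pt_solve {P F : α → List BN} {W h D : α → ℕ} (hP : PT P) (hF : PT F) (hW : PT W)
    (hh : PT h) (hD : PT D) : PT (fun a => solve (P a) (F a) (W a) (h a) (D a)) := by
  have h1 : PT (fun p : α × ℕ =>
      lookup (plan (P p.1) (F p.1) (W p.1) (h p.1) (D p.1)) p.2) :=
    pt_lookup ((pt_plan hP hF hW hh hD).comp PT.id.fst) PT.id.snd
  exact PT.map (g := fun a j => lookup (plan (P a) (F a) (W a) (h a) (D a)) j)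
    (PT.range (PT.length hP)) h1

end Pool.Agent.Lib.MP_5dd24d_lc
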