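import Pool.Agent.Lib.MP_5dd24d_lc.Algo
import Pool.Agent.Lib.MP_7fc3ed_lc.Bin
import Pool.Agent.Lib.PolyTime.ListOps

/-!
# Numbers in binary
-/

namespace Pool.Agent.Lib.MP_5dd24d_lc

open Pool.Agent.PolyTime Function Pool.Agent.Lib.MP_7fc3ed_lc

variable {α β γ δ σ : Type*} [Rep α] [Rep β] [Rep γ] [Rep δ] [Rep σ]

/-! ### Numbers in binary -/

instance : Rep BN := ⟨fun x => toT x.n.bits⟩

theorem toT_BN (x : BN) : toT x = toT x.n.bits := rfl
theorem sz_BN (x : BN) : sz x = sz x.n.bits := rfl

instance : InjRep BN := ⟨fun a b h => by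
  have h1 : a.n.bits = b.n.bits := InjRep.inj h
  have h2 := bits_inj h1
  cases a; cases b
  simp only at h2
  rw [h2]⟩

@[fun_prop]
theorem pt_BN_bits {f : α → BN} (hf : PT f) : PT (fun a => (f a).n.bits) :=
  Comp.congr hf (fun _ => rfl) (fun _ => rfl)

/-- Remove leading zeros (the most significant bits are at the end). -/
def trim (l : List Bool) : List Bool :=
  l.foldr (fun b s => if b = false ∧ s = [] then [] else b :: s) []

theorem trim_eq (l : List Bool) : trim l = (val l).bits := by
  induction l with
  | nil => rfl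
  | cons b l ih =>
    have h1 : trim (b :: l) = if b = false ∧ trim l = [] then [] else b :: trim l := rfl
    rw [h1, ih, val_cons]
    have h2 : (val l).bits = [] ↔ val l = 0 := by
      constructor
      · intro h
        have := val_bits (val l)
        rw [h] at this
        exact this.symm
      · intro h; rw [h]; rfl
    by_cases h3 : val l = 0
    · cases b
      · simp [h3]
      · simp [h3]
    · have h4 : ¬ (val l).bits = [] := fun h => h3 (h2.1 h)
      rw [if_neg (fun h => h4 h.2)]
      have h5 := bits_bit' b h3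
      rw [Nat.bit_val] at h5
      exact h5.symm

theorem sz_trim_le (l : List Bool) : sz (trim l) ≤ sz l := by
  induction l with
  | nil => exact le_rfl
  | cons b l ih =>
    have h1 : trim (b :: l) = if b = false ∧ trim l = [] then [] else b :: trim l := rfl
    rw [h1]
    split_ifs
    · simp only [sz_nil, sz_cons]; omega
    · simp only [sz_cons]; omega

@[fun_prop]
theorem pt_listNilB {f : α → List β} (hf : PT f) : PT (fun a => decide (f a = [])) :=
  (PT.isNil hf).congr fun a => by cases f a <;> simp

@[fun_prop]
theorem pt_trim {f : α → List Bool} (hf : PT f) : PT (fun a => trim (f a)) := by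
  unfold trim
  refine PT.foldr (g := fun _ b s => if b = false ∧ s = [] then [] else b :: s) hf
    (PT.const []) ?_ hf.bdd ?_
  · have : PT (fun p : α × (Bool × List Bool) => decide (p.2.1 = false ∧ p.2.2 = [])) :=
      PT.decAnd (pt_boolEq PT.id.snd.fst (PT.const false)) (pt_listNilB PT.id.snd.snd)
    exact PT.iteProp this (PT.const []) (PT.cons PT.id.snd.fst PT.id.snd.snd)
  · intro a l' hl'
    exact (sz_trim_le l').trans (sz_sublist hl'.sublist)

@[fun_prop]
theorem pt_BN_mk_val {f : α → List Bool} (hf : PT f) : PT (fun a => BN.mk (val (f a))) := by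
  have h := pt_trim hf
  refine Comp.congr h (fun _ => rfl) fun a => ?_
  change toT (trim (f a)) = toT (val (f a)).bits
  rw [trim_eq]

@[fun_prop]
theorem pt_BN_add {f g : α → BN} (hf : PT f) (hg : PT g) :
    PT (fun a => (f a).add (g a)) :=
  (pt_BN_mk_val (pt_badd (pt_BN_bits hf) (pt_BN_bits hg))).congr fun a => by
    unfold BN.add
    rw [val_badd, val_bits, val_bits]

end Pool.Agent.Lib.MP_5dd24d_lc
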