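import Mathlib.Computability.TuringMachine.Computable
import Mathlib.Computability.Partrec
import Mathlib.Data.Nat.Bits
import Mathlib.Data.Finset.Lattice.Fold

/-!
# Single-machine makespan with forbidden start and completion times: definitions
-/

namespace Pool.Agent.Lib.MP_5dd24d_lc

open Turing

/-- An instance: a list of positive processing times (one entry for each job) and a list of
different forbidden instants. -/
structure Instance where
  /-- the processing times -/
  times : List ℕ
  /-- processing times are positive -/
  times_pos : ∀ t ∈ times, 0 < t
  /-- the forbidden instants -/
  forbidden : List ℕ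
  /-- every forbidden instant is listed once -/
  forbidden_nodup : forbidden.Nodup

namespace Instance

/-- The number of jobs. -/
def n (I : Instance) : ℕ := I.times.length

/-- The processing time of a job. -/
def p (I : Instance) (j : Fin I.n) : ℕ := I.times[j]

/-- The parameter `τ`: the number of forbidden instants. -/
def tau (I : Instance) : ℕ := I.forbidden.length

/-- The start times `S` give a feasible schedule: no job starts or ends at a forbidden instant,
and no two jobs overlap. -/
def Feasible (I : Instance) (S : Fin I.n → ℕ) : Prop :=
  (∀ j, S j ∉ I.forbidden ∧ S j + I.p j ∉ I.forbidden) ∧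
    ∀ i j, i ≠ j → S i + I.p i ≤ S j ∨ S j + I.p j ≤ S i

/-- The makespan: the largest completion time. -/
def makespan (I : Instance) (S : Fin I.n → ℕ) : ℕ := Finset.univ.sup fun j => S j + I.p j

/-- `S` is a feasible schedule of minimum makespan. -/
def Optimal (I : Instance) (S : Fin I.n → ℕ) : Prop :=
  I.Feasible S ∧ ∀ S', I.Feasible S' → I.makespan S ≤ I.makespan S'

end Instance

/-- Self-delimiting binary code of a number: every binary digit is preceded by `1`, and `0` is
put at the end. -/
def encNat (m : ℕ) : List Bool := (m.bits.flatMap fun b => [true, b]) ++ [false]

/-- Code of a list of numbers: `1` before the code of every entry, `0` at the end. -/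
def encList (l : List ℕ) : List Bool := (l.flatMap fun m => true :: encNat m) ++ [false]

/-- The code of an instance. -/
def Instance.encode (I : Instance) : List Bool := encList I.times ++ encList I.forbidden

/-- A search problem (instances `x` with code `enc x` and parameter `param x`; `Sol x y` says that
the bit string `y` is an acceptable answer) is fixed-parameter tractable: some deterministic
machine (Mathlib's `FinTM2`, with finite stack alphabets) gives an acceptable answer for every
instance `x` within `f (param x) * |enc x| ^ c` steps, for a computable function `f` and a
constant `c`. -/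
def FixedParameterTractable {X : Type} (enc : X → List Bool) (param : X → ℕ)
    (Sol : X → List Bool → Prop) : Prop :=
  ∃ (M : FinTM2) (a : M.Γ M.k₀ ≃ Bool) (b : M.Γ M.k₁ ≃ Bool) (f : ℕ → ℕ) (c : ℕ),
    (∀ k, Finite (M.Γ k)) ∧ Computable f ∧ ∀ x, ∃ y, Sol x y ∧
      Nonempty (TM2OutputsInTime M ((enc x).map a.symm) (some (y.map b.symm))
        (f (param x) * (enc x).length ^ c))

/-- The acceptable answers: codes of the lists of start times of optimal schedules. -/
def Instance.Sol (I : Instance) (y : List Bool) : Prop :=
  ∃ S : Fin I.n → ℕ, I.Optimal S ∧ y = encList (List.ofFn S)

end Pool.Agent.Lib.MP_5dd24d_lc
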