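import Pool.Agent.Lib.MP_5dd24d_lc.Correct

/-!
# The algorithm solves the problem
-/

namespace Pool.Agent.Lib.MP_5dd24d_lc

open List

theorem map_fst_zipIdx_bns (P : List ℕ) : szs (bns P).zipIdx = P := by
  unfold szs
  have : (bns P).zipIdx.map (fun j => j.1.n) =
    ((bns P).zipIdx.map Prod.fst).map BN.n := by rw [map_map]; rfl
  rw [this, zipIdx_map_fst]
  unfold bns
  rw [map_map]
  exact map_id P

theorem fin_start_eq (P : List ℕ) (m h w : ℕ) : fin (start (bns P) m h w) = P.sum + w := by
  have h1 := start_perm (bns P) m h w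
  have h2 : (szs ((start (bns P) m h w).2.1 ++ (start (bns P) m h w).2.2.1.flatten)).Perm
      (szs (bns P).zipIdx) := h1.map _
  rw [map_fst_zipIdx_bns] at h2
  have h3 := h2.sum_eq
  have h4 : ∀ l : List Item, tot l = (szs l).sum := fun l => rfl
  have h5 : ∀ E : List (List Item), (E.map tot).sum = tot E.flatten := by
    intro E
    induction E with
    | nil => rfl
    | cons R E ih => simp [ih]
  unfold fin
  rw [h5, ← h3, szs_append, sum_append, h4, h4]
  change 0 + _ = _
  have h6 : (start (bns P) m h w).2.2.2 = w := rfl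
  rw [h6]
  omega

theorem initial_inv (P : List ℕ) (F : List BN) (m h w : ℕ) :
    Inv F (fun i => P.getD i 0) (List.range P.length) (start (bns P) m h w) [] := by
  have h1 := start_perm (bns P) m h w
  have hmem : ∀ j : Item, j ∈ (bns P).zipIdx → j.1.n = P.getD j.2 0 := by
    intro j hj
    have h3 := mem_zipIdx' (x := j.1) (i := j.2) hj
    obtain ⟨h4, h5⟩ := h3
    rw [h5]
    have h6 : j.2 < P.length := by simpa [bns] using h4
    rw [List.getD_eq_getElem?_getD, List.getElem?_eq_getElem h6, Option.getD_some]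
    simp [bns]
  refine ⟨?_, fun j hj => hmem j (h1.mem_iff.1 (mem_append_left _ hj)),
    fun R hR j hj => hmem j (h1.mem_iff.1 (mem_append_right _ (mem_flatten.2 ⟨R, hR, hj⟩))),
    by simp, by simp, by simp⟩
  have h2 := h1.map Prod.snd
  rw [map_append, zipIdx_map_snd] at h2
  simp only [map_nil, nil_append]
  refine h2.trans ?_
  rw [range_eq_range']
  simp [bns]

theorem solve_spec (I : Instance) {W h D : ℕ} (hW : Wv I.tau ≤ W)
    (hh : hExc I.tau (2 * I.tau + W) + 1 ≤ h)
    (hD : (h + 1) ^ (2 * I.tau + 1) * (W + 1) ≤ D) :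
    ∃ S : Fin I.n → ℕ, I.Optimal S ∧
      solve (bns I.times) (bns I.forbidden) W h D = bns (List.ofFn S) := by
  classical
  set P := I.times with hP
  set F := I.forbidden with hF
  have hFl : (bns F).length = F.length := by simp [bns]
  have htau : I.tau = F.length := rfl
  rw [htau] at hW hh hD
  have hsmall : ∀ w ≤ W, Small (2 * F.length + 1) h W (start (bns P) (2 * F.length + 1) h w) := by
    intro w hw
    obtain ⟨h1, h2, h3⟩ := start_small (bns P) (2 * F.length + 1) h w
    exact ⟨h1, h2, h3.trans hw⟩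
  have hgood : ∀ w ≤ W, (good D (bns F) (start (bns P) (2 * F.length + 1) h w) = true ↔
      Fin' (bns F) (start (bns P) (2 * F.length + 1) h w)) := fun w hw =>
    good_iff (hsmall w hw) hD
  -- some amount of idle time suffices
  have hex : ∃ w ≤ W, good D (bns F) (start (bns P) (2 * F.length + 1) h w) = true := by
    obtain ⟨s, l, h1, h2, h3, h4⟩ := exists_small_idle F.toFinset (toFinset_card_le F) P
      I.times_pos
    have h5 : s + idle l ≤ W := h4.trans hW
    exact ⟨s + idle l, h5, (hgood _ h5).2 (fin_start P F hh l s h1 h3 (by rw [h2])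
      (by omega))⟩
  obtain ⟨w₀, hbest, hw₀, hg₀, hmin⟩ : ∃ w₀, best (bns P) (bns F) W h D = w₀ ∧ w₀ ≤ W ∧
      good D (bns F) (start (bns P) (2 * F.length + 1) h w₀) = true ∧
      ∀ w < w₀, ¬ good D (bns F) (start (bns P) (2 * F.length + 1) h w) = true := by
    have hsome : ((List.range (W + 1)).find? fun w =>
        good D (bns F) (start (bns P) (2 * (bns F).length + 1) h w)).isSome = true := by
      rw [find?_isSome]
      obtain ⟨w, hw, hg⟩ := hex
      refine ⟨w, by rw [mem_range]; omega, ?_⟩
      simp only [hFl]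
      exact hg
    obtain ⟨w₀, h0⟩ := Option.isSome_iff_exists.1 hsome
    refine ⟨w₀, by unfold best; rw [h0]; rfl, ?_⟩
    rw [find?_range_eq_some] at h0
    simp only [hFl] at h0
    refine ⟨?_, h0.1, fun w hw => by simpa using h0.2.2 w hw⟩
    have := mem_range.1 h0.2.1
    omega
  set s₀ := start (bns P) (2 * F.length + 1) h w₀ with hs₀
  obtain ⟨i1, i2, i3, i4, i5⟩ := ext_iter (out := []) (hsmall w₀ hw₀) hD
    ((hgood w₀ hw₀).1 hg₀) (initial_inv P (bns F) _ h w₀) (rem s₀) le_rfl
  have hplan : plan (bns P) (bns F) W h D = ((ext D (bns F))^[rem s₀] (s₀, [])).2 := by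
    unfold plan
    rw [hbest, hFl]
  set c := (ext D (bns F))^[rem s₀] (s₀, []) with hc
  set p : ℕ → ℕ := fun i => P.getD i 0 with hp
  rw [← hs₀] at i3 i4 i5
  have hrem : rem c.1 = 0 := by omega
  have hM : c.1.2.1 = [] := by
    apply length_eq_zero_iff.1
    unfold rem at hrem
    omega
  have hE : c.1.2.2.1.flatten = [] := by
    apply length_eq_zero_iff.1
    rw [length_flatten]
    unfold rem at hrem
    omega
  have hids : (c.2.map Prod.fst).Perm (List.range P.length) := by
    have := i1.perm
    rw [hM, hE] at this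
    simpa using this
  have hx : c.1.1.n = P.sum + w₀ := by
    have h1 : fin c.1 = c.1.1.n := by
      have h2 : ∀ E : List (List Item), E.flatten = [] → (E.map tot).sum = 0 := by
        intro E hE
        refine sum_eq_zero fun x hx => ?_
        obtain ⟨R, hR, rfl⟩ := mem_map.1 hx
        rw [(flatten_eq_nil_iff.1 hE) R hR]
        rfl
      have h3 : c.1.2.2.2 = 0 := by unfold rem at hrem; omega
      unfold fin
      rw [hM, h2 _ hE, h3]
      simp
    rw [← h1, i5, hs₀, fin_start_eq]
  -- the start times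
  have hlook : ∀ j : Fin I.n, ∃ q ∈ c.2, q.1 = j.1 ∧
      ((c.2.find? fun q => q.1 = j.1).map Prod.snd).getD ⟨0⟩ = q.2 := by
    intro j
    have h1 : j.1 ∈ c.2.map Prod.fst := hids.mem_iff.2 (mem_range.2 j.2)
    obtain ⟨q, hq, hqj⟩ := mem_map.1 h1
    have h2 : (c.2.find? fun q => decide (q.1 = j.1)).isSome = true := by
      rw [find?_isSome]
      exact ⟨q, hq, by simpa using hqj⟩
    obtain ⟨r, hr⟩ := Option.isSome_iff_exists.1 h2
    refine ⟨r, mem_of_find?_eq_some hr, ?_, ?_⟩
    · have := find?_some (p := fun q : ℕ × BN => decide (q.1 = j.1)) hr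
      simpa using this
    · rw [hr]; rfl
  choose q hq hq1 hq2 using hlook
  have hpj : ∀ j : Fin I.n, p (q j).1 = I.p j := by
    intro j
    rw [hq1 j]
    simp only [hp]
    have h6 : j.1 < P.length := j.2
    rw [List.getD_eq_getElem?_getD, List.getElem?_eq_getElem h6, Option.getD_some]
    rfl
  refine ⟨fun j => (q j).2.n, ⟨⟨?_, ?_⟩, ?_⟩, ?_⟩
  · intro j
    obtain ⟨h1, h2⟩ := i1.free (q j) (hq j)
    rw [hpj] at h2
    exact ⟨fun h => h1 (mem_bns.2 h), fun h => h2 (mem_bns.2 h)⟩
  · intro i j hij
    have hne : q i ≠ q j := by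
      intro h
      apply hij
      apply Fin.ext
      rw [← hq1 i, ← hq1 j, h]
    have hsym : c.2.Pairwise (fun a b => b.2.n + p b.1 ≤ a.2.n ∨ a.2.n + p a.1 ≤ b.2.n) :=
      i1.order.imp fun {a b} h => Or.inl h
    have : Std.Symm (fun a b : ℕ × BN => b.2.n + p b.1 ≤ a.2.n ∨ a.2.n + p a.1 ≤ b.2.n) :=
      ⟨fun a b h => h.symm⟩
    have := hsym.forall (hq i) (hq j) hne
    rw [hpj, hpj] at this
    exact this.symm
  · intro S' hS'
    have hle : I.makespan (fun j => (q j).2.n) ≤ P.sum + w₀ := by
      unfold Instance.makespan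
      refine Finset.sup_le fun j _ => ?_
      have := i1.bound (q j) (hq j)
      rw [hpj] at this
      change (q j).2.n + I.p j ≤ _
      omega
    by_cases hn : I.times = []
    · unfold Instance.makespan
      refine Finset.sup_le fun j _ => ?_
      have : I.n = 0 := by unfold Instance.n; rw [hn]; rfl
      exact absurd j.2 (by omega)
    · obtain ⟨s, l, g1, g2, g3, g4⟩ := exists_word I S' hS' hn
      have g5 : len Prod.snd l = P.sum + idle l := by rw [len_snd, g2.sum_eq]
      by_cases hw : s + idle l ≤ W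
      · have g6 := (hgood _ hw).2 (fin_start P F hh l s g1 g3 g2 (by omega))
        have g7 : w₀ ≤ s + idle l := by
          by_contra hlt
          exact hmin _ (by omega) g6
        omega
      · omega
  · unfold solve
    rw [hplan]
    unfold bns
    rw [length_map, map_ofFn]
    refine ext_getElem (by simp [Instance.n, hP]) fun i h1 h2 => ?_
    simp only [length_ofFn] at h2
    rw [getElem_map, List.getElem_ofFn, getElem_range]
    exact hq2 ⟨i, h2⟩

end Pool.Agent.Lib.MP_5dd24d_lc
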