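import Pool.Agent.Lib.MP_5dd24d_lc.AlgoPT
import Pool.Agent.Lib.MP_5dd24d_lc.Solve
import Pool.Agent.Lib.MP_5dd24d_lc.Defs

/-!
# Reading and writing codes
-/

namespace Pool.Agent.Lib.MP_5dd24d_lc

open Pool.Agent.PolyTime Function Pool.Agent.Lib.MP_7fc3ed_lc

variable {α β γ δ σ : Type*} [Rep α] [Rep β] [Rep γ] [Rep δ] [Rep σ]

/-- The state of the reader: the mode, the current number, the current list, the lists read. -/
abbrev DS : Type := ℕ × (List Bool × (List (List Bool) × List (List (List Bool))))

/-- Read one symbol. -/
def dstep (s : DS) (b : Bool) : DS :=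
  if s.1 = 0 then
    (if b = true then (1, ([], (s.2.2.1, s.2.2.2))) else (0, ([], ([], s.2.2.1 :: s.2.2.2))))
  else if s.1 = 1 then
    (if b = true then (2, (s.2.1, (s.2.2.1, s.2.2.2)))
      else (0, ([], (s.2.1 :: s.2.2.1, s.2.2.2))))
  else (1, (b :: s.2.1, (s.2.2.1, s.2.2.2)))

theorem sz_dstep (s : DS) (b : Bool) : sz (dstep s b) ≤ sz s + 4 := by
  obtain ⟨m, c, A, L⟩ := s
  unfold dstep
  have h1 := sz_pos c
  have h2 := sz_pos A
  have h3 := sz_bool b
  split_ifs <;> simp only [sz_pair, sz_nat, sz_cons, sz_nil] <;> omega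

theorem sz_dfold (l : List Bool) : ∀ s : DS, sz (l.foldl dstep s) ≤ sz s + 4 * l.length := by
  induction l with
  | nil => intro s; simp
  | cons b l ih =>
    intro s
    have h1 := ih (dstep s b)
    have h2 := sz_dstep s b
    simp only [List.foldl_cons, List.length_cons]
    omega

theorem pt_dstep {s : α → DS} {b : α → Bool} (hs : PT s) (hb : PT b) :
    PT (fun a => dstep (s a) (b a)) := by
  have h0 : PT (fun a => (s a).1) := hs.fst
  have h1 : PT (fun a => (s a).2.1) := hs.snd.fst
  have h2 : PT (fun a => (s a).2.2.1) := hs.snd.snd.fst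
  have h3 : PT (fun a => (s a).2.2.2) := hs.snd.snd.snd
  unfold dstep
  exact PT.iteProp (PT.isZero h0)
    (PT.iteProp (pt_boolTrue hb)
      (PT.pair (PT.const 1) (PT.pair (PT.const []) (PT.pair h2 h3)))
      (PT.pair (PT.const 0) (PT.pair (PT.const []) (PT.pair (PT.const []) (PT.cons h2 h3)))))
    (PT.iteProp (PT.natEq h0 (PT.const 1))
      (PT.iteProp (pt_boolTrue hb)
        (PT.pair (PT.const 2) (PT.pair h1 (PT.pair h2 h3)))
        (PT.pair (PT.const 0) (PT.pair (PT.const []) (PT.pair (PT.cons h1 h2) h3))))
      (PT.pair (PT.const 1) (PT.pair (PT.cons hb h1) (PT.pair h2 h3))))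

/-- Read a code. -/
def dec (x : List Bool) : DS := x.foldl dstep (0, ([], ([], [])))

theorem pt_dec {x : α → List Bool} (hx : PT x) : PT (fun a => dec (x a)) := by
  refine PT.foldl (g := fun _ s b => dstep s b) (f := fun _ => (0, ([], ([], [])))) hx
    (PT.const _) (pt_dstep PT.id.snd.fst PT.id.snd.snd)
    (B := fun a => sz ((0, ([], ([], []))) : DS) + 4 * sz (x a)) ?_ ?_
  · exact (Bdd.const _).add ((Bdd.const 4).mul hx.bdd)
  · intro a l' hl'
    have h1 := sz_dfold l' (0, ([], ([], [])))
    have h2 := length_le_sz l'
    have h3 := sz_sublist hl'.sublist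
    refine h1.trans ?_
    omega

/-- A list of numbers in binary from its code. -/
def toBNs (l : List (List Bool)) : List BN := l.reverse.map fun w => BN.mk (val w.reverse)

theorem pt_toBNs {l : α → List (List Bool)} (hl : PT l) : PT (fun a => toBNs (l a)) := by
  have h1 : PT (fun p : α × List Bool => BN.mk (val p.2.reverse)) :=
    pt_BN_mk_val (PT.reverse PT.id.snd)
  exact PT.map (g := fun _ (w : List Bool) => BN.mk (val w.reverse)) hl.reverse h1

/-- The processing times. -/
def decP (x : List Bool) : List BN := toBNs ((dec x).2.2.2.getD 1 [])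

/-- The forbidden instants. -/
def decF (x : List Bool) : List BN := toBNs ((dec x).2.2.2.getD 0 [])

theorem pt_decP {x : α → List Bool} (hx : PT x) : PT (fun a => decP (x a)) :=
  pt_toBNs (PT.listGetD (pt_dec hx).snd.snd.snd (PT.const 1) (PT.const []))

theorem pt_decF {x : α → List Bool} (hx : PT x) : PT (fun a => decF (x a)) :=
  pt_toBNs (PT.listGetD (pt_dec hx).snd.snd.snd (PT.const 0) (PT.const []))

theorem foldl_bits (w c : List Bool) (A : List (List Bool)) (L : List (List (List Bool))) :
    (w.flatMap fun b => [true, b]).foldl dstep (1, (c, (A, L))) = (1, (w.reverse ++ c, (A, L))) := by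
  induction w generalizing c with
  | nil => rfl
  | cons b w ih =>
    have h1 : ((b :: w).flatMap fun b => [true, b]).foldl dstep (1, (c, (A, L))) =
        (w.flatMap fun b => [true, b]).foldl dstep (1, (b :: c, (A, L))) := rfl
    rw [h1, ih]
    simp

theorem foldl_encNat (m : ℕ) (A : List (List Bool)) (L : List (List (List Bool))) :
    (true :: encNat m).foldl dstep (0, ([], (A, L))) = (0, ([], (m.bits.reverse :: A, L))) := by
  unfold encNat
  rw [List.foldl_cons, List.foldl_append]
  have h1 : dstep (0, ([], (A, L))) true = (1, ([], (A, L))) := rfl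
  rw [h1, foldl_bits, List.append_nil]
  rfl

theorem foldl_nums (l : List ℕ) (A : List (List Bool)) (L : List (List (List Bool))) :
    (l.flatMap fun m => true :: encNat m).foldl dstep (0, ([], (A, L))) =
      (0, ([], ((l.map fun m => m.bits.reverse).reverse ++ A, L))) := by
  induction l generalizing A with
  | nil => rfl
  | cons m l ih =>
    rw [List.flatMap_cons, List.foldl_append, foldl_encNat, ih]
    simp

theorem foldl_encList (l : List ℕ) (L : List (List (List Bool))) :
    (encList l).foldl dstep (0, ([], ([], L))) =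
      (0, ([], ([], (l.map fun m => m.bits.reverse).reverse :: L))) := by
  unfold encList
  rw [List.foldl_append, foldl_nums, List.append_nil]
  rfl

theorem dec_encode (I : Instance) : dec I.encode = (0, ([], ([],
    [(I.forbidden.map fun m => m.bits.reverse).reverse,
      (I.times.map fun m => m.bits.reverse).reverse]))) := by
  unfold dec Instance.encode
  rw [List.foldl_append, foldl_encList, foldl_encList]

theorem toBNs_eq (l : List ℕ) : toBNs (l.map fun m => m.bits.reverse).reverse = bns l := by
  unfold toBNs bns
  rw [List.reverse_reverse, List.map_map]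
  refine List.map_congr_left fun m _ => ?_
  simp only [Function.comp_apply, List.reverse_reverse, val_bits]

theorem decP_encode (I : Instance) : decP I.encode = bns I.times := by
  unfold decP
  rw [dec_encode]
  exact toBNs_eq I.times

theorem decF_encode (I : Instance) : decF I.encode = bns I.forbidden := by
  unfold decF
  rw [dec_encode]
  exact toBNs_eq I.forbidden

/-- The code of a list of numbers in binary. -/
def outBN (l : List BN) : List Bool :=
  (l.flatMap fun x => true :: ((x.n.bits.flatMap fun b => [true, b]) ++ [false])) ++ [false]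

theorem outBN_bns (l : List ℕ) : outBN (bns l) = encList l := by
  unfold outBN bns encList encNat
  rw [List.flatMap_map]

theorem pt_outBN {l : α → List BN} (hl : PT l) : PT (fun a => outBN (l a)) := by
  have h1 : PT (fun p : α × BN => p.2.n.bits) := pt_BN_bits PT.id.snd
  have h2 : PT (fun p : α × BN => p.2.n.bits.flatMap fun b => [true, b]) :=
    PT.flatMap (g := fun _ b => [true, b]) h1
      (PT.cons (PT.const true) (PT.cons PT.id.snd (PT.const [])))
  have h3 : PT (fun p : α × BN => true :: ((p.2.n.bits.flatMap fun b => [true, b]) ++ [false])) :=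
    PT.cons (PT.const true) (PT.append h2 (PT.const [false]))
  exact PT.append (PT.flatMap (g := fun _ (x : BN) =>
    true :: ((x.n.bits.flatMap fun b => [true, b]) ++ [false])) hl h3) (PT.const [false])

end Pool.Agent.Lib.MP_5dd24d_lc
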