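import Pool.Agent.Lib.MP_5dd24d_lc.Normal
import Pool.Agent.Lib.MP_5dd24d_lc.Defs

/-!
# From schedules to words
-/

namespace Pool.Agent.Lib.MP_5dd24d_lc

open List

/-- The word of a list of pairs (start, length), ordered by start. -/
def toWord : ℕ → List (ℕ × ℕ) → List Letter
  | _, [] => []
  | x, q :: l => (if x < q.1 then [(false, q.1 - x)] else []) ++
      (true, q.2) :: toWord (q.1 + q.2) l

theorem toWord_props (F : Finset ℕ) (C : ℕ) : ∀ (l : List (ℕ × ℕ)) (x : ℕ), x ∉ F → x ≤ C →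
    (∀ q ∈ l, x ≤ q.1 ∧ q.1 ∉ F ∧ q.1 + q.2 ∉ F ∧ q.1 + q.2 ≤ C ∧ 0 < q.2) →
    l.Pairwise (fun a b => a.1 + a.2 ≤ b.1) →
    Ok F Prod.snd x (toWord x l) ∧ jobs (toWord x l) = l.map Prod.snd ∧
      (∀ a ∈ toWord x l, 0 < a.2) ∧ x + len Prod.snd (toWord x l) ≤ C
  | [], x, hx, hxC, _, _ => ⟨hx, rfl, by simp [toWord], by simpa [toWord] using hxC⟩
  | q :: l, x, hx, hxC, h, hp => by
    obtain ⟨h1, h2, h3, h4, h5⟩ := h q (by simp)
    rw [pairwise_cons] at hp
    obtain ⟨g1, g2, g3, g4⟩ := toWord_props F C l (q.1 + q.2) h3 h4 (fun r hr =>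
      ⟨hp.1 r hr, (h r (by simp [hr])).2⟩) hp.2
    unfold toWord
    split_ifs with hlt
    · refine ⟨?_, by simp [g2], ?_, ?_⟩
      · simp only [cons_append, nil_append, Ok]
        have e : x + (q.1 - x) = q.1 := by omega
        rw [e]
        exact ⟨hx, h2, g1⟩
      · intro a ha
        simp only [cons_append, nil_append, mem_cons] at ha
        rcases ha with rfl | rfl | ha
        · simp only; omega
        · exact h5
        · exact g3 a ha
      · simp only [cons_append, nil_append, len_cons]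
        omega
    · have e : x = q.1 := by omega
      refine ⟨?_, by simp [g2], ?_, ?_⟩
      · simp only [nil_append, Ok]
        rw [e]
        exact ⟨h2, g1⟩
      · intro a ha
        simp only [nil_append, mem_cons] at ha
        rcases ha with rfl | ha
        · exact h5
        · exact g3 a ha
      · simp only [nil_append, len_cons]
        omega

/-- Every feasible schedule gives a feasible word. -/
theorem exists_word (I : Instance) (S : Fin I.n → ℕ) (hS : I.Feasible S) (hn : I.times ≠ []) :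
    ∃ (s : ℕ) (l : List Letter), Ok I.forbidden.toFinset Prod.snd s l ∧
      (jobs l).Perm I.times ∧ (∀ a ∈ l, 0 < a.2) ∧
      s + len Prod.snd l ≤ I.makespan S := by
  classical
  let l₀ : List (ℕ × ℕ) := (List.finRange I.n).map fun j => (S j, I.p j)
  let l₁ := l₀.mergeSort (fun a b => decide (a.1 ≤ b.1))
  have hperm : l₁.Perm l₀ := mergeSort_perm _ _
  have hsorted : l₁.Pairwise (fun a b => a.1 ≤ b.1) := by
    have := pairwise_mergeSort (le := fun a b : ℕ × ℕ => decide (a.1 ≤ b.1))
      (fun a b c h1 h2 => by simp only [decide_eq_true_eq] at *; omega)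
      (fun a b => by simp only [Bool.or_eq_true, decide_eq_true_eq]; omega) l₀
    simpa using this
  have hR0 : l₀.Pairwise (fun a b => a.1 + a.2 ≤ b.1 ∨ b.1 + b.2 ≤ a.1) := by
    rw [pairwise_map]
    refine (nodup_finRange I.n).imp fun {i j} hij => hS.2 i j hij
  have hR1 : l₁.Pairwise (fun a b => a.1 + a.2 ≤ b.1 ∨ b.1 + b.2 ≤ a.1) :=
    (hperm.pairwise_iff (fun {a b} h => h.symm)).2 hR0
  have hmem : ∀ q ∈ l₁, q.1 ∉ I.forbidden.toFinset ∧ q.1 + q.2 ∉ I.forbidden.toFinset ∧
      q.1 + q.2 ≤ I.makespan S ∧ 0 < q.2 := by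
    intro q hq
    obtain ⟨j, _, rfl⟩ := mem_map.1 (hperm.mem_iff.1 hq)
    rw [mem_toFinset, mem_toFinset]
    exact ⟨(hS.1 j).1, (hS.1 j).2, Finset.le_sup (f := fun j => S j + I.p j)
      (Finset.mem_univ j), I.times_pos _ (getElem_mem _)⟩
  have hR : l₁.Pairwise (fun a b => a.1 + a.2 ≤ b.1) := by
    refine (hsorted.and hR1).imp_of_mem fun {a b} ha hb hab => ?_
    have := (hmem b hb).2.2.2
    rcases hab.2 with h | h
    · exact h
    · omega
  have hjobs : (l₀.map Prod.snd) = I.times := by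
    simp only [l₀, map_map]
    refine ext_getElem (by simp [Instance.n]) fun i h1 h2 => ?_
    simp [Instance.p]
  have hlen : l₀.length = I.n := by simp [l₀]
  have hne : l₁ ≠ [] := by
    intro h
    have h1 := hperm.length_eq
    rw [h, hlen] at h1
    exact hn (length_eq_zero_iff.1 h1.symm)
  obtain ⟨q, l, hql⟩ := exists_cons_of_ne_nil hne
  have hq : q ∈ l₁ := by rw [hql]; simp
  obtain ⟨h1, h2, h3, h4⟩ := hmem q hq
  rw [hql, pairwise_cons] at hR
  have hprops := toWord_props I.forbidden.toFinset (I.makespan S) l₁ q.1 h1 (by omega) (by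
    intro r hr
    refine ⟨?_, hmem r hr⟩
    rw [hql] at hr
    rcases mem_cons.1 hr with rfl | hr
    · exact le_rfl
    · have := hR.1 r hr; omega) (by rw [hql, pairwise_cons]; exact hR)
  refine ⟨q.1, toWord q.1 l₁, hprops.1, ?_, hprops.2.2.1, hprops.2.2.2⟩
  rw [hprops.2.1, ← hjobs]
  exact hperm.map _

end Pool.Agent.Lib.MP_5dd24d_lc
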