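import Pool.Agent.Lib.MP_5dd24d_lc.Algo
import Pool.Agent.Lib.MP_5dd24d_lc.Timeline

/-!
# Correctness of the algorithm
-/

namespace Pool.Agent.Lib.MP_5dd24d_lc

open List

/-- Everything can be finished from the state `s`. -/
def Fin' (F : List BN) (s : St) : Prop := ∃ t, Reach F (rem s) s t

theorem Fin'.of_next {F : List BN} {s : St} {q : Option ℕ × St} (hq : q ∈ nextL F s)
    (h : Fin' F q.2) : Fin' F s := by
  obtain ⟨t, ht⟩ := h
  have h1 := (next_props hq).2.1
  refine ⟨t, ?_⟩
  rw [← h1]
  exact ⟨q, hq, ht⟩

theorem Fin'.exists_next {F : List BN} {s : St} (h : Fin' F s) (hr : rem s ≠ 0) :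
    ∃ q ∈ nextL F s, Fin' F q.2 := by
  obtain ⟨t, ht⟩ := h
  obtain ⟨k, hk⟩ := Nat.exists_eq_succ_of_ne_zero hr
  rw [hk] at ht
  obtain ⟨q, hq, h1⟩ := ht
  have h2 := (next_props hq).2.1
  have h3 : k = rem q.2 := by omega
  rw [h3] at h1
  exact ⟨q, hq, t, h1⟩

theorem fin_idle {F : List BN} (x : ℕ) (M : List Item) (E : List (List Item)) (w : ℕ) :
    ∀ d : ℕ, Fin' F (⟨x + d⟩, (M, (E, w))) → Fin' F (⟨x⟩, (M, (E, d + w)))
  | 0, h => by simpa using h
  | d + 1, h => by
    refine Fin'.of_next (q := (none, (⟨x + 1⟩, (M, (E, d + w))))) ?_ ?_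
    · rw [mem_nextL]
      refine Or.inl ⟨by omega, ?_⟩
      have : d + 1 + w - 1 = d + w := by omega
      rw [this]
      rfl
    · refine fin_idle (x + 1) M E w d ?_
      have : x + 1 + d = x + (d + 1) := by omega
      rw [this]
      exact h

/-- The lengths of the jobs in a list. -/
def szs (l : List Item) : List ℕ := l.map fun j => j.1.n

/-- A feasible word whose jobs contain the main jobs in their order gives a way to finish. -/
theorem fin_of_word {F : List BN} (G : Finset ℕ) (hG : ∀ x, x ∈ G ↔ (⟨x⟩ : BN) ∈ F) :
    ∀ (l : List Letter) (x : ℕ) (M : List Item) (E : List (List Item)),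
      Ok G Prod.snd x l → (∀ R ∈ E, ∀ j ∈ R, ∀ j' ∈ R, j.1 = j'.1) →
      (szs M).Sublist (jobs l) →
      (∀ a, (jobs l).count a = (szs M).count a + (szs E.flatten).count a) →
      Fin' F (⟨x⟩, (M, (E, idle l)))
  | [], x, M, E, _, _, hM, hc => by
    have h1 : M = [] := by simpa [szs] using hM
    have h2 : E.flatten = [] := by
      cases h : E.flatten with
      | nil => rfl
      | cons j R =>
        have := hc j.1.n
        rw [h] at this
        simp [szs] at this
    subst h1
    have h3 : rem ((⟨x⟩ : BN), (([] : List Item), (E, idle []))) = 0 := by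
      have h4 : (E.map length).sum = 0 := by rw [← length_flatten, h2]; rfl
      simp [rem, h4]
    refine ⟨(⟨x⟩, ([], (E, idle []))), ?_⟩
    rw [h3]
    rfl
  | (false, d) :: l, x, M, E, hok, hE, hM, hc => by
    rw [idle_false]
    refine fin_idle x M E (idle l) d ?_
    refine fin_of_word G hG l (x + d) M E hok.2 hE ?_ ?_
    · simpa using hM
    · simpa using hc
  | (true, a) :: l, x, M, E, hok, hE, hM, hc => by
    rw [idle_true]
    have hx := hok.1
    have hxa := hok.2.start
    simp only at hxa
    have hcan : ∀ j : Item, j.1.n = a → can F ⟨x⟩ j = true := by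
      intro j hj
      have e : (⟨x⟩ : BN).add j.1 = ⟨x + a⟩ := by rw [← hj]; rfl
      unfold can
      rw [e]
      rw [hG] at hx hxa
      simp [hx, hxa]
    rw [jobs_true] at hM hc
    rcases sublist_cons_iff.1 hM with hM' | ⟨r, hr, hr'⟩
    · -- an exceptional job
      have h1 : 0 < (szs E.flatten).count a := by
        have h2 := hc a
        rw [count_cons_self] at h2
        have h3 := hM'.count_le a
        omega
      have h2 : a ∈ szs E.flatten := count_pos_iff.1 h1
      obtain ⟨j, hj, hja⟩ := mem_map.1 h2
      obtain ⟨R, hR, hjR⟩ := mem_flatten.1 hj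
      obtain ⟨t, ht, rfl⟩ := mem_iff_getElem.1 hR
      obtain ⟨j₀, R', hR'⟩ := exists_cons_of_ne_nil (ne_nil_of_mem hjR)
      have hj₀ : j₀.1 = j.1 := hE _ hR j₀ (by rw [hR']; simp) j hjR
      have hj₀a : j₀.1.n = a := by rw [hj₀]; exact hja
      refine Fin'.of_next (q := (some j₀.2, (⟨x + a⟩, (M, (E.set t R', idle l))))) ?_ ?_
      · rw [mem_nextL]
        refine Or.inr (Or.inr ⟨t, j₀, R', ht, hR', hcan j₀ hj₀a, ?_⟩)
        rw [← hj₀a]; rfl
      · have hflat : ∀ b, (szs E.flatten).count b = (szs (E.set t R').flatten).count b +
            (if a = b then 1 else 0) := by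
          intro b
          have h5 := sum_map_set (fun R => (szs R).count b) E t ht R'
          have h6 : ∀ E' : List (List Item), (szs E'.flatten).count b =
              (E'.map fun R => (szs R).count b).sum := by
            intro E'
            induction E' with
            | nil => rfl
            | cons R E' ih =>
              simp only [flatten_cons, map_cons, sum_cons]
              rw [← ih]
              simp [szs]
          rw [h6, h6]
          simp only [hR'] at h5
          have h7 : (szs (j₀ :: R')).count b = (szs R').count b + (if a = b then 1 else 0) := by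
            unfold szs
            rw [map_cons, count_cons, hj₀a]
            simp [beq_iff_eq]
          omega
        refine fin_of_word G hG l (x + a) M (E.set t R') hok.2 ?_ hM' ?_
        · intro R hR j hj j' hj'
          rcases mem_or_eq_of_mem_set hR with h | h
          · exact hE R h j hj j' hj'
          · subst h
            exact hE _ (getElem_mem ht) j (by rw [hR']; simp [hj]) j' (by rw [hR']; simp [hj'])
        · intro b
          have h8 := hc b
          rw [hflat b, count_cons] at h8
          simp only [beq_iff_eq] at h8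
          omega
    · -- a main job
      obtain ⟨j, M', hM2, hja, hM3⟩ : ∃ j M', M = j :: M' ∧ j.1.n = a ∧ szs M' = r := by
        cases M with
        | nil => simp [szs] at hr
        | cons j M' =>
          simp only [szs, map_cons, cons.injEq] at hr
          exact ⟨j, M', rfl, hr.1, hr.2⟩
      subst hM2
      refine Fin'.of_next (q := (some j.2, (⟨x + a⟩, (M', (E, idle l))))) ?_ ?_
      · rw [mem_nextL]
        refine Or.inr (Or.inl ⟨j, M', rfl, hcan j hja, ?_⟩)
        rw [← hja]; rfl
      · refine fin_of_word G hG l (x + a) M' E hok.2 hE (by rw [hM3]; exact hr') fun b => ?_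
        have h8 := hc b
        have h9 : (szs (j :: M')).count b = (szs M').count b + (if a = b then 1 else 0) := by
          unfold szs
          rw [map_cons, count_cons, hja]
          simp [beq_iff_eq]
        rw [h9, count_cons] at h8
        simp only [beq_iff_eq] at h8
        omega

/-! ### Soundness -/

/-- The invariant of the reconstruction. -/
structure Inv (F : List BN) (p : ℕ → ℕ) (ids : List ℕ) (s : St) (out : List (ℕ × BN)) :
    Prop where
  perm : (out.map Prod.fst ++ (s.2.1.map Prod.snd ++ s.2.2.1.flatten.map Prod.snd)).Perm ids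
  main : ∀ j ∈ s.2.1, j.1.n = p j.2
  exc : ∀ R ∈ s.2.2.1, ∀ j ∈ R, j.1.n = p j.2
  free : ∀ q ∈ out, q.2 ∉ F ∧ (⟨q.2.n + p q.1⟩ : BN) ∉ F
  bound : ∀ q ∈ out, q.2.n + p q.1 ≤ s.1.n
  order : out.Pairwise fun a b => b.2.n + p b.1 ≤ a.2.n

/-- The list of started jobs after a step. -/
def outOf (s : St) (o : Option ℕ) (out : List (ℕ × BN)) : List (ℕ × BN) :=
  match o with
  | none => out
  | some i => (i, s.1) :: out

theorem flatten_set_perm {α : Type*} (E : List (List α)) (t : ℕ) (h : t < E.length) (a : α)
    (R : List α) (hE : E[t] = a :: R) : (a :: (E.set t R).flatten).Perm E.flatten := by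
  induction E generalizing t with
  | nil => simp at h
  | cons S E ih =>
    cases t with
    | zero =>
      simp only [getElem_cons_zero] at hE
      subst hE
      simp
    | succ t =>
      have := ih t (by simpa using h) (by simpa using hE)
      rw [set_cons_succ, flatten_cons, flatten_cons]
      exact (perm_middle.symm).trans (this.append_left S)

theorem Inv.next {F : List BN} {p : ℕ → ℕ} {ids : List ℕ} {s : St} {out : List (ℕ × BN)}
    (h : Inv F p ids s out) {q : Option ℕ × St} (hq : q ∈ nextL F s) :
    Inv F p ids q.2 (outOf s q.1 out) := by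
  obtain ⟨x, M, E, w⟩ := s
  have can_iff : ∀ j : Item, can F x j = true → x ∉ F ∧ x.add j.1 ∉ F := by
    intro j hj
    unfold can at hj
    simpa using hj
  rcases mem_nextL.1 hq with ⟨hw, rfl⟩ | ⟨j, M', rfl, hc, rfl⟩ | ⟨t, j, R, ht, he, hc, rfl⟩
  · exact ⟨h.perm, h.main, h.exc, h.free, fun q hq => (h.bound q hq).trans (by
      simp [BN.add]), h.order⟩
  · have hj : j.1.n = p j.2 := h.main j (by simp)
    obtain ⟨c1, c2⟩ := can_iff j hc
    refine ⟨?_, fun k hk => h.main k (by simp [hk]), h.exc, ?_, ?_, ?_⟩
    · refine Perm.trans ?_ h.perm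
      simp only [outOf, map_cons, cons_append]
      exact perm_middle.symm
    · intro q hq
      rcases mem_cons.1 hq with rfl | hq
      · refine ⟨c1, ?_⟩
        simp only
        rw [← hj]
        exact c2
      · exact h.free q hq
    · intro q hq
      rcases mem_cons.1 hq with rfl | hq
      · simp only [BN.add]; omega
      · have := h.bound q hq
        simp only [BN.add] at this ⊢
        omega
    · exact pairwise_cons.2 ⟨fun q hq => h.bound q hq, h.order⟩
  · have hj : j.1.n = p j.2 := h.exc _ (getElem_mem ht) j (by rw [he]; simp)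
    obtain ⟨c1, c2⟩ := can_iff j hc
    refine ⟨?_, h.main, ?_, ?_, ?_, ?_⟩
    · refine Perm.trans ?_ h.perm
      simp only [outOf, map_cons, cons_append]
      refine (perm_middle.symm).trans ?_
      refine Perm.append_left _ ?_
      refine (perm_middle.symm).trans ?_
      refine Perm.append_left _ ?_
      rw [← map_cons (f := Prod.snd)]
      exact (flatten_set_perm E t ht j R he).map _
    · intro R' hR' k hk
      rcases mem_or_eq_of_mem_set hR' with h1 | h1
      · exact h.exc R' h1 k hk
      · subst h1
        exact h.exc _ (getElem_mem ht) k (by rw [he]; simp [hk])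
    · intro q hq
      rcases mem_cons.1 hq with rfl | hq
      · refine ⟨c1, ?_⟩
        simp only
        rw [← hj]
        exact c2
      · exact h.free q hq
    · intro q hq
      rcases mem_cons.1 hq with rfl | hq
      · simp only [BN.add]; omega
      · have := h.bound q hq
        simp only [BN.add] at this ⊢
        omega
    · exact pairwise_cons.2 ⟨fun q hq => h.bound q hq, h.order⟩

theorem ext_iter {n h W D : ℕ} {F : List BN} {p : ℕ → ℕ} {ids : List ℕ} {s : St}
    {out : List (ℕ × BN)} (hs : Small n h W s) (hD : (h + 1) ^ n * (W + 1) ≤ D)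
    (hf : Fin' F s) (hi : Inv F p ids s out) : ∀ k ≤ rem s,
      Inv F p ids ((ext D F)^[k] (s, out)).1 ((ext D F)^[k] (s, out)).2 ∧
      Fin' F ((ext D F)^[k] (s, out)).1 ∧ Sub s ((ext D F)^[k] (s, out)).1 ∧
      rem ((ext D F)^[k] (s, out)).1 + k = rem s ∧
      fin ((ext D F)^[k] (s, out)).1 = fin s := by
  intro k
  induction k with
  | zero => intro _; exact ⟨hi, hf, Sub.refl s, rfl, rfl⟩
  | succ k ih =>
    intro hk
    obtain ⟨h1, h2, h3, h4, h5⟩ := ih (by omega)
    rw [Function.iterate_succ_apply']
    set c := (ext D F)^[k] (s, out)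
    obtain ⟨q, hq, hqf⟩ := h2.exists_next (by omega)
    have hsm := h3.small hs
    have hgood : ∀ r ∈ nextL F c.1, (good D F r.2 = true ↔ Fin' F r.2) := fun r hr =>
      good_iff ((next_props hr).1.small hsm) hD
    have hfind : ((nextL F c.1).find? fun q => good D F q.2).isSome = true := by
      rw [find?_isSome]
      exact ⟨q, hq, (hgood q hq).2 hqf⟩
    obtain ⟨r, hr⟩ := Option.isSome_iff_exists.1 hfind
    have hrm : r ∈ nextL F c.1 := mem_of_find?_eq_some hr
    have hrg : good D F r.2 = true := find?_some (p := fun q : Option ℕ × St => good D F q.2) hr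
    have hext : ext D F c = (r.2, outOf c.1 r.1 c.2) := by
      unfold ext
      rw [hr]
      rfl
    rw [hext]
    obtain ⟨g1, g2, g3⟩ := next_props hrm
    exact ⟨h1.next hrm, (hgood r hrm).1 hrg, h3.trans g1, by simp only; omega,
      g3.trans h5⟩

/-! ### The initial states -/

/-- The forbidden instants, in binary. -/
def bns (l : List ℕ) : List BN := l.map BN.mk

theorem mem_bns {l : List ℕ} {x : ℕ} : (⟨x⟩ : BN) ∈ bns l ↔ x ∈ l := by
  unfold bns
  rw [mem_map]
  constructor
  · rintro ⟨a, ha, h⟩
    cases h
    exact ha
  · intro h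
    exact ⟨x, h, rfl⟩

theorem BN.mk_injective : Function.Injective BN.mk := fun a b h => by cases h; rfl

theorem mem_group {P : List BN} {t : BN} {j : Item} (h : j ∈ group P t) :
    j.1 = t ∧ ∃ hj : j.2 < P.length, P[j.2] = j.1 := by
  unfold group at h
  rw [mem_filter] at h
  obtain ⟨h1, h2⟩ := h
  have h3 := mem_zipIdx' (x := j.1) (i := j.2) h1
  exact ⟨by simpa using h2, h3.1, h3.2.symm⟩

theorem szs_group_aux (t : ℕ) : ∀ (P : List ℕ) (k : ℕ),
    szs (((bns P).zipIdx k).filter fun j => j.1 = ⟨t⟩) = replicate (P.count t) t
  | [], k => rfl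
  | a :: P, k => by
    have ih := szs_group_aux t P (k + 1)
    by_cases h : a = t
    · subst h
      simp only [bns, map_cons, zipIdx_cons, decide_true, filter_cons_of_pos, count_cons_self,
        replicate_succ]
      simp only [szs, map_cons]
      rw [cons.injEq]
      exact ⟨rfl, ih⟩
    · have h' : ¬ ((⟨a⟩ : BN) = ⟨t⟩) := fun hh => h (BN.mk_injective hh)
      rw [count_cons_of_ne h]
      simp only [bns, map_cons, zipIdx_cons]
      rw [filter_cons_of_neg (by simpa using h')]
      exact ih

theorem szs_group (P : List ℕ) (t : ℕ) : szs (group (bns P) ⟨t⟩) = replicate (P.count t) t :=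
  szs_group_aux t P 0

theorem dedup_map_of_injective {α β : Type*} [DecidableEq α] [DecidableEq β] {f : α → β}
    (hf : Function.Injective f) (l : List α) : (l.map f).dedup = l.dedup.map f := by
  induction l with
  | nil => simp
  | cons a l ih =>
    by_cases h : a ∈ l
    · rw [map_cons, dedup_cons_of_mem h, dedup_cons_of_mem (mem_map_of_mem h), ih]
    · rw [map_cons, dedup_cons_of_notMem h, dedup_cons_of_notMem (by
        rw [mem_map]
        rintro ⟨b, hb, hab⟩
        exact h (by rw [← hf hab]; exact hb)), ih, map_cons]

theorem szs_append (l l' : List Item) : szs (l ++ l') = szs l ++ szs l' := by simp [szs]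

theorem szs_flatMap {α : Type*} (l : List α) (f : α → List Item) :
    szs (l.flatMap f) = l.flatMap fun a => szs (f a) := by
  unfold szs
  rw [map_flatMap]

theorem szs_main (P : List ℕ) (τ h w : ℕ) :
    szs (start (bns P) (2 * τ + 1) h w).2.1 = mainSizes τ h P.dedup P := by
  unfold start mainSizes
  simp only [szs_append, szs_flatMap]
  have hd : (bns P).dedup = bns P.dedup := dedup_map_of_injective BN.mk_injective P
  rw [hd]
  unfold bns
  rw [← map_take, ← map_drop, flatMap_map, flatMap_map]
  congr 1
  · refine flatMap_congr fun t _ => ?_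
    have h1 := szs_group P t
    unfold szs at h1 ⊢
    unfold bns at h1
    rw [map_drop, h1, drop_replicate]
  · refine flatMap_congr fun t _ => ?_
    exact szs_group P t

theorem start_perm_aux (P : List BN) (m h : ℕ) : ∀ ts : List BN, ts.Nodup →
    ((((ts.take m).flatMap fun t => (group P t).drop h) ++
    ((ts.drop m).flatMap fun t => group P t)) ++
      ((ts.take m).map fun t => (group P t).take h).flatten).Perm
        (ts.flatMap fun t => group P t) := by
  intro ts _
  have h1 : ∀ l : List BN, ((l.flatMap fun t => (group P t).drop h) ++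
      (l.map fun t => (group P t).take h).flatten).Perm (l.flatMap fun t => group P t) := by
    intro l
    induction l with
    | nil => simp
    | cons t l ih =>
      simp only [flatMap_cons, map_cons, flatten_cons]
      have e1 : ((group P t).drop h ++ (group P t).take h).Perm (group P t) := by
        refine perm_append_comm.trans ?_
        rw [take_append_drop]
      refine Perm.trans ?_ (e1.append ih)
      rw [append_assoc, append_assoc]
      refine Perm.append_left _ ?_
      rw [← append_assoc, ← append_assoc]
      exact (perm_append_comm).append_right _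
  have h2 : (ts.flatMap fun t => group P t) = ((ts.take m).flatMap fun t => group P t) ++
      ((ts.drop m).flatMap fun t => group P t) := by
    conv_lhs => rw [← take_append_drop m ts]
    rw [flatMap_append]
  rw [h2, append_assoc]
  refine (Perm.append_left _ perm_append_comm).trans ?_
  rw [← append_assoc]
  exact (h1 _).append_right _

theorem flatMap_group_perm (P : List BN) :
    (P.dedup.flatMap fun t => group P t).Perm P.zipIdx := by
  have key : ∀ (l : List Item) (ts : List BN), ts.Nodup → (∀ j ∈ l, j.1 ∈ ts) →
      (ts.flatMap fun t => l.filter fun j => j.1 = t).Perm l := by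
    intro l ts hts hl
    refine perm_iff_count.2 fun c => ?_
    rw [count_flatMap]
    have e1 : ts.map (count c ∘ fun t => l.filter fun j => j.1 = t) =
        ts.map (fun t => if c.1 = t then l.count c else 0) := by
      refine map_congr_left fun t _ => ?_
      simp only [Function.comp]
      split_ifs with h
      · rw [count_filter (by simpa using h)]
      · exact count_eq_zero.2 fun hc => h (by simpa using (mem_filter.1 hc).2)
    rw [e1]
    clear e1
    by_cases hc : c.1 ∈ ts
    · clear hl
      induction ts with
      | nil => simp at hc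
      | cons t ts ih =>
        rw [nodup_cons] at hts
        rw [map_cons, sum_cons]
        by_cases h1 : c.1 = t
        · have h2 : (ts.map fun t => if c.1 = t then l.count c else 0).sum = 0 := by
            refine sum_eq_zero fun x hx => ?_
            obtain ⟨t', ht', rfl⟩ := mem_map.1 hx
            rw [if_neg]
            rintro h3
            exact hts.1 (by rw [← h1, h3]; exact ht')
          rw [h2, if_pos h1, add_zero]
        · rw [if_neg h1, zero_add]
          exact ih hts.2 ((mem_cons.1 hc).resolve_left h1)
    · have h1 : l.count c = 0 := count_eq_zero.2 fun h => hc (hl c h)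
      rw [h1]
      refine sum_eq_zero fun x hx => ?_
      obtain ⟨t', _, rfl⟩ := mem_map.1 hx
      simp
  refine key P.zipIdx P.dedup (nodup_dedup P) fun j hj => ?_
  rw [mem_dedup]
  have h3 := mem_zipIdx' (x := j.1) (i := j.2) hj
  rw [h3.2]
  exact getElem_mem _

/-- All jobs are present in the initial state. -/
theorem start_perm (P : List BN) (m h w : ℕ) :
    ((start P m h w).2.1 ++ (start P m h w).2.2.1.flatten).Perm P.zipIdx :=
  (start_perm_aux P m h P.dedup (nodup_dedup P)).trans (flatMap_group_perm P)

theorem start_small (P : List BN) (m h w : ℕ) : Small m h w (start P m h w) := by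
  refine ⟨?_, ?_, le_rfl⟩
  · simp [start]
  · intro R hR
    simp only [start, mem_map] at hR
    obtain ⟨t, _, rfl⟩ := hR
    simp

/-- A feasible word gives a way to finish from the initial state. -/
theorem fin_start (P F : List ℕ) {W h : ℕ} (hh : hExc F.length (2 * F.length + W) + 1 ≤ h)
    (l : List Letter) (s : ℕ) (hok : Ok F.toFinset Prod.snd s l) (hpos : ∀ a ∈ l, 0 < a.2)
    (hjobs : (jobs l).Perm P) (hW : idle l ≤ W) :
    Fin' (bns F) (start (bns P) (2 * F.length + 1) h (s + idle l)) := by
  obtain ⟨l', h1, h2, h3, h4, h5⟩ := normal_form F.toFinset (toFinset_card_le F) P.dedup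
    (nodup_dedup P) hh l s hok hpos (fun a => by rw [mem_dedup]; exact hjobs.mem_iff) hW
  have hms : mainSizes F.length h P.dedup (jobs l) = mainSizes F.length h P.dedup P := by
    unfold mainSizes
    simp only [hjobs.count_eq]
  rw [hms] at h5
  have hG : ∀ x, x ∈ F.toFinset ↔ (⟨x⟩ : BN) ∈ bns F := fun x => by
    rw [mem_toFinset, mem_bns]
  have key := fin_of_word F.toFinset hG l' s (start (bns P) (2 * F.length + 1) h 0).2.1
    (start (bns P) (2 * F.length + 1) h 0).2.2.1 h4 (by
      intro R hR j hj j' hj'
      simp only [start, mem_map] at hR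
      obtain ⟨t, _, rfl⟩ := hR
      rw [(mem_group (mem_of_mem_take hj)).1, (mem_group (mem_of_mem_take hj')).1])
    (by rw [szs_main]; exact h5) (by
      intro a
      have e1 := (start_perm (bns P) (2 * F.length + 1) h 0)
      have e2 : (szs (bns P).zipIdx) = P := by
        unfold szs
        have : (bns P).zipIdx.map (fun j => j.1.n) =
          ((bns P).zipIdx.map Prod.fst).map BN.n := by rw [map_map]; rfl
        rw [this, zipIdx_map_fst]
        unfold bns
        rw [map_map]
        exact map_id P
      have e3 : (szs ((start (bns P) (2 * F.length + 1) h 0).2.1 ++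
          (start (bns P) (2 * F.length + 1) h 0).2.2.1.flatten)).Perm (szs (bns P).zipIdx) :=
        e1.map _
      rw [e2, szs_append] at e3
      have e4 := e3.count_eq a
      rw [count_append] at e4
      rw [e4, h1.count_eq, hjobs.count_eq])
  rw [h2] at key
  have := fin_idle 0 (start (bns P) (2 * F.length + 1) h 0).2.1
    (start (bns P) (2 * F.length + 1) h 0).2.2.1 (idle l) s (by rw [zero_add]; exact key)
  exact this

end Pool.Agent.Lib.MP_5dd24d_lc
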