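import Pool.Agent.Lib.MP_5dd24d_lc.Words

/-!
# Many different sizes: the grasshopper lemma and an insertion lemma
-/

namespace Pool.Agent.Lib.MP_5dd24d_lc

open List

variable {Λ : Type*} {F : Finset ℕ} {σ : Λ → ℕ}

/-- The number of forbidden numbers above `u`. -/
def above (F : Finset ℕ) (u : ℕ) : ℕ := (F.filter fun f => u < f).card

theorem above_le (F : Finset ℕ) (u : ℕ) : above F u ≤ F.card := Finset.card_filter_le _ _

theorem above_mono {u v : ℕ} (h : u ≤ v) : above F v ≤ above F u := by
  refine Finset.card_le_card fun f hf => ?_
  simp only [Finset.mem_filter] at hf ⊢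
  exact ⟨hf.1, by omega⟩

theorem above_lt {u v f : ℕ} (h : u < f) (h' : f ≤ v) (hf : f ∈ F) :
    above F v + 1 ≤ above F u := by
  rw [Nat.add_one_le_iff]
  refine Finset.card_lt_card ⟨fun g hg => ?_, fun hsub => ?_⟩
  · simp only [Finset.mem_filter] at hg ⊢
    exact ⟨hg.1, by omega⟩
  · have := hsub (show f ∈ F.filter (fun g => u < g) by simp [hf, h])
    simp only [Finset.mem_filter] at this
    omega

theorem above_lt2 {u v f g : ℕ} (h : u < f) (hfg : f < g) (h' : g ≤ v) (hf : f ∈ F)
    (hg : g ∈ F) : above F v + 2 ≤ above F u := by
  have h1 := above_lt (F := F) h le_rfl hf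
  have h2 := above_lt (F := F) hfg h' hg
  omega

/-- Nothing is forbidden above `u`. -/
theorem ok_of_above {u : ℕ} (hu : u ∉ F) (h : above F u = 0) (w : List Λ) : Ok F σ u w := by
  rw [ok_iff]
  intro k _ hk
  rcases Nat.eq_zero_or_pos (len σ (w.take k)) with h0 | h0
  · rw [h0] at hk; exact hu hk
  · have : 0 < above F u := Finset.card_pos.2 ⟨_, Finset.mem_filter.2 ⟨hk, by omega⟩⟩
    omega

variable [DecidableEq Λ]

/-- Few letters are bad. -/
theorem exists_good_letter (D : List Λ) (hD : (D.map σ).Nodup) (bad : Λ → ℕ → Prop)
    (G : Finset ℕ) (hbad : ∀ g ∈ G, ∀ d₁ ∈ D, ∀ d₂ ∈ D, bad d₁ g → bad d₂ g →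
      σ d₁ = σ d₂) (hG : G.card < D.length) : ∃ d ∈ D, ∀ g ∈ G, ¬ bad d g := by
  by_contra hcon
  push Not at hcon
  choose! g hg hb using hcon
  have hDn : D.Nodup := hD.of_map
  have hcard : G.card < D.toFinset.card := by rw [toFinset_card_of_nodup hDn]; exact hG
  obtain ⟨d, hd, d', hd', hne, heq⟩ := Finset.exists_ne_map_eq_of_card_lt_of_maps_to hcard
    (f := g) (by
      intro d hd
      exact hg d (by simpa using hd))
  rw [mem_toFinset] at hd hd'
  apply hne
  have := hbad (g d) (hg d hd) d hd d' hd' (hb d hd) (by rw [heq]; exact hb d' hd')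
  exact inj_on_of_nodup_map hD hd hd' this

theorem exists_max_letter (D : List Λ) (hD : D ≠ []) : ∃ a ∈ D, ∀ d ∈ D, σ d ≤ σ a := by
  obtain ⟨a, ha, h⟩ := Finset.exists_max_image D.toFinset σ (by
    obtain ⟨x, l, rfl⟩ := exists_cons_of_ne_nil hD
    exact ⟨x, by simp⟩)
  exact ⟨a, by simpa using ha, fun d hd => h d (by simpa using hd)⟩

/-- **The grasshopper lemma.** Letters of different sizes, more numerous than the forbidden
numbers above `u`, can be arranged without meeting a forbidden number. -/
theorem grasshopper : ∀ (n : ℕ) (F : Finset ℕ) (D : List Λ) (u : ℕ), D.length = n →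
    (D.map σ).Nodup → (∀ d ∈ D, 0 < σ d) → above F u < D.length → u ∉ F →
    u + len σ D ∉ F → ∃ s, s.Perm D ∧ Ok F σ u s := by
  intro n
  induction n using Nat.strong_induction_on with
  | _ n ih =>
    intro F D u hn hD hpos hcard hu hend
    by_cases h0 : above F u = 0
    · exact ⟨D, Perm.refl D, ok_of_above hu h0 D⟩
    have hDne : D ≠ [] := by rintro rfl; simp at hcard
    obtain ⟨a, ha, hmax⟩ := exists_max_letter (σ := σ) D hDne
    have hDn : D.Nodup := hD.of_map
    have hpa : D.Perm (a :: D.erase a) := perm_cons_erase ha
    have hlen1 : (D.erase a).length + 1 = D.length := by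
      rw [length_erase_of_mem ha]
      have : 0 < D.length := length_pos_of_ne_nil hDne
      omega
    have hsub1 : ∀ d ∈ D.erase a, d ∈ D := fun d hd => mem_of_mem_erase hd
    have hnd1 : ((D.erase a).map σ).Nodup := hD.sublist (erase_sublist.map σ)
    have hsum1 : len σ D = σ a + len σ (D.erase a) := by rw [len_perm σ hpa, len_cons]
    have hlt1 : ∀ d ∈ D.erase a, σ d < σ a := by
      intro d hd
      refine lt_of_le_of_ne (hmax d (hsub1 d hd)) fun he => ?_
      have h1 := inj_on_of_nodup_map hD (hsub1 d hd) ha he
      subst h1
      exact (hDn.not_mem_erase) hd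
    -- the least forbidden number above `u`
    have hne : (F.filter fun f => u < f).Nonempty := Finset.card_pos.1 (Nat.pos_of_ne_zero h0)
    set d₀ := (F.filter fun f => u < f).min' hne with hd₀
    have hd₀m := Finset.min'_mem _ hne
    rw [← hd₀, Finset.mem_filter] at hd₀m
    have hd₀min : ∀ f ∈ F, u < f → d₀ ≤ f := fun f hf huf =>
      Finset.min'_le _ _ (Finset.mem_filter.2 ⟨hf, huf⟩)
    have hfree : ∀ x, u ≤ x → x < d₀ → x ∉ F := by
      intro x hx hx' hxF
      rcases Nat.eq_or_lt_of_le hx with rfl | hx
      · exact hu hxF
      · have := hd₀min x hxF hx; omega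
    rcases Nat.lt_or_ge d₀ (u + σ a) with hcase | hcase
    · by_cases haF : u + σ a ∈ F
      · -- a small letter first
        obtain ⟨y, hy, hgood⟩ := exists_good_letter (σ := σ) (D.erase a) hnd1
          (fun d f => f = u + σ d ∨ f = u + σ d + σ a)
          ((F.filter fun f => u < f).erase (u + σ a)) (by
            intro f hf d₁ hd₁ d₂ hd₂ h1 h2
            have := hlt1 d₁ hd₁
            have := hlt1 d₂ hd₂
            rcases h1 with h1 | h1 <;> rcases h2 with h2 | h2 <;> omega) (by
            have h1 : (F.filter fun f => u < f).card = above F u := rfl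
            have h2 := Finset.card_erase_lt_of_mem
              (Finset.mem_filter.2 ⟨haF, by have := hpos a ha; omega⟩ :
                u + σ a ∈ F.filter fun f => u < f)
            omega)
        have hyp := hpos y (hsub1 y hy)
        have hyl := hlt1 y hy
        have g1 : u + σ y ∉ F := fun hF => hgood _ (Finset.mem_erase.2 ⟨by omega,
          Finset.mem_filter.2 ⟨hF, by omega⟩⟩) (Or.inl rfl)
        have g2 : u + σ y + σ a ∉ F := fun hF => hgood _ (Finset.mem_erase.2 ⟨by omega,
          Finset.mem_filter.2 ⟨hF, by omega⟩⟩) (Or.inr rfl)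
        have hpy : (D.erase a).Perm (y :: (D.erase a).erase y) := perm_cons_erase hy
        have hlen2 : ((D.erase a).erase y).length + 1 = (D.erase a).length := by
          rw [length_erase_of_mem hy]
          have : 0 < (D.erase a).length := length_pos_of_mem hy
          omega
        have hsum2 : len σ (D.erase a) = σ y + len σ ((D.erase a).erase y) := by
          rw [len_perm σ hpy, len_cons]
        have hab := above_lt2 (F := F) hd₀m.2 hcase (show u + σ a ≤ u + σ y + σ a by omega)
          hd₀m.1 haF
        obtain ⟨s, hs, hok⟩ := ih ((D.erase a).erase y).length (by omega) F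
          ((D.erase a).erase y) (u + σ y + σ a) rfl (hnd1.sublist (erase_sublist.map σ))
          (fun d hd => hpos d (hsub1 d (mem_of_mem_erase hd))) (by omega) g2 (by
            rw [hsum1, hsum2] at hend
            have : u + σ y + σ a + len σ ((D.erase a).erase y) =
              u + (σ a + (σ y + len σ ((D.erase a).erase y))) := by ring
            rw [this]; exact hend)
        refine ⟨y :: a :: s, ?_, hu, g1, hok⟩
        refine (Perm.swap a y s).trans ?_
        exact (((hs.cons y).trans hpy.symm).cons a).trans hpa.symm
      · -- the largest letter first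
        have hab := above_lt (F := F) hd₀m.2 hcase.le hd₀m.1
        obtain ⟨s, hs, hok⟩ := ih (D.erase a).length (by omega) F (D.erase a) (u + σ a) rfl hnd1
          (fun d hd => hpos d (hsub1 d hd)) (by omega) haF (by
            rw [hsum1, ← add_assoc] at hend; exact hend)
        exact ⟨a :: s, (hs.cons a).trans hpa.symm, hu, hok⟩
    · -- the largest letter does not reach beyond the first forbidden number
      have hab : above (F.erase d₀) (u + σ a) + 1 ≤ above F u := by
        have h1 : above (F.erase d₀) (u + σ a) ≤ above (F.erase d₀) u :=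
          above_mono (by omega)
        have h2 : above (F.erase d₀) u + 1 ≤ above F u := by
          have h3 : above (F.erase d₀) u = ((F.filter fun f => u < f).erase d₀).card := by
            unfold above; rw [Finset.filter_erase]
          have h4 := Finset.card_erase_lt_of_mem (s := F.filter fun f => u < f) (a := d₀)
            (Finset.mem_filter.2 hd₀m)
          have h5 : (F.filter fun f => u < f).card = above F u := rfl
          omega
        omega
      have haF' : u + σ a ∉ F.erase d₀ := by
        intro h1
        rw [Finset.mem_erase] at h1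
        rcases Nat.eq_or_lt_of_le hcase with h2 | h2
        · exact h1.1 h2
        · exact hfree _ (by omega) h2 h1.2
      obtain ⟨s, hs, hok⟩ := ih (D.erase a).length (by omega) (F.erase d₀) (D.erase a)
        (u + σ a) rfl hnd1 (fun d hd => hpos d (hsub1 d hd)) (by omega) haF' (by
          rw [hsum1, ← add_assoc] at hend
          exact fun h => hend (Finset.mem_of_mem_erase h))
      have hok' := ok_iff.1 hok
      by_cases hhit : ∃ k ≤ s.length, u + σ a + len σ (s.take k) = d₀
      · obtain ⟨k, hk, hkd⟩ := hhit
        have hsl : len σ s = len σ (D.erase a) := len_perm σ hs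
        have hk' : k < s.length := by
          rcases Nat.eq_or_lt_of_le hk with h1 | h1
          · rw [h1, take_length, hsl] at hkd
            exfalso
            apply hend
            rw [hsum1, ← add_assoc, hkd]
            exact hd₀m.1
          · exact h1
        obtain ⟨X, y, Z, hXyZ, hXl⟩ : ∃ X y Z, s = X ++ y :: Z ∧ X = s.take k := by
          refine ⟨s.take k, s[k], s.drop (k + 1), ?_, rfl⟩
          rw [← drop_eq_getElem_cons hk', take_append_drop]
        rw [← hXl] at hkd
        have hyD : y ∈ D.erase a := hs.mem_iff.1 (by rw [hXyZ]; simp)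
        have hyl := hlt1 y hyD
        have hyp := hpos y (hsub1 y hyD)
        refine ⟨X ++ y :: a :: Z, ?_, ?_⟩
        · refine Perm.trans ?_ hpa.symm
          refine Perm.trans ?_ (hs.cons a)
          rw [hXyZ]
          have h1 : (X ++ y :: a :: Z).Perm (X ++ a :: y :: Z) :=
            (Perm.swap a y Z).append_left X
          exact h1.trans perm_middle
        · rw [hXyZ, ok_append] at hok
          rw [ok_append]
          refine ⟨?_, ?_⟩
          · rw [ok_iff]
            intro i hi
            refine hfree _ (by omega) ?_
            have : len σ (X.take i) ≤ len σ X := by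
              have h1 := take_append_drop i X
              have h2 : len σ X = len σ (X.take i) + len σ (X.drop i) := by
                rw [← len_append, h1]
              omega
            have := hpos a ha
            omega
          · have h2 := hok.2.2
            have ha0 := hpos a ha
            refine ⟨hfree _ (by omega) (by omega), hfree _ (by omega) (by omega), ?_⟩
            have h3 : u + len σ X + σ y + σ a = u + σ a + len σ X + σ y := by ring
            rw [h3]
            rw [ok_iff] at h2 ⊢
            intro i hi hF
            apply h2 i hi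
            rw [Finset.mem_erase]
            exact ⟨by omega, hF⟩
      · push Not at hhit
        refine ⟨a :: s, (hs.cons a).trans hpa.symm, hu, ?_⟩
        rw [ok_iff]
        intro k hk hF
        apply hok' k hk
        rw [Finset.mem_erase]
        exact ⟨hhit k hk, hF⟩

/-- **The insertion lemma.** More than `2 |F|` letters of different sizes can be inserted into
any given word so as to make it feasible, if both ends are not forbidden. -/
theorem exists_insertion : ∀ (R D : List Λ) (u : ℕ), (D.map σ).Nodup → (∀ d ∈ D, 0 < σ d) →
    (∀ r ∈ R, 0 < σ r) → 2 * above F u < D.length → u ∉ F → u + len σ R + len σ D ∉ F →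
    ∃ s, R.Sublist s ∧ s.Perm (R ++ D) ∧ Ok F σ u s
  | [], D, u, hD, hpos, _, hcard, hu, hend => by
    obtain ⟨s, hs, hok⟩ := grasshopper (σ := σ) D.length F D u rfl hD hpos (by omega) hu
      (by simpa using hend)
    exact ⟨s, nil_sublist s, by simpa using hs, hok⟩
  | r :: R, D, u, hD, hpos, hR, hcard, hu, hend => by
    have hr := hR r (by simp)
    have hR' : ∀ r ∈ R, 0 < σ r := fun x hx => hR x (by simp [hx])
    by_cases hrF : u + σ r ∈ F
    · obtain ⟨d, hd, hgood⟩ := exists_good_letter (σ := σ) D hD
        (fun d x => x = 2 * (u + σ d) ∨ x = 2 * (u + σ d + σ r) + 1)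
        (((F.filter fun f => u < f).image fun f => 2 * f) ∪
          ((F.filter fun f => u < f).image fun f => 2 * f + 1)) (by
          intro x _ d₁ _ d₂ _ h1 h2
          rcases h1 with h1 | h1 <;> rcases h2 with h2 | h2 <;> omega) (by
          refine (Finset.card_union_le _ _).trans_lt ?_
          have h1 := Finset.card_image_le (s := F.filter fun f => u < f) (f := fun f => 2 * f)
          have h2 := Finset.card_image_le (s := F.filter fun f => u < f)
            (f := fun f => 2 * f + 1)
          have h3 : (F.filter fun f => u < f).card = above F u := rfl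
          omega)
      have hd0 := hpos d hd
      have g1 : u + σ d ∉ F := fun hF => hgood (2 * (u + σ d)) (Finset.mem_union_left _
        (Finset.mem_image.2 ⟨_, Finset.mem_filter.2 ⟨hF, by omega⟩, rfl⟩)) (Or.inl rfl)
      have g2 : u + σ d + σ r ∉ F := fun hF => hgood (2 * (u + σ d + σ r) + 1)
        (Finset.mem_union_right _
        (Finset.mem_image.2 ⟨_, Finset.mem_filter.2 ⟨hF, by omega⟩, rfl⟩)) (Or.inr rfl)
      have hpd : D.Perm (d :: D.erase d) := perm_cons_erase hd
      have hlen : (D.erase d).length + 1 = D.length := by
        rw [length_erase_of_mem hd]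
        have : 0 < D.length := length_pos_of_mem hd
        omega
      have hsum : len σ D = σ d + len σ (D.erase d) := by rw [len_perm σ hpd, len_cons]
      have hab := above_lt (F := F) (show u < u + σ r by omega)
        (show u + σ r ≤ u + σ d + σ r by omega) hrF
      obtain ⟨s, h1, h2, h3⟩ := exists_insertion R (D.erase d) (u + σ d + σ r)
        (hD.sublist (erase_sublist.map σ)) (fun x hx => hpos x (mem_of_mem_erase hx)) hR'
        (by omega) g2 (by
          rw [hsum, len_cons] at hend
          have : u + σ d + σ r + len σ R + len σ (D.erase d) =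
            u + (σ r + len σ R) + (σ d + len σ (D.erase d)) := by ring
          rw [this]; exact hend)
      refine ⟨d :: r :: s, (h1.cons_cons r).trans (sublist_cons_self d _), ?_, hu, g1, h3⟩
      refine ((h2.cons r).cons d).trans ?_
      refine (Perm.swap r d _).trans ?_
      rw [cons_append]
      refine Perm.cons r ?_
      exact (perm_middle.symm).trans (hpd.symm.append_left R)
    · obtain ⟨s, h1, h2, h3⟩ := exists_insertion R D (u + σ r) hD hpos hR'
        (by have := above_mono (F := F) (show u ≤ u + σ r by omega); omega) hrF (by
          rw [len_cons] at hend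
          rw [← add_assoc] at hend; exact hend)
      exact ⟨r :: s, h1.cons_cons r, by rw [cons_append]; exact h2.cons r, hu, h3⟩

end Pool.Agent.Lib.MP_5dd24d_lc
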