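import Pool.Agent.Lib.MP_5dd24d_lc.Words

/-!
# The exchange argument for lexicographically maximal words
-/

namespace Pool.Agent.Lib.MP_5dd24d_lc

open List

/-- `w` is lexicographically maximal among its feasible rearrangements. -/
def LexMax (F : Finset ℕ) (σ : ℕ → ℕ) (u : ℕ) (w : List ℕ) : Prop :=
  Ok F σ u w ∧ ∀ w', w'.Perm w → Ok F σ u w' → ¬ w < w'

theorem exists_lexMax (F : Finset ℕ) (σ : ℕ → ℕ) (u : ℕ) (w : List ℕ) (h : Ok F σ u w) :
    ∃ w', w'.Perm w ∧ LexMax F σ u w' := by
  classical
  have hfin : {w' : List ℕ | w'.Perm w ∧ Ok F σ u w'}.Finite :=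
    (w.permutations.toFinset.finite_toSet).subset fun w' hw' => by
      simpa using hw'.1
  obtain ⟨m, hm, hmax⟩ := hfin.exists_maximal ⟨w, Perm.refl w, h⟩
  refine ⟨m, hm.1, hm.2, fun w' hw' hok hlt => ?_⟩
  exact absurd (hmax ⟨hw'.trans hm.1, hok⟩ hlt.le) (not_le.2 hlt)

theorem lex_lt (U X Y : List ℕ) {a b : ℕ} (h : b < a) : U ++ b :: X < U ++ a :: Y := by
  induction U with
  | nil => exact List.Lex.rel h
  | cons c U ih => exact List.Lex.cons ih

/-- An ascent in a lexicographically maximal word is blocked by a forbidden number. -/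
theorem LexMax.ascent {F : Finset ℕ} {σ : ℕ → ℕ} {u : ℕ} {U V : List ℕ} {a b : ℕ}
    (h : LexMax F σ u (U ++ b :: a :: V)) (hab : b < a) : u + len σ U + σ a ∈ F := by
  by_contra hF
  refine h.2 (U ++ a :: b :: V) ?_ ?_ (lex_lt U _ _ hab)
  · exact (Perm.swap b a V).append_left U
  · have h1 := h.1
    rw [ok_append] at h1 ⊢
    refine ⟨h1.1, ?_⟩
    have h2 := h1.2
    simp only [Ok] at h2 ⊢
    refine ⟨h2.1, hF, ?_⟩
    rw [Nat.add_right_comm]
    exact h2.2.2

/-- The parameter `J` of the exchange argument. -/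
def Jv (τ v : ℕ) : ℕ := τ * (v + 2) + 1

/-- The parameter `Y` of the exchange argument. -/
def Yv (τ v : ℕ) : ℕ := τ * Jv τ v + 1

/-- The length from which on runs are long. -/
def Lam (τ v : ℕ) : ℕ := (1 + τ) * (Jv τ v + Yv τ v) + 2

/-- In a lexicographically maximal word, a long run is not followed by a long run of a larger
letter, with at most `v` letters between them. -/
theorem LexMax.no_long {F : Finset ℕ} {σ : ℕ → ℕ} {u : ℕ} {U V X : List ℕ} {l m a b : ℕ}
    (h : LexMax F σ u (U ++ (replicate l b ++ (V ++ (replicate m a ++ X))))) (hba : b < a)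
    (hb : 0 < σ b) (ha : 0 < σ a) {τ v : ℕ} (hF : F.card ≤ τ) (hV : V.length ≤ v)
    (hl : Lam τ v ≤ l) (hm : Lam τ v ≤ m) : False := by
  have hlam : Lam τ v = Jv τ v + Yv τ v + τ * Jv τ v + τ * Yv τ v + 2 := by unfold Lam; ring
  have hY : Yv τ v = τ * Jv τ v + 1 := rfl
  have hJ : Jv τ v = τ * (v + 2) + 1 := rfl
  set J := Jv τ v with hJdef
  set Y := Yv τ v with hYdef
  have hok := h.1
  rw [ok_append, ok_append, ok_append, ok_append] at hok
  obtain ⟨o1, o2, o3, o4, o5⟩ := hok
  rw [ok_replicate] at o2 o4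
  simp only [len_replicate] at o3 o4 o5
  have o3' := ok_iff.1 o3
  set P := u + len σ U with hP
  -- the second half of the argument: an exact relation
  have rel : ∀ Δ K : ℕ, 1 ≤ Δ → Δ ≤ J → 1 ≤ K → K ≤ Y → Δ * σ a = K * σ b → False := by
    intro Δ K hΔ1 hΔJ hK1 hKY hrel
    have hτΔ : τ * Δ ≤ τ * J := Nat.mul_le_mul_left _ hΔJ
    have hτK : τ * K ≤ τ * Y := Nat.mul_le_mul_left _ hKY
    obtain ⟨y, hy, hy'⟩ := avoid F Δ (l - K + 1) (by
        have := Nat.mul_le_mul_right Δ hF; omega)
      (fun i y => P + y * σ b + i * σ a) (by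
        intro i _ y _ y' _ he
        have : y * σ b = y' * σ b := by simpa using he
        exact Nat.eq_of_mul_eq_mul_right hb this)
    obtain ⟨z, hz, hz'⟩ := avoid F K (m - Δ + 1) (by
        have := Nat.mul_le_mul_right K hF; omega)
      (fun i z => P + l * σ b + len σ V + z * σ a + i * σ b) (by
        intro i _ z _ z' _ he
        have : z * σ a = z' * σ a := by simpa using he
        exact Nat.eq_of_mul_eq_mul_right ha this)
    refine h.2 (U ++ (replicate y b ++ (replicate Δ a ++ (replicate (l - K - y) b ++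
      (V ++ (replicate z a ++ (replicate K b ++ (replicate (m - Δ - z) a ++ X)))))))) ?_ ?_ ?_
    · refine perm_iff_count.2 fun c => ?_
      simp only [count_append, count_replicate]
      by_cases h1 : b = c <;> by_cases h2 : a = c <;> simp [h1, h2] <;> omega
    · have e1 : P + y * σ b + Δ * σ a + (l - K - y) * σ b = P + l * σ b := by
        rw [hrel, add_assoc, add_assoc, ← add_mul, ← add_mul]
        congr 2; omega
      have e2 : P + l * σ b + len σ V + z * σ a + K * σ b + (m - Δ - z) * σ a =
          P + l * σ b + len σ V + m * σ a := by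
        rw [← hrel, add_assoc (P + l * σ b + len σ V), add_assoc (P + l * σ b + len σ V),
          ← add_mul, ← add_mul]
        congr 2; omega
      simp only [ok_append, ok_replicate, len_replicate]
      rw [← hP, e1, e2]
      refine ⟨o1, fun i hi => o2 i (by omega), fun i hi => ?_, fun i hi => ?_, o3,
        fun i hi => o4 i (by omega), fun i hi => ?_, fun i hi => ?_, o5⟩
      · rcases Nat.lt_or_ge i Δ with h1 | h1
        · exact hy' i h1
        · have h2 : i = Δ := by omega
          subst h2
          have := o2 (y + K) (by omega)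
          rw [add_mul, ← hrel, ← add_assoc] at this
          exact this
      · have := o2 (y + K + i) (by omega)
        rw [add_mul, add_mul, ← hrel, ← add_assoc, ← add_assoc] at this
        exact this
      · rcases Nat.lt_or_ge i K with h1 | h1
        · exact hz' i h1
        · have h2 : i = K := by omega
          subst h2
          have := o4 (z + Δ) (by omega)
          rw [add_mul, hrel, ← add_assoc] at this
          exact this
      · have := o4 (z + Δ + i) (by omega)
        rw [add_mul, add_mul, hrel, ← add_assoc, ← add_assoc] at this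
        exact this
    · obtain ⟨Δ', rfl⟩ : ∃ d, Δ = d + 1 := ⟨Δ - 1, by omega⟩
      obtain ⟨r, hr⟩ : ∃ r, l = y + (r + 1) := ⟨l - y - 1, by omega⟩
      have e3 : U ++ (replicate l b ++ (V ++ (replicate m a ++ X))) =
          (U ++ replicate y b) ++ b :: (replicate r b ++ (V ++ (replicate m a ++ X))) := by
        rw [hr, replicate_add, replicate_succ]; simp
      rw [e3, replicate_succ, ← append_assoc U]
      exact lex_lt _ _ _ hba
  -- the first half: a good number `j` of letters to be moved
  have good : ∃ j, 1 ≤ j ∧ j ≤ J ∧ (∀ k ≤ Y, P + (l - k) * σ b + j * σ a ∉ F) ∧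
      ∀ i ≤ V.length, P + l * σ b + j * σ a + len σ (V.take i) ∉ F := by
    by_contra hcon
    push Not at hcon
    have hw : ∀ j : ℕ, ∃ p : ℕ × ℕ, j < J → p.1 ∈ F ∧ p.2 < v + 2 ∧
        ((p.2 = 0 ∧ ∃ k ≤ Y, P + (l - k) * σ b + (j + 1) * σ a = p.1) ∨
          (0 < p.2 ∧ P + l * σ b + (j + 1) * σ a + len σ (V.take (p.2 - 1)) = p.1)) := by
      intro j
      by_cases hj : j < J
      · by_cases hk : ∀ k ≤ Y, P + (l - k) * σ b + (j + 1) * σ a ∉ F
        · obtain ⟨i, hi, hiF⟩ := hcon (j + 1) (by omega) (by omega) hk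
          exact ⟨(_, i + 1), fun _ => ⟨hiF, by simp; omega, Or.inr ⟨by simp, by simp⟩⟩⟩
        · push Not at hk
          obtain ⟨k, hk1, hk2⟩ := hk
          exact ⟨(_, 0), fun _ => ⟨hk2, by simp, Or.inl ⟨rfl, k, hk1, rfl⟩⟩⟩
      · exact ⟨(0, 0), fun h => absurd h hj⟩
    choose p hp using hw
    have hcard : (F ×ˢ Finset.range (v + 2)).card < (Finset.range J).card := by
      rw [Finset.card_product, Finset.card_range, Finset.card_range, hJ]
      exact Nat.lt_succ_of_le (Nat.mul_le_mul_right _ hF)
    obtain ⟨j, hj, j', hj', hne, heq⟩ := Finset.exists_ne_map_eq_of_card_lt_of_maps_to hcard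
      (f := p) (by
        intro j hj
        have hj : j < J := by simpa using hj
        simp only [Finset.coe_product, Set.mem_prod, Finset.mem_coe, Finset.mem_range]
        exact ⟨(hp j hj).1, (hp j hj).2.1⟩)
    rw [Finset.mem_range] at hj hj'
    have q := (hp j hj).2.2
    have q' := (hp j' hj').2.2
    rw [← heq] at q'
    -- symmetric core
    have core : ∀ j j' k k' : ℕ, j < j' → j' < J → k ≤ Y → k' ≤ Y →
        P + (l - k) * σ b + (j + 1) * σ a = P + (l - k') * σ b + (j' + 1) * σ a → False := by
      intro j j' k k' hjj hj' hk hk' he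
      obtain ⟨d, rfl⟩ : ∃ d, j' = j + (d + 1) := ⟨j' - j - 1, by omega⟩
      have e1 : (j + (d + 1) + 1) * σ a = (j + 1) * σ a + (d + 1) * σ a := by ring
      have e2 : (l - k) * σ b = (l - k') * σ b + (d + 1) * σ a := by
        rw [e1] at he; omega
      have h3 : l - k' < l - k := by
        by_contra hlt
        have h4 : (l - k) * σ b ≤ (l - k') * σ b := Nat.mul_le_mul_right _ (by omega)
        have h5 : 0 < (d + 1) * σ a := Nat.mul_pos (by omega) ha
        omega
      obtain ⟨K, hK⟩ : ∃ K, l - k = l - k' + K := ⟨(l - k) - (l - k'), by omega⟩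
      rw [hK, add_mul] at e2
      exact rel (d + 1) K (by omega) (by omega) (by omega) (by omega) (by omega)
    rcases q with ⟨_, k, hk, hk'⟩ | ⟨h0, hq⟩
    · rcases q' with ⟨_, k', hk1, hk2⟩ | ⟨h0', _⟩
      · rcases Nat.lt_or_ge j j' with hjj | hjj
        · exact core j j' k k' hjj hj' hk hk1 (hk'.trans hk2.symm)
        · exact core j' j k' k (by omega) hj hk1 hk (hk2.trans hk'.symm)
      · omega
    · rcases q' with ⟨h0', _⟩ | ⟨_, hq'⟩
      · omega
      · have h6 : (j + 1) * σ a = (j' + 1) * σ a := by omega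
        have := Nat.eq_of_mul_eq_mul_right ha h6
        omega
  obtain ⟨j, hj1, hjJ, hβ, hγ⟩ := good
  have hτj : τ * j ≤ τ * J := Nat.mul_le_mul_left _ hjJ
  obtain ⟨y, hy, hy'⟩ := avoid F j Y (by
      have := Nat.mul_le_mul_right j hF; omega)
    (fun i y => P + (l - (y + 1)) * σ b + i * σ a) (by
      intro i _ y hy y' hy' he
      have h1 : (l - (y + 1)) * σ b = (l - (y' + 1)) * σ b := by simpa using he
      have := Nat.eq_of_mul_eq_mul_right hb h1
      omega)
  refine h.2 (U ++ (replicate (l - (y + 1)) b ++ (replicate j a ++ (replicate (y + 1) b ++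
    (V ++ (replicate (m - j) a ++ X)))))) ?_ ?_ ?_
  · refine perm_iff_count.2 fun c => ?_
    simp only [count_append, count_replicate]
    by_cases h1 : b = c <;> by_cases h2 : a = c <;> simp [h1, h2] <;> omega
  · have e1 : P + (l - (y + 1)) * σ b + j * σ a + (y + 1) * σ b = P + l * σ b + j * σ a := by
      have : l * σ b = (l - (y + 1)) * σ b + (y + 1) * σ b := by
        rw [← add_mul]; congr 1; omega
      omega
    have e2 : P + l * σ b + j * σ a + len σ V = P + l * σ b + len σ V + j * σ a := by ring
    have e3 : P + l * σ b + len σ V + j * σ a + (m - j) * σ a =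
        P + l * σ b + len σ V + m * σ a := by
      rw [add_assoc (P + l * σ b + len σ V), ← add_mul]
      congr 2; omega
    simp only [ok_append, ok_replicate, len_replicate]
    rw [← hP, e1, e2, e3]
    refine ⟨o1, fun i hi => o2 i (by omega), fun i hi => ?_, fun i hi => ?_, ok_iff.2 hγ,
      fun i hi => ?_, o5⟩
    · rcases Nat.lt_or_ge i j with h1 | h1
      · exact hy' i h1
      · have h2 : i = j := by omega
        subst h2
        exact hβ (y + 1) (by omega)
    · have := hβ (y + 1 - i) (by omega)
      have e4 : l - (y + 1 - i) = l - (y + 1) + i := by omega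
      rw [e4, add_mul] at this
      have e5 : P + (l - (y + 1)) * σ b + j * σ a + i * σ b =
        P + ((l - (y + 1)) * σ b + i * σ b) + j * σ a := by ring
      rw [e5]; exact this
    · have := o4 (j + i) (by omega)
      rw [add_mul, ← add_assoc] at this
      exact this
  · obtain ⟨j', rfl⟩ : ∃ d, j = d + 1 := ⟨j - 1, by omega⟩
    obtain ⟨r, hr⟩ : ∃ r, l = r + (y + 1) := ⟨l - (y + 1), by omega⟩
    have e3 : U ++ (replicate l b ++ (V ++ (replicate m a ++ X))) =
        (U ++ replicate r b) ++ b :: (replicate y b ++ (V ++ (replicate m a ++ X))) := by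
      rw [hr, replicate_add, replicate_succ]; simp
    have e4 : l - (y + 1) = r := by omega
    rw [e3, e4, replicate_succ (n := j'), ← append_assoc U]
    exact lex_lt _ _ _ hba

end Pool.Agent.Lib.MP_5dd24d_lc
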