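import Pool.Agent.Lib.MP_5dd24d_lc.Code
import Pool.Agent.Lib.MP_7fc3ed_lc.Raw

/-!
# The numbers of exceptional jobs and of states are computed by iteration
-/

namespace Pool.Agent.Lib.MP_5dd24d_lc

open Pool.Agent.PolyTime Function Pool.Agent.Lib.MP_7fc3ed_lc Polynomial

variable {α β γ δ σ : Type*} [Rep α] [Rep β] [Rep γ] [Rep δ] [Rep σ]

/-- Iteration without a polynomial bound for the sizes: the running time is polynomial in a given
bound `B` for all occurring sizes. -/
theorem compB_iter {ι : Type*} {a : ι → α} {n : α → ℕ} {f : α → σ} {g : α → σ → σ}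
    (hn : PT n) (hf : PT f) (hg : PT (fun p : α × σ => g p.1 p.2)) {B : ι → ℕ}
    (ha : ∀ j, sz (a j) ≤ B j)
    (hB : ∀ j, ∀ m ≤ 2 * n (a j) + 1, sz ((g (a j))^[m] (f (a j))) ≤ B j) :
    CompB (fun j => toT (a j)) (fun j => toT ((a j, (g (a j))^[2 * n (a j) + 1] (f (a j))) : α × σ))
      B := by
  obtain ⟨q, hq⟩ := hn.bdd
  have hnext : Comp (fun k : α × σ => toT k) (fun k => toT ((k.1, g k.1 k.2) : α × σ)) := by
    have : PT (fun k : α × σ => (k.1, g k.1 k.2)) := PT.pair PT.id.fst hg
    exact this
  have key : ∀ (b : α) (v : σ) (m : ℕ),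
      (fun k : α × σ => (k.1, g k.1 k.2))^[m] (b, v) = (b, (g b)^[m] v) := by
    intro b v m
    induction m with
    | zero => rfl
    | succ m ih => rw [iterate_succ_apply', iterate_succ_apply', ih]
  have h1 : Comp (fun b : α => toT b) (fun b => .cons (toT (n b)) (toT ((b, f b) : α × σ))) :=
    Comp.pair hn (PT.pair PT.id hf)
  have h2 : CompB (fun j => toT (a j))
      (fun j => .cons (toT (n (a j))) (toT ((a j, f (a j)) : α × σ))) B :=
    (Comp.sub h1 a).toB.mono X fun j => by rw [eval_X]; exact ha j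
  have h3 : CompB (fun j => .cons (toT (n (a j))) (toT ((a j, f (a j)) : α × σ)))
      (fun j => toT ((fun k : α × σ => (k.1, g k.1 k.2))^[(toT (n (a j))).size] (a j, f (a j))))
      (fun j => q.eval (B j) + (2 * B j + 1)) := by
    refine Comp.iterB hnext (x := fun j => toT (n (a j))) (k := fun j => (a j, f (a j))) ?_ ?_
    · intro j
      have h4 : sz (n (a j)) ≤ q.eval (B j) := (hq (a j)).trans (poly_mono q (ha j))
      change sz (n (a j)) ≤ _
      omega
    · intro j m hm
      rw [key]
      have h4 : (toT (n (a j))).size = 2 * n (a j) + 1 := sz_nat _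
      have h5 := hB j m (by omega)
      have h6 := ha j
      change sz ((a j, (g (a j))^[m] (f (a j))) : α × σ) ≤ _
      rw [sz_pair]
      omega
  have h4 := h3.mono (B' := B) (q + (2 * X + 1)) fun j => by
    simp only [eval_add, eval_mul, eval_X, eval_ofNat, eval_one]; exact le_rfl
  refine (h2.comp h4).congr (fun _ => rfl) fun j => ?_
  rw [key]
  have h5 : (toT (n (a j))).size = 2 * n (a j) + 1 := sz_nat _
  rw [h5]

/-! ### The parameters of the algorithm -/

/-- The number of steps. -/
def Nv (τ : ℕ) : ℕ := 2 * τ + Wv τ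

/-- The number of runs. -/
def rhov (τ : ℕ) : ℕ := (Nv τ * τ + 1) * Nv τ

/-- One step of the computation of the scales. -/
def sstep (τ v : ℕ) : ℕ := Lam τ (rhov τ * v) + v

theorem scale_eq (τ m : ℕ) : scale τ (rhov τ) m = (sstep τ)^[m] 1 := by
  induction m with
  | zero => rfl
  | succ m ih => rw [iterate_succ_apply', ← ih]; rfl

/-- The largest scale. -/
def Sv (τ : ℕ) : ℕ := (sstep τ)^[2 * rhov τ + 1] 1

/-- The number of exceptional jobs of each length. -/
def hv (τ : ℕ) : ℕ := rhov τ * Sv τ + 1

theorem hExc_le (τ : ℕ) : hExc τ (2 * τ + Wv τ) + 1 ≤ hv τ := by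
  have h1 : scale τ (rhov τ) (rhov τ) ≤ Sv τ := by
    unfold Sv
    rw [← scale_eq]
    exact scale_mono τ (rhov τ) (by omega)
  exact Nat.add_le_add_right (Nat.mul_le_mul_left (rhov τ) h1) 1

/-- The number of states. -/
def Dv (τ : ℕ) : ℕ := (fun v => v * (hv τ + 1))^[2 * τ + 1] (Wv τ + 1)

theorem iter_mul (c v m : ℕ) : (fun v => v * c)^[m] v = c ^ m * v := by
  induction m with
  | zero => simp
  | succ m ih => rw [iterate_succ_apply', ih, pow_succ]; ring

theorem Dv_eq (τ : ℕ) : Dv τ = (hv τ + 1) ^ (2 * τ + 1) * (Wv τ + 1) := iter_mul _ _ _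

/-- The bound for all numbers. -/
def Kv (τ : ℕ) : ℕ := Sv τ + (hv τ + (Dv τ + (Wv τ + τ)))

section PT

theorem pt_Wv {t : α → ℕ} (ht : PT t) : PT (fun a => Wv (t a)) := by
  unfold Wv
  exact PT.mul (PT.add (PT.mul (PT.const 2) ht) (PT.const 1)) ht

theorem pt_Nv {t : α → ℕ} (ht : PT t) : PT (fun a => Nv (t a)) := by
  unfold Nv
  exact PT.add (PT.mul (PT.const 2) ht) (pt_Wv ht)

theorem pt_rhov {t : α → ℕ} (ht : PT t) : PT (fun a => rhov (t a)) := by
  unfold rhov
  exact PT.mul (PT.add (PT.mul (pt_Nv ht) ht) (PT.const 1)) (pt_Nv ht)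

theorem pt_Lam {t v : α → ℕ} (ht : PT t) (hv : PT v) : PT (fun a => Lam (t a) (v a)) := by
  have hJ : PT (fun a => Jv (t a) (v a)) := by
    unfold Jv
    exact PT.add (PT.mul ht (PT.add hv (PT.const 2))) (PT.const 1)
  have hY : PT (fun a => Yv (t a) (v a)) := by
    unfold Yv
    exact PT.add (PT.mul ht hJ) (PT.const 1)
  unfold Lam
  exact PT.add (PT.mul (PT.add (PT.const 1) ht) (PT.add hJ hY)) (PT.const 2)

theorem pt_sstep {t v : α → ℕ} (ht : PT t) (hv : PT v) : PT (fun a => sstep (t a) (v a)) := by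
  unfold sstep
  exact PT.add (pt_Lam ht (PT.mul (pt_rhov ht) hv)) hv

end PT

/-! ### The whole computation -/

theorem le_sstep (τ v : ℕ) : v ≤ sstep τ v := Nat.le_add_left _ _

theorem iter_sstep_le (τ m : ℕ) (h : m ≤ 2 * rhov τ + 1) : (sstep τ)^[m] 1 ≤ Sv τ := by
  unfold Sv
  rw [← scale_eq, ← scale_eq]
  exact scale_mono τ (rhov τ) h

theorem iter_Dv_le (τ m : ℕ) (h : m ≤ 2 * τ + 1) :
    (fun v => v * (hv τ + 1))^[m] (Wv τ + 1) ≤ Dv τ := by
  unfold Dv
  rw [iter_mul, iter_mul]
  exact Nat.mul_le_mul_right _ (Nat.pow_le_pow_right (by omega) h)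

/-- The inputs of the algorithm. -/
def inp (I : Instance) : List BN × List BN := (bns I.times, bns I.forbidden)

/-- The result of the algorithm. -/
def res (I : Instance) : List BN :=
  solve (bns I.times) (bns I.forbidden) (Wv I.tau) (hv I.tau) (Dv I.tau)

theorem length_bns (l : List ℕ) : (bns l).length = l.length := List.length_map _

theorem compB_res : CompB (fun I : Instance => toT I.encode) (fun I => toT (outBN (res I)))
    (fun I => I.encode.length + Kv I.tau) := by
  -- reading
  have h1 : Comp (fun I : Instance => toT I.encode) (fun I => toT (inp I)) := by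
    have : PT (fun x : List Bool => (decP x, decF x)) :=
      PT.pair (pt_decP PT.id) (pt_decF PT.id)
    refine Comp.congr (Comp.sub this Instance.encode) (fun _ => rfl) fun I => ?_
    simp only [decP_encode, decF_encode]
    rfl
  obtain ⟨q, hq⟩ := h1.size_le
  -- a bound for everything
  let B : Instance → ℕ := fun I => q.eval (toT I.encode).size + (10 * Kv I.tau + 20)
  have hin : ∀ I : Instance, sz (inp I) ≤ q.eval (toT I.encode).size := hq
  have htau : ∀ I : Instance, (inp I).2.length = I.tau := fun I => length_bns _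
  -- the scale
  have h2 : CompB (fun I : Instance => toT (inp I))
      (fun I => toT ((inp I, Sv I.tau) : (List BN × List BN) × ℕ)) B := by
    refine (compB_iter (a := inp) (n := fun a => rhov a.2.length) (f := fun _ => 1)
      (g := fun a v => sstep a.2.length v) (pt_rhov (PT.length PT.id.snd)) (PT.const 1)
      (pt_sstep (PT.length PT.id.fst.snd) PT.id.snd) (B := B) ?_ ?_).congr (fun _ => rfl) ?_
    · intro I
      have := hin I
      simp only [B]
      omega
    · intro I m hm
      simp only [htau] at hm ⊢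
      have h3 := iter_sstep_le I.tau m hm
      rw [sz_nat]
      change 2 * (sstep I.tau)^[m] 1 + 1 ≤ _
      simp only [B, Kv]
      omega
    · intro I
      simp only [htau]
      rfl
  -- the number of states
  have h3 : CompB (fun I : Instance => toT ((inp I, Sv I.tau) : (List BN × List BN) × ℕ))
      (fun I => toT (((inp I, Sv I.tau), Dv I.tau) : ((List BN × List BN) × ℕ) × ℕ)) B := by
    refine (compB_iter (a := fun I : Instance => ((inp I, Sv I.tau) : (List BN × List BN) × ℕ))
      (n := fun a => a.1.2.length) (f := fun a => Wv a.1.2.length + 1)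
      (g := fun a v => v * (rhov a.1.2.length * a.2 + 1 + 1))
      (PT.length PT.id.fst.snd) (PT.add (pt_Wv (PT.length PT.id.fst.snd)) (PT.const 1))
      (PT.mul PT.id.snd (PT.add (PT.add (PT.mul (pt_rhov (PT.length PT.id.fst.fst.snd))
        PT.id.fst.snd) (PT.const 1)) (PT.const 1))) (B := B) ?_ ?_).congr (fun _ => rfl) ?_
    · intro I
      have := hin I
      simp only [B, Kv, sz_pair, sz_nat]
      omega
    · intro I m hm
      simp only [htau] at hm ⊢
      have h3 := iter_Dv_le I.tau m hm
      rw [sz_nat]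
      change 2 * (fun v => v * (hv I.tau + 1))^[m] (Wv I.tau + 1) + 1 ≤ _
      simp only [B, Kv]
      omega
    · intro I
      simp only [htau]
      rfl
  -- the search
  have h4 : CompB
      (fun I => toT (((inp I, Sv I.tau), Dv I.tau) : ((List BN × List BN) × ℕ) × ℕ))
      (fun I => toT (outBN (res I))) B := by
    have h5 : PT (fun a : ((List BN × List BN) × ℕ) × ℕ =>
        outBN (solve a.1.1.1 a.1.1.2 (Wv a.1.1.2.length)
          (rhov a.1.1.2.length * a.1.2 + 1) a.2)) :=
      pt_outBN (pt_solve PT.id.fst.fst.fst PT.id.fst.fst.snd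
        (pt_Wv (PT.length PT.id.fst.fst.snd))
        (PT.add (PT.mul (pt_rhov (PT.length PT.id.fst.fst.snd)) PT.id.fst.snd) (PT.const 1))
        PT.id.snd)
    have h6 := Comp.sub h5 (fun I : Instance =>
      (((inp I, Sv I.tau), Dv I.tau) : ((List BN × List BN) × ℕ) × ℕ))
    have h7 : Comp (fun I => toT (((inp I, Sv I.tau), Dv I.tau) : ((List BN × List BN) × ℕ) × ℕ))
        (fun I => toT (outBN (res I))) := by
      refine Comp.congr h6 (fun _ => rfl) fun I => ?_
      simp only [htau]
      rfl
    refine h7.toBle X fun I => ?_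
    have := hin I
    change sz (((inp I, Sv I.tau), Dv I.tau) : ((List BN × List BN) × ℕ) × ℕ) ≤ _
    rw [eval_X]
    simp only [B, Kv, sz_pair, sz_nat]
    omega
  have h5 : CompB (fun I : Instance => toT I.encode) (fun I => toT (outBN (res I)))
      (fun I => (toT I.encode).size + B I) :=
    (h1.toB.monoLe (B' := fun I => (toT I.encode).size + B I) (fun I => Nat.le_add_right _ _)).comp
      ((h2.monoLe fun I => Nat.le_add_left _ _).comp
        ((h3.monoLe fun I => Nat.le_add_left _ _).comp (h4.monoLe fun I => Nat.le_add_left _ _)))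
  refine h5.mono ((4 * X + 1) + (q.comp (4 * X + 1) + (10 * X + 20))) fun I => ?_
  have h6 : (toT I.encode).size ≤ 4 * I.encode.length + 1 := sz_listBool I.encode
  have h7 : (toT I.encode).size ≤ 4 * (I.encode.length + Kv I.tau) + 1 := by omega
  have h8 := poly_mono q h7
  simp only [eval_add, eval_mul, eval_X, eval_ofNat, eval_one, eval_comp, B]
  omega

theorem res_spec (I : Instance) : I.Sol (outBN (res I)) := by
  obtain ⟨S, hS, h⟩ := solve_spec I (W := Wv I.tau) (h := hv I.tau) (D := Dv I.tau) le_rfl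
    (hExc_le I.tau) (Dv_eq I.tau).ge
  refine ⟨S, hS, ?_⟩
  unfold res
  rw [h, outBN_bns]

end Pool.Agent.Lib.MP_5dd24d_lc
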