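import Pool.Agent.Lib.MP_5dd24d_lc.Fpt

/-!
# Fixed-parameter tractability
-/

namespace Pool.Agent.Lib.MP_5dd24d_lc

open Pool.Agent.PolyTime Function Pool.Agent.Lib.MP_7fc3ed_lc Polynomial Turing

/-! ### The parameters are computable -/

theorem primrec_Wv : Primrec Wv :=
  Primrec.nat_mul.comp (Primrec.nat_add.comp (Primrec.nat_mul.comp (Primrec.const 2) Primrec.id)
    (Primrec.const 1)) Primrec.id

theorem primrec_Nv : Primrec Nv :=
  Primrec.nat_add.comp (Primrec.nat_mul.comp (Primrec.const 2) Primrec.id) primrec_Wv

theorem primrec_rhov : Primrec rhov :=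
  Primrec.nat_mul.comp (Primrec.nat_add.comp (Primrec.nat_mul.comp primrec_Nv Primrec.id)
    (Primrec.const 1)) primrec_Nv

theorem primrec_Jv : Primrec₂ Jv :=
  (Primrec.nat_add.comp (Primrec.nat_mul.comp Primrec.fst
    (Primrec.nat_add.comp Primrec.snd (Primrec.const 2))) (Primrec.const 1)).to₂

theorem primrec_Yv : Primrec₂ Yv :=
  (Primrec.nat_add.comp (Primrec.nat_mul.comp Primrec.fst
    (primrec_Jv.comp Primrec.fst Primrec.snd)) (Primrec.const 1)).to₂

theorem primrec_Lam : Primrec₂ Lam :=
  (Primrec.nat_add.comp (Primrec.nat_mul.comp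
    (Primrec.nat_add.comp (Primrec.const 1) Primrec.fst)
    (Primrec.nat_add.comp (primrec_Jv.comp Primrec.fst Primrec.snd)
      (primrec_Yv.comp Primrec.fst Primrec.snd))) (Primrec.const 2)).to₂

theorem primrec_sstep : Primrec₂ sstep :=
  (Primrec.nat_add.comp (primrec_Lam.comp Primrec.fst
    (Primrec.nat_mul.comp (primrec_rhov.comp Primrec.fst) Primrec.snd)) Primrec.snd).to₂

theorem primrec_Sv : Primrec Sv :=
  Primrec.nat_iterate (Primrec.nat_add.comp (Primrec.nat_mul.comp (Primrec.const 2)
    primrec_rhov) (Primrec.const 1)) (Primrec.const 1) primrec_sstep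

theorem primrec_hv : Primrec hv :=
  Primrec.nat_add.comp (Primrec.nat_mul.comp primrec_rhov primrec_Sv) (Primrec.const 1)

theorem primrec_Dv : Primrec Dv :=
  Primrec.nat_iterate (Primrec.nat_add.comp (Primrec.nat_mul.comp (Primrec.const 2)
    Primrec.id) (Primrec.const 1)) (Primrec.nat_add.comp primrec_Wv (Primrec.const 1))
    (Primrec.nat_mul.comp Primrec.snd (Primrec.nat_add.comp (primrec_hv.comp Primrec.fst)
      (Primrec.const 1))).to₂

theorem primrec_Kv : Primrec Kv :=
  Primrec.nat_add.comp primrec_Sv (Primrec.nat_add.comp primrec_hv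
    (Primrec.nat_add.comp primrec_Dv (Primrec.nat_add.comp primrec_Wv Primrec.id)))

theorem primrec_pow {f : ℕ → ℕ} (hf : Primrec f) (d : ℕ) : Primrec fun n => f n ^ d := by
  induction d with
  | zero => simpa using Primrec.const 1
  | succ d ih =>
    have : (fun n => f n ^ (d + 1)) = fun n => f n ^ d * f n := funext fun n => pow_succ _ _
    rw [this]
    exact Primrec.nat_mul.comp ih hf

/-! ### The machine -/

theorem outputs_of_run {p : P} {x y : List Bool} {t : ℕ}
    (h : Run p (st x [] [] [] [] []) (st [] y [] [] [] []) t) (t' : ℕ) (ht : t + 1 ≤ t') :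
    Nonempty (TM2OutputsInTime (machine p) (x.map (Equiv.refl Bool).symm)
      (some (y.map (Equiv.refl Bool).symm)) t') := by
  have hs : ∃ m, m ≤ t ∧
      ∃ v, PolyTime.Reach (machine p).m m
        ⟨some (machine p).main, (machine p).initialState, st x [] [] [] [] []⟩
        ⟨some none, v, st [] y [] [] [] []⟩ := by
    obtain ⟨m, hm, hE⟩ := h
    obtain ⟨v, hv⟩ := sim (machine p).m hE some none (fun _ => rfl) (fun _ => none)
    exact ⟨m, hm, v, hv⟩
  have hm' := Classical.choose_spec hs
  refine ⟨{ steps := Classical.choose hs + 1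
            evals_in_steps := ?_
            steps_le_m := ?_ }⟩
  · obtain ⟨v, hv⟩ := hm'.2
    have h3 : PolyTime.Reach (machine p).m 1
        ⟨some none, v, st [] y [] [] [] []⟩
        ⟨none, fun _ => none, st [] y [] [] [] []⟩ := PolyTime.Reach.one rfl
    have h4 := hv.trans h3
    have i1 : initList (machine p) (x.map (Equiv.refl Bool).symm) =
        ⟨some (machine p).main, (machine p).initialState, st x [] [] [] [] []⟩ := by
      unfold initList
      congr 1
      funext k
      cases k
      · simp [machine]
      all_goals rfl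
    have i2 : haltList (machine p) (y.map (Equiv.refl Bool).symm) =
        ⟨none, fun _ => none, st [] y [] [] [] []⟩ := by
      unfold haltList
      congr 1
      funext k
      cases k
      · rfl
      · simp [machine]
      all_goals rfl
    unfold PolyTime.Reach at h4
    exact (congrArg (fun z => (flip bind (TM2.step (machine p).m))^[
      Classical.choose hs + 1] (some z)) i1).trans (h4.trans (congrArg some i2.symm))
  · have h5 := hm'.1
    omega

/-- Single-machine makespan minimization with `τ` forbidden start and completion times is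
fixed-parameter tractable with respect to `τ`. -/
theorem fpt : FixedParameterTractable Instance.encode Instance.tau Instance.Sol := by
  obtain ⟨p, b, h⟩ := compB_res
  obtain ⟨C, d, hCd⟩ := eval_le (35 * X + 15 + 8 * b)
  have hpos : ∀ I : Instance, 1 ≤ I.encode.length := by
    intro I
    unfold Instance.encode encList
    simp only [List.length_append, List.length_singleton]
    omega
  refine ⟨machine (wrapRaw p), Equiv.refl _, Equiv.refl _, fun t => C * (Kv t + 2) ^ d, d,
    fun k => @Finite.of_fintype _ (Sym.fintype k), ?_, fun I => ⟨outBN (res I), res_spec I, ?_⟩⟩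
  · exact (Primrec.nat_mul.comp (Primrec.const C) (primrec_pow
      (Primrec.nat_add.comp primrec_Kv (Primrec.const 2)) d)).to_comp
  · have h2 := h I [] [] [] [] [] []
    rw [List.append_nil, List.append_nil] at h2
    simp only at h2
    refine outputs_of_run (run_wrapRaw h2) _ ?_
    have hlen : (outBN (res I)).length ≤
        4 * I.encode.length + 1 + b.eval (I.encode.length + Kv I.tau) := by
      obtain ⟨m, hm, hj⟩ := h2
      have h1 := hj.length_le .dat
      simp only [st_dat, length_tenc] at h1
      have h3 := sz_listBool I.encode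
      have h4 := length_le_sz (outBN (res I))
      simp only [sz] at h3 h4
      omega
    have h3 := hCd (I.encode.length + Kv I.tau)
    simp only [eval_add, eval_mul, eval_X, eval_ofNat] at h3
    have h4 : I.encode.length + Kv I.tau + 1 ≤ (Kv I.tau + 2) * I.encode.length := by
      have := hpos I
      nlinarith
    have h5 : C * (I.encode.length + Kv I.tau + 1) ^ d ≤
        C * (Kv I.tau + 2) ^ d * I.encode.length ^ d := by
      rw [mul_assoc, ← mul_pow]
      exact Nat.mul_le_mul_left C (Nat.pow_le_pow_left h4 d)
    change _ ≤ C * (Kv I.tau + 2) ^ d * I.encode.length ^ d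
    omega

end Pool.Agent.Lib.MP_5dd24d_lc
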