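import Pool.Agent.Lib.MP_5dd24d_lc.Structure
import Pool.Agent.Lib.MP_5dd24d_lc.Diverse

/-!
# Normal forms of words of jobs and idle blocks
-/

namespace Pool.Agent.Lib.MP_5dd24d_lc

open List

/-- A letter: `(true, a)` is a job of length `a`, `(false, d)` is an idle block of length `d`. -/
abbrev Letter : Type := Bool × ℕ

/-- The lengths of the jobs in a word. -/
def jobs (l : List Letter) : List ℕ := (l.filter fun a => a.1).map Prod.snd

/-- The total idle time in a word. -/
def idle (l : List Letter) : ℕ := ((l.filter fun a => !a.1).map Prod.snd).sum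

@[simp] theorem jobs_nil : jobs [] = [] := rfl
@[simp] theorem jobs_true (a : ℕ) (l : List Letter) : jobs ((true, a) :: l) = a :: jobs l := by
  simp [jobs]
@[simp] theorem jobs_false (a : ℕ) (l : List Letter) : jobs ((false, a) :: l) = jobs l := by
  simp [jobs]
@[simp] theorem jobs_append (l l' : List Letter) : jobs (l ++ l') = jobs l ++ jobs l' := by
  simp [jobs]
@[simp] theorem idle_nil : idle [] = 0 := rfl
@[simp] theorem idle_true (a : ℕ) (l : List Letter) : idle ((true, a) :: l) = idle l := by
  simp [idle]
@[simp] theorem idle_false (a : ℕ) (l : List Letter) :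
    idle ((false, a) :: l) = a + idle l := by
  simp [idle]
@[simp] theorem idle_append (l l' : List Letter) : idle (l ++ l') = idle l + idle l' := by
  simp [idle]

theorem len_snd (l : List Letter) : len Prod.snd l = (jobs l).sum + idle l := by
  induction l with
  | nil => simp
  | cons a l ih =>
    obtain ⟨b, a⟩ := a
    cases b <;> simp [ih] <;> omega

theorem jobs_perm {l l' : List Letter} (h : l.Perm l') : (jobs l).Perm (jobs l') :=
  (h.filter _).map _

theorem idle_perm {l l' : List Letter} (h : l.Perm l') : idle l = idle l' :=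
  ((h.filter _).map _).sum_eq

theorem jobs_sublist {l l' : List Letter} (h : l.Sublist l') : (jobs l).Sublist (jobs l') :=
  (h.filter _).map _

theorem jobs_map_true (l : List ℕ) : jobs (l.map fun a => (true, a)) = l := by
  induction l with
  | nil => rfl
  | cons a l ih => simp [ih]

theorem idle_map_true (l : List ℕ) : idle (l.map fun a => (true, a)) = 0 := by
  induction l with
  | nil => rfl
  | cons a l ih => simp [ih]

/-- The lengths of the jobs that are processed in sorted order. -/
def mainSizes (τ h : ℕ) (ts P : List ℕ) : List ℕ :=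
  ((ts.take (2 * τ + 1)).flatMap fun t => replicate (P.count t - h) t) ++
    ((ts.drop (2 * τ + 1)).flatMap fun t => replicate (P.count t) t)

section

variable {α : Type*} [DecidableEq α]

theorem ok_map {Λ Λ' : Type*} {F : Finset ℕ} {σ : Λ → ℕ} {g : Λ' → Λ} {u : ℕ} {l : List Λ'} :
    Ok F σ u (l.map g) ↔ Ok F (fun a => σ (g a)) u l := by
  induction l generalizing u with
  | nil => rfl
  | cons a l ih => simp only [map_cons, Ok, ih]

theorem ok_congr {Λ : Type*} {F : Finset ℕ} {σ σ' : Λ → ℕ} {u : ℕ} {l : List Λ}
    (h : ∀ a ∈ l, σ a = σ' a) : Ok F σ u l ↔ Ok F σ' u l := by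
  induction l generalizing u with
  | nil => rfl
  | cons a l ih =>
    simp only [Ok]
    rw [ih fun b hb => h b (by simp [hb]), h a (by simp)]

theorem filter_sublist_length {β : Type*} {m w : List β} (h : m.Sublist w) (p : β → Bool) :
    (w.filter p).length + m.length ≤ (m.filter p).length + w.length := by
  induction h with
  | slnil => simp
  | cons a _ ih =>
    by_cases hp : p a = true
    · rw [filter_cons_of_pos hp]; simp only [length_cons]; omega
    · rw [filter_cons_of_neg hp]; simp only [length_cons]; omega
  | cons_cons a _ ih =>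
    by_cases hp : p a = true
    · rw [filter_cons_of_pos hp, filter_cons_of_pos hp]; simp only [length_cons]; omega
    · rw [filter_cons_of_neg hp, filter_cons_of_neg hp]; simp only [length_cons]; omega

theorem count_sublist_length {m w : List α} (h : m.Sublist w) (a : α) :
    w.count a + m.length ≤ m.count a + w.length := by
  have := filter_sublist_length h (fun b => b == a)
  simpa [count_eq_countP, countP_eq_length_filter] using this

omit [DecidableEq α] in
theorem flatMap_sublist {β : Type*} (l : List α) (f g : α → List β)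
    (h : ∀ a ∈ l, (f a).Sublist (g a)) : (l.flatMap f).Sublist (l.flatMap g) := by
  induction l with
  | nil => simp
  | cons a l ih =>
    simp only [flatMap_cons]
    exact (h a (by simp)).append (ih fun b hb => h b (by simp [hb]))

omit [DecidableEq α] in
theorem replicate_sublist_of_le {m n : ℕ} (a : α) (h : m ≤ n) :
    (replicate m a).Sublist (replicate n a) := (replicate_sublist_replicate a).2 h

theorem count_flatMap_replicate (ts : List α) (hts : ts.Nodup) (f : α → ℕ) (c : α) :
    (ts.flatMap fun t => replicate (f t) t).count c = if c ∈ ts then f c else 0 := by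
  induction ts with
  | nil => simp
  | cons t ts ih =>
    rw [nodup_cons] at hts
    rw [flatMap_cons, count_append, ih hts.2, count_replicate]
    by_cases h1 : t = c
    · subst h1
      simp [hts.1]
    · have h2 : c ≠ t := fun h => h1 h.symm
      simp [h1, h2]

theorem flatMap_count_perm (ts : List α) (hts : ts.Nodup) (P : List α) (h : ∀ a ∈ P, a ∈ ts) :
    (ts.flatMap fun t => replicate (P.count t) t).Perm P := by
  refine perm_iff_count.2 fun c => ?_
  rw [count_flatMap_replicate ts hts]
  split_ifs with hc
  · rfl
  · exact (count_eq_zero.2 fun h' => hc (h c h')).symm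

end

/-- The parts of a word: at most `W` idle blocks if the idle time is at most `W`. -/
theorem length_idle_le (l : List Letter) (hpos : ∀ a ∈ l, 0 < a.2) :
    (l.filter fun a => !a.1).length ≤ idle l := by
  induction l with
  | nil => simp
  | cons a l ih =>
    have h1 := ih fun b hb => hpos b (by simp [hb])
    have h2 := hpos a (by simp)
    obtain ⟨b, a⟩ := a
    cases b
    · simp only [idle_false, Bool.not_false, filter_cons_of_pos, length_cons]
      omega
    · simpa using h1

/-- The normal form when there are few different lengths. -/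
theorem normal_few (F : Finset ℕ) {τ W h : ℕ} (hF : F.card ≤ τ) (ts : List ℕ) (hts : ts.Nodup)
    (hlen : ts.length ≤ 2 * τ) (hh : hExc τ (2 * τ + W) ≤ h) (l : List Letter) (s : ℕ)
    (hok : Ok F Prod.snd s l) (hpos : ∀ a ∈ l, 0 < a.2) (hjobs : ∀ a ∈ jobs l, a ∈ ts)
    (hW : idle l ≤ W) :
    ∃ l', l'.Perm l ∧ Ok F Prod.snd s l' ∧
      (mainSizes τ h ts (jobs l)).Sublist (jobs l') := by
  classical
  set n := ts.length with hn
  let K := idle l + 1
  let code : Letter → ℕ := fun a => if a.1 then K + (n - ts.idxOf a.2) else a.2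
  let σ : ℕ → ℕ := fun c => if c < K then c else ts.getD (n - (c - K)) 0
  let dec : ℕ → Letter := fun c => (decide (K ≤ c), σ c)
  have hidle : ∀ d, (false, d) ∈ l → d < K := by
    intro d hd
    have h1 : d ∈ (l.filter fun a => !a.1).map Prod.snd :=
      mem_map.2 ⟨(false, d), mem_filter.2 ⟨hd, rfl⟩, rfl⟩
    have h2 : d ≤ idle l := List.le_sum_of_mem h1
    omega
  have hjob : ∀ a, (true, a) ∈ l → a ∈ ts := by
    intro a ha
    exact hjobs a (mem_map.2 ⟨(true, a), mem_filter.2 ⟨ha, rfl⟩, rfl⟩)
  have hdec : ∀ a ∈ l, dec (code a) = a := by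
    rintro ⟨b, a⟩ ha
    cases b
    · have h1 := hidle a ha
      simp only [code, dec, σ, Bool.false_eq_true, if_false, h1, if_true]
      rw [decide_eq_false (by omega)]
    · have h1 := hjob a ha
      have h2 : ts.idxOf a < n := idxOf_lt_length_iff.2 h1
      have h3 : ¬ (K + (n - ts.idxOf a) < K) := by omega
      simp only [code, dec, σ, if_true, h3, if_false]
      rw [decide_eq_true (by omega)]
      congr 1
      have h4 : n - (K + (n - ts.idxOf a) - K) = ts.idxOf a := by omega
      rw [h4, List.getD_eq_getElem?_getD, List.getElem?_eq_getElem h2, Option.getD_some]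
      exact getElem_idxOf h2
  have hσ : ∀ a ∈ l, σ (code a) = a.2 := fun a ha => congrArg Prod.snd (hdec a ha)
  set w := l.map code with hw
  have hokw : Ok F σ s w := by
    rw [hw, ok_map]
    exact (ok_congr hσ).2 hok
  let L := w.toFinset
  have hL : ∀ c ∈ w, c ∈ L ∧ 0 < σ c := by
    intro c hc
    refine ⟨by simpa [L] using hc, ?_⟩
    obtain ⟨a, ha, rfl⟩ := mem_map.1 hc
    rw [hσ a ha]
    exact hpos a ha
  have hLcard : L.card ≤ 2 * τ + W := by
    have h1 : L ⊆ (ts.map fun a => code (true, a)).toFinset ∪
        ((l.filter fun a => !a.1).map code).toFinset := by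
      intro c hc
      have hc : c ∈ w := by simpa [L] using hc
      obtain ⟨⟨b, a⟩, ha, rfl⟩ := mem_map.1 hc
      rw [Finset.mem_union, mem_toFinset, mem_toFinset]
      cases b
      · exact Or.inr (mem_map.2 ⟨_, mem_filter.2 ⟨ha, rfl⟩, rfl⟩)
      · exact Or.inl (mem_map.2 ⟨a, hjob a ha, rfl⟩)
    refine (Finset.card_le_card h1).trans ((Finset.card_union_le _ _).trans ?_)
    have h2 := toFinset_card_le (ts.map fun a => code (true, a))
    have h3 := toFinset_card_le ((l.filter fun a => !a.1).map code)
    rw [length_map] at h2 h3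
    have h4 := length_idle_le l hpos
    omega
  obtain ⟨w', m, hp, hok', hsub, hsorted, hlen'⟩ := exists_sorted F σ s w hokw L hL hF hLcard
  have hmem : ∀ c ∈ w', ∃ a ∈ l, code a = c := fun c hc => mem_map.1 (hp.mem_iff.1 hc)
  have hperm : (w'.map dec).Perm l := by
    refine (hp.map dec).trans ?_
    rw [hw, map_map]
    have : l.map (dec ∘ code) = l := by
      conv_rhs => rw [← map_id l]
      exact map_congr_left fun a ha => hdec a ha
    rw [this]
  refine ⟨w'.map dec, hperm, ?_, ?_⟩
  · rw [ok_map]; exact hok'
  · set mj := jobs (m.map dec) with hmj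
    have hsub1 : mj.Sublist (jobs (w'.map dec)) := jobs_sublist (hsub.map dec)
    have hcount : ∀ t, (jobs (w'.map dec)).count t = (jobs l).count t := fun t =>
      (jobs_perm hperm).count_eq t
    have hmj' : mj = (m.filter fun c => decide (K ≤ c)).map σ := by
      rw [hmj]; unfold jobs
      rw [filter_map, map_map]
      rfl
    have hlen1 : (jobs (w'.map dec)).length ≤ mj.length + hExc τ (2 * τ + W) := by
      have h1 := filter_sublist_length hsub (fun c => decide (K ≤ c))
      have h2 : (jobs (w'.map dec)).length = (w'.filter fun c => decide (K ≤ c)).length := by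
        unfold jobs
        rw [filter_map, map_map, length_map]
        rfl
      have h3 : mj.length = (m.filter fun c => decide (K ≤ c)).length := by
        rw [hmj', length_map]
      omega
    have hmjts : ∀ a ∈ mj, a ∈ ts := fun a ha =>
      hjobs a ((jobs_perm hperm).mem_iff.1 (hsub1.subset ha))
    have hcode : ∀ c ∈ m, K ≤ c → σ c ∈ ts ∧ c = K + (n - ts.idxOf (σ c)) := by
      intro c hc hKc
      obtain ⟨⟨b, a⟩, ha, hac⟩ := hmem c (hsub.subset hc)
      cases b
      · exfalso
        have h1 := hidle a ha
        have h2 : code (false, a) = a := rfl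
        omega
      · have h1 : σ c = a := by rw [← hac]; exact hσ _ ha
        rw [h1]
        exact ⟨hjob a ha, hac.symm⟩
    have hmjsorted : mj.Pairwise (fun a b => ts.idxOf a ≤ ts.idxOf b) := by
      rw [hmj', pairwise_map]
      refine ((hsorted.filter _).imp_of_mem ?_)
      intro c c' hc hc' hcc
      have h1 := mem_filter.1 hc
      have h2 := mem_filter.1 hc'
      obtain ⟨e1, e2⟩ := hcode c h1.1 (by simpa using h1.2)
      obtain ⟨e3, e4⟩ := hcode c' h2.1 (by simpa using h2.2)
      have e5 : ts.idxOf (σ c) < n := idxOf_lt_length_iff.2 e1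
      have e6 : ts.idxOf (σ c') < n := idxOf_lt_length_iff.2 e3
      omega
    have hmjeq : (ts.flatMap fun t => replicate (mj.count t) t) = mj := by
      refine List.Perm.eq_of_pairwise (le := fun a b => ts.idxOf a ≤ ts.idxOf b) ?_ ?_
        hmjsorted (flatMap_count_perm ts hts mj hmjts)
      · intro a b ha hb h1 h2
        have hb' := hmjts b hb
        have hidx : ts.idxOf a = ts.idxOf b := le_antisymm h1 h2
        exact ((idxOf_inj hb').1 hidx.symm).symm
      · rw [pairwise_flatMap]
        refine ⟨fun a _ => by simp [pairwise_replicate], ?_⟩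
        have h1 : ts.Pairwise (fun a b => ts.idxOf a ≤ ts.idxOf b) := by
          rw [pairwise_iff_getElem]
          intro i j hi hj hij
          rw [hts.idxOf_getElem i hi, hts.idxOf_getElem j hj]
          omega
        refine h1.imp fun {a b} hab x hx y hy => ?_
        rw [(mem_replicate.1 hx).2, (mem_replicate.1 hy).2]
        exact hab
    refine Sublist.trans ?_ hsub1
    rw [← hmjeq]
    unfold mainSizes
    rw [take_of_length_le (by omega), drop_of_length_le (by omega), flatMap_nil, append_nil]
    refine flatMap_sublist ts _ _ fun t _ => replicate_sublist_of_le t ?_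
    have h1 := count_sublist_length hsub1 t
    rw [hcount] at h1
    omega

/-- The normal form when there are many different lengths. -/
theorem normal_many (F : Finset ℕ) {τ h : ℕ} (hF : F.card ≤ τ) (ts : List ℕ) (hts : ts.Nodup)
    (hlen : 2 * τ < ts.length) (hh : 1 ≤ h) (l : List Letter) (s : ℕ)
    (hok : Ok F Prod.snd s l) (hpos : ∀ a ∈ l, 0 < a.2)
    (hjobs : ∀ a, a ∈ jobs l ↔ a ∈ ts) :
    ∃ l', (jobs l').Perm (jobs l) ∧ idle l' = idle l ∧ (∀ a ∈ l', 0 < a.2) ∧
      Ok F Prod.snd s l' ∧ (mainSizes τ h ts (jobs l)).Sublist (jobs l') := by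
  classical
  set P := jobs l with hP
  have htspos : ∀ t ∈ ts, 0 < t := by
    intro t ht
    obtain ⟨a, ha, rfl⟩ := mem_map.1 ((hjobs t).2 ht)
    exact hpos a (mem_filter.1 ha).1
  let T := ts.take (2 * τ + 1)
  let U := ts.drop (2 * τ + 1)
  have hTU : T ++ U = ts := take_append_drop _ _
  let R₀ : List ℕ := (T.flatMap fun t => replicate (P.count t - 1) t) ++
    (U.flatMap fun t => replicate (P.count t) t)
  let D : List Letter := T.map fun a => (true, a)
  let R : List Letter := (R₀.map fun a => (true, a)) ++
    (if 0 < idle l then [(false, idle l)] else [])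
  have hTnd : T.Nodup := hts.sublist (take_sublist _ _)
  have hUnd : U.Nodup := hts.sublist (drop_sublist _ _)
  have hTU' : ∀ t ∈ T, t ∉ U := by
    rw [← hTU, nodup_append] at hts
    intro t ht hu
    exact hts.2.2 t ht t hu rfl
  have hperm0 : (R₀ ++ T).Perm P := by
    refine perm_iff_count.2 fun c => ?_
    simp only [R₀, count_append]
    rw [count_flatMap_replicate T hTnd, count_flatMap_replicate U hUnd]
    have h1 : T.count c = if c ∈ T then 1 else 0 := by
      split_ifs with h
      · exact count_eq_one_of_mem hTnd h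
      · exact count_eq_zero.2 h
    rw [h1]
    by_cases hT : c ∈ T
    · have hU := hTU' c hT
      have h2 : 0 < P.count c := count_pos_iff.2 ((hjobs c).2 (by rw [← hTU]; simp [hT]))
      simp only [hT, if_true, hU, if_false]
      omega
    · by_cases hU : c ∈ U
      · simp [hT, hU]
      · have h2 : P.count c = 0 := count_eq_zero.2 fun h => by
          have := (hjobs c).1 h
          rw [← hTU, mem_append] at this
          exact this.elim hT hU
        simp [hT, hU, h2]
  have hjobsR : jobs R = R₀ := by
    simp only [R]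
    split_ifs <;> simp [jobs_map_true]
  have hidleR : idle R = idle l := by
    simp only [R]
    split_ifs with h
    · simp [idle_map_true]
    · simp only [append_nil, idle_map_true]; omega
  have hD1 : (D.map Prod.snd) = T := by
    simp only [D, map_map]
    exact map_id T
  have hlenRD : len Prod.snd R + len Prod.snd D = len Prod.snd l := by
    rw [len_snd, len_snd, len_snd, hjobsR, hidleR]
    have h1 : jobs D = T := jobs_map_true T
    have h2 : idle D = 0 := idle_map_true T
    have h3 := hperm0.sum_eq
    rw [sum_append] at h3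
    rw [h1, h2, ← hP]
    omega
  have hRpos : ∀ a ∈ R, 0 < a.2 := by
    intro a ha
    simp only [R, mem_append, mem_map] at ha
    rcases ha with ⟨x, hx, rfl⟩ | ha
    · have : x ∈ P := hperm0.mem_iff.1 (by simp [hx])
      exact htspos x ((hjobs x).1 this)
    · split_ifs at ha with h
      · rw [mem_singleton] at ha; subst ha; exact h
      · simp at ha
  have hDpos : ∀ a ∈ D, 0 < a.2 := by
    intro a ha
    obtain ⟨x, hx, rfl⟩ := mem_map.1 ha
    exact htspos x (mem_of_mem_take hx)
  have hab := above_le F s
  obtain ⟨l', h1, h2, h3⟩ := exists_insertion (F := F) (σ := Prod.snd) R D s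
    (by rw [hD1]; exact hTnd) hDpos hRpos (by
      have : D.length = 2 * τ + 1 := by
        simp only [D, length_map, T, length_take]
        omega
      omega) hok.start (by
      rw [add_assoc, hlenRD]; exact hok.end)
  refine ⟨l', ?_, ?_, ?_, h3, ?_⟩
  · refine (jobs_perm h2).trans ?_
    rw [jobs_append, hjobsR]
    have h1 : jobs D = T := jobs_map_true T
    rw [h1]
    exact hperm0
  · rw [idle_perm h2, idle_append, hidleR]
    have h2 : idle D = 0 := idle_map_true T
    omega
  · intro a ha
    rcases mem_append.1 (h2.mem_iff.1 ha) with h | h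
    · exact hRpos a h
    · exact hDpos a h
  · refine Sublist.trans ?_ (jobs_sublist h1)
    rw [hjobsR]
    unfold mainSizes
    refine Sublist.append ?_ (Sublist.refl _)
    exact flatMap_sublist _ _ _ fun t _ => replicate_sublist_of_le t (by omega)

/-- The normal form in general. -/
theorem normal_form (F : Finset ℕ) {τ W h : ℕ} (hF : F.card ≤ τ) (ts : List ℕ) (hts : ts.Nodup)
    (hh : hExc τ (2 * τ + W) + 1 ≤ h) (l : List Letter) (s : ℕ)
    (hok : Ok F Prod.snd s l) (hpos : ∀ a ∈ l, 0 < a.2)
    (hjobs : ∀ a, a ∈ jobs l ↔ a ∈ ts) (hW : idle l ≤ W) :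
    ∃ l', (jobs l').Perm (jobs l) ∧ idle l' = idle l ∧ (∀ a ∈ l', 0 < a.2) ∧
      Ok F Prod.snd s l' ∧ (mainSizes τ h ts (jobs l)).Sublist (jobs l') := by
  rcases Nat.lt_or_ge (2 * τ) ts.length with hlen | hlen
  · exact normal_many F hF ts hts hlen (by omega) l s hok hpos hjobs
  · obtain ⟨l', h1, h2, h3⟩ := normal_few F hF ts hts hlen (by omega) l s hok hpos
      (fun a ha => (hjobs a).1 ha) hW (h := h)
    exact ⟨l', jobs_perm h1, idle_perm h1, fun a ha => hpos a (h1.mem_iff.1 ha), h2, h3⟩

/-- Greedy scheduling with little idle time. -/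
theorem greedy (F : Finset ℕ) : ∀ (P : List ℕ) (x : ℕ), (∀ p ∈ P, 0 < p) → x ∉ F →
    ∃ l : List Letter, Ok F Prod.snd x l ∧ jobs l = P ∧ (∀ a ∈ l, 0 < a.2) ∧
      idle l ≤ 2 * F.card * above F x
  | [], x, _, hx => ⟨[], hx, rfl, by simp, by simp⟩
  | p :: P, x, hpos, hx => by
    have hp := hpos p (by simp)
    have hP : ∀ p ∈ P, 0 < p := fun q hq => hpos q (by simp [hq])
    by_cases hF : x + p ∈ F
    · obtain ⟨y, hy, hy'⟩ := avoid F 2 (2 * F.card + 1) (by omega)
        (fun i y => if i = 0 then x + y else x + y + p) (by
          intro i _ y _ y' _ he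
          split_ifs at he <;> omega)
      have h0 : x + y ∉ F := by simpa using hy' 0 (by omega)
      have h1 : x + y + p ∉ F := by simpa using hy' 1 (by omega)
      have hy0 : 0 < y := by
        rcases Nat.eq_zero_or_pos y with h | h
        · subst h
          exact absurd hF h1
        · exact h
      obtain ⟨l, e1, e2, e3, e4⟩ := greedy F P (x + y + p) hP h1
      refine ⟨(false, y) :: (true, p) :: l, ⟨hx, h0, e1⟩, by simp [e2], ?_, ?_⟩
      · intro a ha
        rcases mem_cons.1 ha with rfl | ha
        · exact hy0
        · rcases mem_cons.1 ha with rfl | ha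
          · exact hp
          · exact e3 a ha
      · have hab := above_lt (F := F) (u := x) (v := x + y + p) (f := x + p) (by omega)
          (by omega) hF
        have h2 := Nat.mul_le_mul_left (2 * F.card) hab
        rw [Nat.mul_add, Nat.mul_one] at h2
        simp only [idle_false, idle_true]
        omega
    · obtain ⟨l, e1, e2, e3, e4⟩ := greedy F P (x + p) hP hF
      refine ⟨(true, p) :: l, ⟨hx, e1⟩, by simp [e2], ?_, ?_⟩
      · intro a ha
        rcases mem_cons.1 ha with rfl | ha
        · exact hp
        · exact e3 a ha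
      · simp only [idle_true]
        exact e4.trans (Nat.mul_le_mul_left _ (above_mono (by omega)))

/-- The bound for the idle time. -/
def Wv (τ : ℕ) : ℕ := (2 * τ + 1) * τ

theorem exists_small_idle (F : Finset ℕ) {τ : ℕ} (hF : F.card ≤ τ) (P : List ℕ)
    (hpos : ∀ p ∈ P, 0 < p) : ∃ (s : ℕ) (l : List Letter), Ok F Prod.snd s l ∧ jobs l = P ∧
      (∀ a ∈ l, 0 < a.2) ∧ s + idle l ≤ Wv τ := by
  obtain ⟨s, hs, hs'⟩ := avoid F 1 (F.card + 1) (by omega) (fun _ y => y)
    (fun _ _ _ _ _ _ h => h)
  obtain ⟨l, h1, h2, h3, h4⟩ := greedy F P s hpos (hs' 0 (by omega))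
  refine ⟨s, l, h1, h2, h3, ?_⟩
  have h5 : 2 * F.card * above F s ≤ 2 * τ * τ :=
    Nat.mul_le_mul (by omega) ((above_le F s).trans hF)
  have h6 : Wv τ = 2 * τ * τ + τ := by unfold Wv; ring
  omega

end Pool.Agent.Lib.MP_5dd24d_lc
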