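import Pool.Agent.Lib.MP_5dd24d_lc.BNum

/-!
# The steps of the search are polynomial-time computable
-/

namespace Pool.Agent.Lib.MP_5dd24d_lc

open Pool.Agent.PolyTime Function Pool.Agent.Lib.MP_7fc3ed_lc

variable {α β γ δ σ : Type*} [Rep α] [Rep β] [Rep γ] [Rep δ] [Rep σ]

theorem pt_contains' [InjRep β] [DecidableEq β] {x : α → β} {l : α → List β} (hx : PT x)
    (hl : PT l) : PT (fun a => (l a).contains (x a)) :=
  (PT.contains hx hl).congr fun a => by simp

theorem pt_can {F : α → List BN} {x : α → BN} {j : α → Item} (hF : PT F) (hx : PT x)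
    (hj : PT j) : PT (fun a => can (F a) (x a) (j a)) :=
  PT.and (PT.not (pt_contains' hx hF)) (PT.not (pt_contains' (pt_BN_add hx hj.fst) hF))

/-- The result of starting a job. -/
def mkStep (x : BN) (M : List Item) (E : List (List Item)) (w : ℕ) (j : Item) :
    Option ℕ × St := (some j.2, (x.add j.1, (M, (E, w))))

theorem pt_mkStep {x : α → BN} {M : α → List Item} {E : α → List (List Item)} {w : α → ℕ}
    {j : α → Item} (hx : PT x) (hM : PT M) (hE : PT E) (hw : PT w) (hj : PT j) :
    PT (fun a => mkStep (x a) (M a) (E a) (w a) (j a)) :=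
  PT.pair (PT.some hj.snd) (PT.pair (pt_BN_add hx hj.fst) (PT.pair hM (PT.pair hE hw)))

theorem pt_nextL {F : α → List BN} {s : α → St} (hF : PT F) (hs : PT s) :
    PT (fun a => nextL (F a) (s a)) := by
  have hE : PT (fun a => (s a).2.2.1) := hs.snd.snd.fst
  have hw : PT (fun a => (s a).2.2.2) := hs.snd.snd.snd
  have hM : PT (fun a => (s a).2.1) := hs.snd.fst
  have hx : PT (fun a => (s a).1) := hs.fst
  have h1 : PT (fun a => if (s a).2.2.2 = 0 then ([] : List (Option ℕ × St)) else
      [(none, ((s a).1.add ⟨1⟩, ((s a).2.1, ((s a).2.2.1, (s a).2.2.2 - 1))))]) :=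
    PT.iteProp (PT.isZero hw) (PT.const [])
      (PT.cons (PT.pair (PT.const none) (PT.pair (pt_BN_add hx (PT.const _))
        (PT.pair hM (PT.pair hE (PT.sub hw (PT.const 1)))))) (PT.const []))
  have h2 : PT (fun a => ((s a).2.1.take 1).flatMap fun j =>
      if can (F a) (s a).1 j = true then
        [mkStep (s a).1 (s a).2.1.tail (s a).2.2.1 (s a).2.2.2 j] else []) := by
    refine PT.flatMap (g := fun a j => if can (F a) (s a).1 j = true then
        [mkStep (s a).1 (s a).2.1.tail (s a).2.2.1 (s a).2.2.2 j] else [])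
        (PT.take hM (PT.const 1)) ?_
    exact PT.ite (pt_can (hF.comp PT.id.fst) (hx.comp PT.id.fst) PT.id.snd)
      (PT.cons (pt_mkStep (hx.comp PT.id.fst) (PT.tail (hM.comp PT.id.fst))
        (hE.comp PT.id.fst) (hw.comp PT.id.fst) PT.id.snd) (PT.const [])) (PT.const [])
  have h3 : PT (fun a => (List.range (s a).2.2.1.length).flatMap fun t =>
      (((s a).2.2.1.getD t []).take 1).flatMap fun j => if can (F a) (s a).1 j = true then
        [mkStep (s a).1 (s a).2.1 ((s a).2.2.1.set t ((s a).2.2.1.getD t []).tail)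
          (s a).2.2.2 j] else []) := by
    refine PT.flatMap (g := fun a t => (((s a).2.2.1.getD t []).take 1).flatMap fun j =>
      if can (F a) (s a).1 j = true then
        [mkStep (s a).1 (s a).2.1 ((s a).2.2.1.set t ((s a).2.2.1.getD t []).tail)
          (s a).2.2.2 j] else []) (PT.range (PT.length hE)) ?_
    refine PT.flatMap (α := α × ℕ) (l := fun p => ((s p.1).2.2.1.getD p.2 []).take 1)
      (g := fun p j => if can (F p.1) (s p.1).1 j = true then
        [mkStep (s p.1).1 (s p.1).2.1 ((s p.1).2.2.1.set p.2 ((s p.1).2.2.1.getD p.2 []).tail)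
          (s p.1).2.2.2 j] else [])
      (PT.take (PT.listGetD (hE.comp PT.id.fst) PT.id.snd (PT.const [])) (PT.const 1)) ?_
    exact PT.ite (pt_can (hF.comp PT.id.fst.fst) (hx.comp PT.id.fst.fst) PT.id.snd)
      (PT.cons (pt_mkStep (hx.comp PT.id.fst.fst) (hM.comp PT.id.fst.fst)
        (PT.set (hE.comp PT.id.fst.fst) PT.id.fst.snd
          (PT.tail (PT.listGetD (hE.comp PT.id.fst.fst) PT.id.fst.snd (PT.const []))))
        (hw.comp PT.id.fst.fst) PT.id.snd) (PT.const [])) (PT.const [])
  exact PT.append h1 (PT.append h2 h3)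

end Pool.Agent.Lib.MP_5dd24d_lc
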