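import Pool.Agent.Lib.MP_5dd24d_lc.Exchange

/-!
# Feasible words that are sorted up to boundedly many letters
-/

namespace Pool.Agent.Lib.MP_5dd24d_lc

open List

/-! ### Ascents and sorted segments -/

/-- The number of ascents. -/
def asc : List ℕ → ℕ
  | [] => 0
  | [_] => 0
  | b :: a :: w => (if b < a then 1 else 0) + asc (a :: w)

/-- The potential bounding the number of ascents. -/
def pot (F : Finset ℕ) (σ : ℕ → ℕ) (L : Finset ℕ) (u : ℕ) : ℕ :=
  ∑ a ∈ L, (F.filter fun f => u + σ a ≤ f).card

theorem pot_le (F : Finset ℕ) (σ : ℕ → ℕ) (L : Finset ℕ) (u : ℕ) :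
    pot F σ L u ≤ L.card * F.card := by
  unfold pot
  exact Finset.sum_le_card_nsmul _ _ _ fun a _ => Finset.card_filter_le _ _

theorem pot_mono (F : Finset ℕ) (σ : ℕ → ℕ) (L : Finset ℕ) {u v : ℕ} (h : u ≤ v) :
    pot F σ L v ≤ pot F σ L u := by
  unfold pot
  refine Finset.sum_le_sum fun a _ => Finset.card_le_card fun f hf => ?_
  simp only [Finset.mem_filter] at hf ⊢
  exact ⟨hf.1, by omega⟩

theorem pot_lt (F : Finset ℕ) (σ : ℕ → ℕ) (L : Finset ℕ) {u v a : ℕ} (h : u < v) (ha : a ∈ L)
    (hF : u + σ a ∈ F) : pot F σ L v + 1 ≤ pot F σ L u := by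
  unfold pot
  rw [Nat.add_one_le_iff]
  refine Finset.sum_lt_sum (fun c _ => Finset.card_le_card fun f hf => ?_) ⟨a, ha, ?_⟩
  · simp only [Finset.mem_filter] at hf ⊢
    exact ⟨hf.1, by omega⟩
  · refine Finset.card_lt_card ⟨fun f hf => ?_, fun hsub => ?_⟩
    · simp only [Finset.mem_filter] at hf ⊢
      exact ⟨hf.1, by omega⟩
    · have := hsub (show u + σ a ∈ F.filter (fun f => u + σ a ≤ f) by simp [hF])
      simp only [Finset.mem_filter] at this
      omega

theorem asc_le (F : Finset ℕ) (σ : ℕ → ℕ) (L : Finset ℕ) : ∀ (w : List ℕ) (u : ℕ),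
    (∀ a ∈ w, a ∈ L ∧ 0 < σ a) →
    (∀ U b a V, w = U ++ b :: a :: V → b < a → u + len σ U + σ a ∈ F) →
    asc w ≤ pot F σ L u
  | [], _, _, _ => by simp [asc]
  | [_], _, _, _ => by simp [asc]
  | b :: a :: w, u, hL, h => by
    have ih := asc_le F σ L (a :: w) (u + σ b) (fun c hc => hL c (by simp [hc])) (by
      intro U b' a' V hw hlt
      have := h (b :: U) b' a' V (by rw [hw]; rfl) hlt
      simpa [add_assoc] using this)
    unfold asc
    have hb := (hL b (by simp)).2
    split_ifs with hba
    · have h1 := h [] b a w rfl hba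
      simp only [len_nil, add_zero] at h1
      have := pot_lt F σ L (v := u + σ b) (by omega) (hL a (by simp)).1 h1
      omega
    · have := pot_mono F σ L (show u ≤ u + σ b by omega)
      omega

/-- A word with few ascents is the concatenation of few sorted segments. -/
theorem exists_segs : ∀ w : List ℕ, w ≠ [] → ∃ (s : List ℕ) (S : List (List ℕ)),
    (s :: S).flatten = w ∧ s ≠ [] ∧ (∀ t ∈ s :: S, t.Pairwise (· ≥ ·)) ∧ S.length ≤ asc w
  | [], h => absurd rfl h
  | [a], _ => ⟨[a], [], by simp, by simp, by simp, by simp [asc]⟩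
  | b :: a :: w, _ => by
    obtain ⟨s, S, h1, h2, h3, h4⟩ := exists_segs (a :: w) (by simp)
    by_cases hba : b < a
    · refine ⟨[b], s :: S, by rw [flatten_cons, h1]; rfl, by simp, ?_, ?_⟩
      · intro t ht
        rcases mem_cons.1 ht with rfl | ht
        · simp
        · exact h3 t ht
      · simp only [length_cons, asc, if_pos hba]; omega
    · refine ⟨b :: s, S, by rw [flatten_cons, cons_append, ← flatten_cons, h1], by simp, ?_, ?_⟩
      · intro t ht
        rcases mem_cons.1 ht with rfl | ht
        · rw [pairwise_cons]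
          have hs := h3 s (by simp)
          obtain ⟨c, s', rfl⟩ := exists_cons_of_ne_nil h2
          have hc : c = a := by
            simp only [flatten_cons, cons_append, cons.injEq] at h1
            exact h1.1
          subst hc
          refine ⟨fun x hx => ?_, hs⟩
          rcases mem_cons.1 hx with rfl | hx
          · exact not_lt.1 hba
          · exact (rel_of_pairwise_cons hs hx).trans (not_lt.1 hba)
        · exact h3 t (by simp [ht])
      · simp only [asc, if_neg hba]; omega

/-- The word with blocks `bs`. -/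
def unblock (bs : List (ℕ × ℕ)) : List ℕ := bs.flatMap fun p => replicate p.1 p.2

@[simp] theorem unblock_nil : unblock [] = [] := rfl
@[simp] theorem unblock_cons (p : ℕ × ℕ) (bs : List (ℕ × ℕ)) :
    unblock (p :: bs) = replicate p.1 p.2 ++ unblock bs := rfl
@[simp] theorem unblock_append (bs bs' : List (ℕ × ℕ)) :
    unblock (bs ++ bs') = unblock bs ++ unblock bs' := by simp [unblock]

/-- A sorted word with letters in `L` has one block for each letter. -/
theorem exists_blocks_sorted (L : Finset ℕ) (s : List ℕ) (hs : s.Pairwise (· ≥ ·))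
    (hL : ∀ a ∈ s, a ∈ L) : ∃ bs : List (ℕ × ℕ), unblock bs = s ∧ bs.length = L.card := by
  refine ⟨(L.sort (· ≥ ·)).map fun a => (s.count a, a), ?_, by simp⟩
  have hsort : (L.sort (· ≥ ·)).Pairwise (· ≥ ·) := Finset.pairwise_sort _ _
  have hnd : (L.sort (· ≥ ·)).Nodup := Finset.sort_nodup _ _
  refine List.Perm.eq_of_pairwise (le := (· ≥ ·)) (fun a b _ _ h1 h2 => le_antisymm h2 h1) ?_ hs ?_
  · unfold unblock
    rw [flatMap_map, pairwise_flatMap]
    refine ⟨fun a _ => ?_, ?_⟩
    · simp [pairwise_replicate]
    · refine hsort.imp fun {a b} hab x hx y hy => ?_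
      rw [(mem_replicate.1 hx).2, (mem_replicate.1 hy).2]
      exact hab
  · refine perm_iff_count.2 fun c => ?_
    unfold unblock
    rw [flatMap_map, count_flatMap]
    have e1 : (L.sort (· ≥ ·)).map (count c ∘ fun a => replicate (s.count a) a) =
        (L.sort (· ≥ ·)).map (fun a => if a = c then s.count c else 0) := by
      refine map_congr_left fun a _ => ?_
      simp only [Function.comp, count_replicate]
      by_cases h : a = c <;> simp [h]
    have e2 : ((L.sort (· ≥ ·)).map (fun a => if a = c then s.count c else 0)).sum =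
        ∑ a ∈ L, if a = c then s.count c else 0 := by
      rw [Finset.sum_eq_multiset_sum, ← Multiset.sum_coe, ← Multiset.map_coe, Finset.sort_eq]
    rw [e1, e2, Finset.sum_ite_eq']
    split_ifs with h
    · rfl
    · exact (count_eq_zero.2 fun hc => h (hL c hc)).symm

/-- A lexicographically maximal word has few blocks. -/
theorem LexMax.exists_blocks {F : Finset ℕ} {σ : ℕ → ℕ} {u : ℕ} {w : List ℕ}
    (h : LexMax F σ u w) (L : Finset ℕ) (hL : ∀ a ∈ w, a ∈ L ∧ 0 < σ a) :
    ∃ bs : List (ℕ × ℕ), unblock bs = w ∧ bs.length ≤ (L.card * F.card + 1) * L.card := by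
  by_cases hw : w = []
  · exact ⟨[], by simp [hw], by simp⟩
  have h1 : asc w ≤ L.card * F.card := by
    refine (asc_le F σ L w u hL ?_).trans (pot_le F σ L u)
    intro U b a V hwU hba
    subst hwU
    exact h.ascent hba
  obtain ⟨s, S, h2, _, h3, h4⟩ := exists_segs w hw
  have h5 : ∀ T : List (List ℕ), (∀ t ∈ T, t.Pairwise (· ≥ ·)) → (∀ t ∈ T, ∀ a ∈ t, a ∈ L) →
      ∃ bs : List (ℕ × ℕ), unblock bs = T.flatten ∧ bs.length = T.length * L.card := by
    intro T
    induction T with
    | nil => exact fun _ _ => ⟨[], by simp, by simp⟩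
    | cons t T ih =>
      intro g1 g2
      obtain ⟨bs, e1, e2⟩ := ih (fun t' ht' => g1 t' (by simp [ht']))
        (fun t' ht' => g2 t' (by simp [ht']))
      obtain ⟨bs', e3, e4⟩ := exists_blocks_sorted L t (g1 t (by simp)) (g2 t (by simp))
      refine ⟨bs' ++ bs, by rw [unblock_append, e1, e3, flatten_cons], ?_⟩
      rw [length_append, e2, e4, length_cons]
      ring
  obtain ⟨bs, e1, e2⟩ := h5 (s :: S) h3 (fun t ht a ha => (hL a (by
    rw [← h2]; exact mem_flatten.2 ⟨t, ht, ha⟩)).1)
  refine ⟨bs, by rw [e1, h2], ?_⟩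
  rw [e2]
  refine Nat.mul_le_mul_right _ ?_
  simp only [length_cons]
  omega

/-! ### Scales -/

/-- The scales: runs are short below one scale and long above the next one. -/
def scale (τ ρ : ℕ) : ℕ → ℕ
  | 0 => 1
  | i + 1 => Lam τ (ρ * scale τ ρ i) + scale τ ρ i

theorem scale_mono (τ ρ : ℕ) : Monotone (scale τ ρ) :=
  monotone_nat_of_le_succ fun i => by rw [scale]; omega

/-- Some gap between consecutive scales contains no element of a short list. -/
theorem exists_gap (τ ρ : ℕ) (l : List ℕ) (hl : l.length ≤ ρ) :
    ∃ i ≤ ρ, ∀ x ∈ l, x < scale τ ρ i ∨ scale τ ρ (i + 1) ≤ x := by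
  classical
  by_contra hcon
  push Not at hcon
  choose! x hx hx1 hx2 using hcon
  have hcard : l.toFinset.card < (Finset.range (ρ + 1)).card := by
    rw [Finset.card_range]
    exact Nat.lt_succ_of_le ((toFinset_card_le l).trans hl)
  obtain ⟨i, hi, j, hj, hne, heq⟩ := Finset.exists_ne_map_eq_of_card_lt_of_maps_to hcard
    (f := x) (by
      intro i hi
      have hi : i < ρ + 1 := by simpa using hi
      simpa using hx i (by omega))
  rw [Finset.mem_range] at hi hj
  have core : ∀ i j, i < j → i ≤ ρ → j ≤ ρ → x i = x j → False := by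
    intro i j hij hi hj he
    have h1 := hx2 i hi
    have h2 := hx1 j hj
    have h3 := scale_mono τ ρ (show i + 1 ≤ j by omega)
    omega
  rcases Nat.lt_or_ge i j with h | h
  · exact core i j h (by omega) (by omega) heq
  · exact core j i (by omega) (by omega) (by omega) heq.symm

/-- In a filtered list consecutive elements are related if elements of the list with only
rejected elements between them are. -/
theorem pairwise_filter_of {α : Type*} (R : α → α → Prop) [Std.Refl R] [IsTrans α R]
    (p : α → Bool) : ∀ l : List α,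
    (∀ X x Y y Z, l = X ++ x :: (Y ++ y :: Z) → p x = true → p y = true →
      (∀ z ∈ Y, p z = false) → R x y) → (l.filter p).Pairwise R := by
  intro l h
  rw [← isChain_iff_pairwise]
  induction l with
  | nil => simp
  | cons a l ih =>
    have ih' := ih fun X x Y y Z he => h (a :: X) x Y y Z (by rw [he]; rfl)
    by_cases ha : p a = true
    · rw [filter_cons_of_pos ha]
      cases hf : l.filter p with
      | nil => simp
      | cons y Z =>
        rw [hf] at ih'
        rw [isChain_cons_cons]
        refine ⟨?_, ih'⟩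
        have h1 : ∃ Y Z', l = Y ++ y :: Z' ∧ (∀ z ∈ Y, p z = false) ∧ p y = true := by
          clear h ih ih'
          induction l with
          | nil => simp at hf
          | cons c l ih =>
            by_cases hc : p c = true
            · rw [filter_cons_of_pos hc] at hf
              simp only [cons.injEq] at hf
              exact ⟨[], l, by rw [hf.1]; rfl, by simp, by rw [← hf.1]; exact hc⟩
            · rw [filter_cons_of_neg hc] at hf
              obtain ⟨Y, Z', e1, e2, e3⟩ := ih hf
              refine ⟨c :: Y, Z', by rw [e1]; rfl, ?_, e3⟩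
              intro z hz
              rcases mem_cons.1 hz with rfl | hz
              · simpa using hc
              · exact e2 z hz
        obtain ⟨Y, Z', e1, e2, e3⟩ := h1
        exact h [] a Y y Z' (by rw [e1]; rfl) ha e3 e2
    · rw [filter_cons_of_neg ha]
      exact ih'

/-- The number of exceptional letters. -/
def hExc (τ N : ℕ) : ℕ := ((N * τ + 1) * N) * scale τ ((N * τ + 1) * N) ((N * τ + 1) * N)

theorem length_unblock_le (bs : List (ℕ × ℕ)) (B : ℕ) (h : ∀ p ∈ bs, p.1 ≤ B) :
    (unblock bs).length ≤ bs.length * B := by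
  induction bs with
  | nil => simp
  | cons p bs ih =>
    have h1 := ih fun q hq => h q (by simp [hq])
    have h2 := h p (by simp)
    rw [unblock_cons, length_append, length_replicate, length_cons, add_mul]
    omega

theorem unblock_filter_sublist (bs : List (ℕ × ℕ)) (p : ℕ × ℕ → Bool) :
    (unblock (bs.filter p)).Sublist (unblock bs) := by
  induction bs with
  | nil => simp
  | cons q bs ih =>
    by_cases h : p q = true
    · rw [filter_cons_of_pos h]
      exact ih.append_left _
    · rw [filter_cons_of_neg h]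
      exact ih.trans (sublist_append_right _ _)

theorem length_unblock_filter (bs : List (ℕ × ℕ)) (p : ℕ × ℕ → Bool) :
    (unblock bs).length = (unblock (bs.filter p)).length +
      (unblock (bs.filter fun q => !p q)).length := by
  induction bs with
  | nil => simp
  | cons q bs ih =>
    by_cases h : p q = true
    · have h' : ¬ (fun q => !p q) q = true := by simp [h]
      rw [filter_cons_of_pos h, filter_cons_of_neg (p := fun q => !p q) h', unblock_cons,
        unblock_cons, length_append, length_append, ih]
      omega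
    · have h' : (fun q => !p q) q = true := by simpa using h
      rw [filter_cons_of_neg h, filter_cons_of_pos (p := fun q => !p q) h', unblock_cons,
        unblock_cons, length_append, length_append, ih]
      omega

/-- **Structure theorem.** A feasible word has a feasible rearrangement which is sorted up to
boundedly many letters. -/
theorem exists_sorted (F : Finset ℕ) (σ : ℕ → ℕ) (u : ℕ) (w : List ℕ) (h : Ok F σ u w)
    (L : Finset ℕ) (hL : ∀ a ∈ w, a ∈ L ∧ 0 < σ a) {τ N : ℕ} (hF : F.card ≤ τ)
    (hN : L.card ≤ N) :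
    ∃ w' m : List ℕ, w'.Perm w ∧ Ok F σ u w' ∧ m.Sublist w' ∧ m.Pairwise (· ≥ ·) ∧
      w'.length ≤ m.length + hExc τ N := by
  obtain ⟨w', hp, hmax⟩ := exists_lexMax F σ u w h
  have hL' : ∀ a ∈ w', a ∈ L ∧ 0 < σ a := fun a ha => hL a (hp.mem_iff.1 ha)
  obtain ⟨bs, hbs, hlen⟩ := hmax.exists_blocks L hL'
  have hρ : bs.length ≤ (N * τ + 1) * N :=
    hlen.trans (Nat.mul_le_mul (Nat.add_le_add_right (Nat.mul_le_mul hN hF) 1) hN)
  unfold hExc
  set ρ := (N * τ + 1) * N with hρdef
  obtain ⟨i, hi, hgap⟩ := exists_gap τ ρ (bs.map Prod.fst) (by simpa using hρ)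
  have hgap' : ∀ p ∈ bs, p.1 < scale τ ρ i ∨ scale τ ρ (i + 1) ≤ p.1 := fun p hp =>
    hgap p.1 (mem_map_of_mem hp)
  set S := scale τ ρ i with hS
  have hS1 : 1 ≤ S := by
    have := scale_mono τ ρ (Nat.zero_le i)
    simpa [scale] using this
  have hL1 : scale τ ρ (i + 1) = Lam τ (ρ * S) + S := by rw [scale]
  rw [hL1] at hgap'
  let long : ℕ × ℕ → Bool := fun p => decide (S ≤ p.1)
  have hlong : ∀ p ∈ bs, long p = true → Lam τ (ρ * S) ≤ p.1 := by
    intro p hp h1
    have : S ≤ p.1 := by simpa [long] using h1
    rcases hgap' p hp with h2 | h2 <;> omega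
  have hshort : ∀ p : ℕ × ℕ, long p = false → p.1 ≤ S := by
    intro p h1
    have : p.1 < S := by simpa [long] using h1
    omega
  refine ⟨w', unblock (bs.filter long), hp, hmax.1, ?_, ?_, ?_⟩
  · rw [← hbs]; exact unblock_filter_sublist bs long
  · have h1 : (bs.filter long).Pairwise (fun p q => p.2 ≥ q.2) := by
      have : Std.Refl (fun p q : ℕ × ℕ => p.2 ≥ q.2) := ⟨fun p => le_refl p.2⟩
      have : IsTrans (ℕ × ℕ) (fun p q => p.2 ≥ q.2) := ⟨fun p q r h1 h2 => le_trans h2 h1⟩
      refine pairwise_filter_of _ long bs ?_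
      intro X x Y y Z he hx hy hY
      by_contra hlt
      have hlt : x.2 < y.2 := not_le.1 hlt
      have hxm : x ∈ bs := by rw [he]; simp
      have hym : y ∈ bs := by rw [he]; simp
      have hxl := hlong x hxm hx
      have hyl := hlong y hym hy
      have hlam : 2 ≤ Lam τ (ρ * S) := by unfold Lam; omega
      have hw : w' = unblock X ++ (replicate x.1 x.2 ++ (unblock Y ++
          (replicate y.1 y.2 ++ unblock Z))) := by
        rw [← hbs, he]; simp
      have hxw : x.2 ∈ w' := by
        rw [hw]
        exact mem_append_right _ (mem_append_left _ (mem_replicate.2 ⟨by omega, rfl⟩))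
      have hyw : y.2 ∈ w' := by
        rw [hw]
        exact mem_append_right _ (mem_append_right _ (mem_append_right _
          (mem_append_left _ (mem_replicate.2 ⟨by omega, rfl⟩))))
      have hYlen : (unblock Y).length ≤ ρ * S := by
        refine (length_unblock_le Y S fun p hp => hshort p (hY p hp)).trans ?_
        refine Nat.mul_le_mul_right _ ?_
        have : Y.length ≤ bs.length := by rw [he]; simp; omega
        omega
      rw [hw] at hmax
      exact hmax.no_long hlt (hL' _ hxw).2 (hL' _ hyw).2 hF hYlen hxl hyl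
    unfold unblock
    rw [pairwise_flatMap]
    refine ⟨fun a _ => by simp [pairwise_replicate], ?_⟩
    refine h1.imp fun {a b} hab x hx y hy => ?_
    rw [(mem_replicate.1 hx).2, (mem_replicate.1 hy).2]
    exact hab
  · have h1 := length_unblock_filter bs long
    have h2 : (unblock (bs.filter fun q => !long q)).length ≤ ρ * S := by
      refine (length_unblock_le _ S fun p hp => hshort p ?_).trans ?_
      · have := (mem_filter.1 hp).2
        simpa using this
      · exact Nat.mul_le_mul_right _ ((length_filter_le _ _).trans hρ)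
    have h3 : S ≤ scale τ ρ ρ := scale_mono τ ρ hi
    have h4 := Nat.mul_le_mul_left ρ h3
    rw [hbs] at h1
    omega

end Pool.Agent.Lib.MP_5dd24d_lc
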