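import Mathlib.Data.List.Sort
import Mathlib.Data.List.Lex
import Mathlib.Data.List.Count
import Mathlib.Data.Finset.Card
import Mathlib.Data.Finset.Prod
import Mathlib.Data.Multiset.Basic
import Mathlib.Tactic

/-!
# Words whose partial sums avoid a finite set
-/

namespace Pool.Agent.Lib.MP_5dd24d_lc

section basic

variable {Λ : Type*} (F : Finset ℕ) (σ : Λ → ℕ)

/-- All partial sums of the word, starting from `u`, avoid `F`. -/
def Ok : ℕ → List Λ → Prop
  | u, [] => u ∉ F
  | u, a :: w => u ∉ F ∧ Ok (u + σ a) w

/-- Total size of a word. -/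
def len (w : List Λ) : ℕ := (w.map σ).sum

@[simp] theorem len_nil : len σ ([] : List Λ) = 0 := rfl
@[simp] theorem len_cons (a : Λ) (w : List Λ) : len σ (a :: w) = σ a + len σ w := by simp [len]
@[simp] theorem len_append (v w : List Λ) : len σ (v ++ w) = len σ v + len σ w := by simp [len]
@[simp] theorem len_replicate (l : ℕ) (b : Λ) : len σ (List.replicate l b) = l * σ b := by
  simp [len]

theorem len_perm {v w : List Λ} (h : v.Perm w) : len σ v = len σ w := (h.map σ).sum_eq

variable {F σ}

theorem Ok.start {u : ℕ} {w : List Λ} (h : Ok F σ u w) : u ∉ F := by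
  cases w with
  | nil => exact h
  | cons a w => exact h.1

theorem Ok.end {u : ℕ} {w : List Λ} (h : Ok F σ u w) : u + len σ w ∉ F := by
  induction w generalizing u with
  | nil => exact h
  | cons a w ih => simpa [add_assoc] using ih h.2

theorem ok_append {u : ℕ} {v w : List Λ} :
    Ok F σ u (v ++ w) ↔ Ok F σ u v ∧ Ok F σ (u + len σ v) w := by
  induction v generalizing u with
  | nil =>
    simp only [List.nil_append, len_nil, Nat.add_zero]
    exact ⟨fun h => ⟨h.start, h⟩, fun h => h.2⟩
  | cons a v ih =>
    simp only [List.cons_append, Ok, ih, len_cons, add_assoc, and_assoc]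

theorem ok_iff {u : ℕ} {w : List Λ} :
    Ok F σ u w ↔ ∀ k ≤ w.length, u + len σ (w.take k) ∉ F := by
  induction w generalizing u with
  | nil => simp [Ok]
  | cons a w ih =>
    simp only [Ok, ih, List.length_cons]
    constructor
    · rintro ⟨h1, h2⟩ k hk
      cases k with
      | zero => simpa using h1
      | succ k =>
        have := h2 k (by omega)
        simpa [add_assoc] using this
    · intro h
      refine ⟨by simpa using h 0 (by omega), fun k hk => ?_⟩
      have := h (k + 1) (by omega)
      simpa [add_assoc] using this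

theorem ok_replicate {u l : ℕ} {b : Λ} :
    Ok F σ u (List.replicate l b) ↔ ∀ i ≤ l, u + i * σ b ∉ F := by
  rw [ok_iff]
  simp only [List.length_replicate, List.take_replicate, len_replicate]
  exact ⟨fun h i hi => by simpa [Nat.min_eq_left hi] using h i hi,
    fun h i hi => by simpa [Nat.min_eq_left hi] using h i hi⟩

end basic

/-- Choosing an index which avoids finitely many bad events. -/
theorem avoid (F : Finset ℕ) (n N : ℕ) (h : F.card * n < N) (g : ℕ → ℕ → ℕ)
    (hg : ∀ i < n, ∀ y < N, ∀ y' < N, g i y = g i y' → y = y') :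
    ∃ y < N, ∀ i < n, g i y ∉ F := by
  by_contra hcon
  push Not at hcon
  choose! c hc hcF using hcon
  have h1 : (F ×ˢ Finset.range n).card < (Finset.range N).card := by
    rw [Finset.card_product, Finset.card_range, Finset.card_range]; exact h
  obtain ⟨y, hy, y', hy', hne, heq⟩ := Finset.exists_ne_map_eq_of_card_lt_of_maps_to h1
    (f := fun y => (g (c y) y, c y)) (by
      intro y hy
      have hy : y < N := by simpa using hy
      simp only [Finset.coe_product, Set.mem_prod, Finset.mem_coe, Finset.mem_range]
      exact ⟨hcF y hy, hc y hy⟩)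
  simp only [Prod.mk.injEq] at heq
  rw [Finset.mem_range] at hy hy'
  apply hne
  apply hg (c y) (hc y hy) y hy y' hy'
  rw [heq.1, heq.2]

end Pool.Agent.Lib.MP_5dd24d_lc
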